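import Pool.Agent.Lib.PlCov.Base
import Pool.Agent.Lib.OOD.GraphParse

/-!
# The algorithm, as a program on words
-/

set_option autoImplicit false

namespace Pool.Agent.PlCov

open Pool.Agent.PolyTime Pool.Agent.OOD

/-- degree -/
def rdeg (w : List Bool) (x : ℕ) : ℕ := ((List.range (gn w)).filter fun y => gadj w x y).length

/-- is there a neighbour of degree `d`? -/
def rhas (w : List Bool) (d x : ℕ) : Bool :=
  (List.range (gn w)).any fun y => gadj w x y && decide (rdeg w y = d)

/-- is there a neighbour of degree 2 with a neighbour of degree `d`? -/
def rnear (w : List Bool) (d x : ℕ) : Bool :=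
  (List.range (gn w)).any fun y => gadj w x y && (decide (rdeg w y = 2) && rhas w d y)

/-- the type -/
def rtype (w : List Bool) (x : ℕ) : ℕ :=
  if rdeg w x = 4 then 3
  else if rdeg w x = 5 then 2
  else if rdeg w x = 3 then (bif rhas w 5 x then 1 else 0)
  else if rdeg w x = 2 then
    (bif rhas w 5 x then (bif rhas w 4 x then 4 else bif rnear w 4 x then 5 else 7)
    else bif rhas w 4 x then (bif rnear w 5 x then 6 else 9) else 8)
  else 10

/-- are the types a good type function? -/
def rgood (w : List Bool) : Bool :=
  (List.range (gn w)).all fun x => decide (rtype w x < 10) &&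
    (List.range 10).all fun t => decide (((List.range (gn w)).filter fun y =>
      gadj w x y && decide (rtype w y = t)).length = mat (rtype w x) t)

/-- links along edges -/
def rlinksE (w : List Bool) (i : ℕ) : List ((ℕ × Bool) × (ℕ × Bool)) :=
  ((gpairs w).filter fun e => gadj w e.1 e.2 && (decide (2 ≤ rtype w e.1) &&
    decide (2 ≤ rtype w e.2))).flatMap fun e =>
      [((e.1, false), (e.2, xor false (dl i (rtype w e.1) (rtype w e.2)))),
       ((e.1, true), (e.2, xor true (dl i (rtype w e.1) (rtype w e.2))))]

/-- links through vertices of type w -/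
def rlinksW (w : List Bool) : List ((ℕ × Bool) × (ℕ × Bool)) :=
  ((gpairs w).filter fun e => !decide (e.1 = e.2) && (decide (rtype w e.1 = 2) &&
    (decide (rtype w e.2 = 2) && (List.range (gn w)).any fun x => decide (rtype w x = 1) &&
      (gadj w x e.1 && gadj w x e.2)))).flatMap fun e =>
      [((e.1, false), (e.2, true)), ((e.1, true), (e.2, false))]

/-- is the component of `y` bad for the sector `i`? -/
def rbad (w : List Bool) (i y : ℕ) : Bool :=
  decide ((y, true) ∈ reach (rlinksE w i ++ rlinksW w) (y, false))

/-- is the component at `x` consistent for the sector `i`? -/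
def rcons (w : List Bool) (i x : ℕ) : Bool :=
  (List.range (gn w)).all fun y => !(gadj w x y && decide (rtype w y = 2)) || !rbad w i y

/-- the acceptance condition -/
def raccept (w : List Bool) : Bool :=
  ((List.range (gn w)).all fun x => !decide (rtype w x = 1) ||
    (List.range 3).any fun i => rcons w i x) &&
  (List.range (gn w)).all fun h => !decide (rtype w h = 0) ||
    (gpairs w).all fun e => (List.range 3).all fun i =>
      !(gadj w h e.1 && (gadj w h e.2 && (!decide (e.1 = e.2) && (rcons w i e.1 && rcons w i e.2))))

/-- the algorithm -/
def covAlg (w : List Bool) : Bool := isGraph w && (rgood w && raccept w)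

end Pool.Agent.PlCov
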