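import Pool.Agent.Lib.PlCov.Alg

/-!
# Chunk AP: the algorithm runs in polynomial time

See `Pool/Agent/Lib/PolyTime/README.md` and `Pool/Agent/Lib/OOD/InNP.lean` (`PT_verify`) for an example;
`PT_gn`, `PT_gadj`, `PT_gpairs`, `PT_grange`, `PT_isGraph` are in `OOD.GraphParse`, `PT.decide_reach` in
`PolyTime.Reach`.
-/

set_option autoImplicit false

namespace Pool.Agent.PlCov

open Pool.Agent.PolyTime Pool.Agent.OOD

section

variable {α : Type*} [Enc α]

private lemma ap_rdeg0 : PT fun p : List Bool × ℕ => rdeg p.1 p.2 :=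
  PT.length (PT.filter (f := fun (p : List Bool × ℕ) (y : ℕ) => gadj p.1 p.2 y)
    (PT_gadj (by fun_prop) (by fun_prop) (by fun_prop)) (PT_grange PT.fst'))

private lemma ap_rdeg {w : α → List Bool} {x : α → ℕ} (hw : PT w) (hx : PT x) :
    PT fun a => rdeg (w a) (x a) :=
  PT.comp (g := fun p : List Bool × ℕ => rdeg p.1 p.2) (f := fun a => (w a, x a))
    ap_rdeg0 (PT.pair hw hx)

private lemma ap_rhas0 : PT fun p : List Bool × ℕ × ℕ => rhas p.1 p.2.1 p.2.2 :=
  PT.any (f := fun (p : List Bool × ℕ × ℕ) (y : ℕ) =>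
      gadj p.1 p.2.2 y && decide (rdeg p.1 y = p.2.1))
    (PT.and (PT_gadj (by fun_prop) (by fun_prop) (by fun_prop))
      (PT.decide_eq (ap_rdeg (by fun_prop) (by fun_prop)) (by fun_prop))) (PT_grange PT.fst')

private lemma ap_rhas {w : α → List Bool} {d x : α → ℕ} (hw : PT w) (hd : PT d) (hx : PT x) :
    PT fun a => rhas (w a) (d a) (x a) :=
  PT.comp (g := fun p : List Bool × ℕ × ℕ => rhas p.1 p.2.1 p.2.2)
    (f := fun a => (w a, d a, x a)) ap_rhas0 (PT.pair hw (PT.pair hd hx))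

private lemma ap_rnear0 : PT fun p : List Bool × ℕ × ℕ => rnear p.1 p.2.1 p.2.2 :=
  PT.any (f := fun (p : List Bool × ℕ × ℕ) (y : ℕ) =>
      gadj p.1 p.2.2 y && (decide (rdeg p.1 y = 2) && rhas p.1 p.2.1 y))
    (PT.and (PT_gadj (by fun_prop) (by fun_prop) (by fun_prop)) (PT.and
      (PT.decide_eq (ap_rdeg (by fun_prop) (by fun_prop)) (PT.const 2))
      (ap_rhas (by fun_prop) (by fun_prop) (by fun_prop)))) (PT_grange PT.fst')

private lemma ap_rnear {w : α → List Bool} {d x : α → ℕ} (hw : PT w) (hd : PT d) (hx : PT x) :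
    PT fun a => rnear (w a) (d a) (x a) :=
  PT.comp (g := fun p : List Bool × ℕ × ℕ => rnear p.1 p.2.1 p.2.2)
    (f := fun a => (w a, d a, x a)) ap_rnear0 (PT.pair hw (PT.pair hd hx))

private lemma ap_rtype0 : PT fun p : List Bool × ℕ => rtype p.1 p.2 := by
  have hd : PT fun p : List Bool × ℕ => rdeg p.1 p.2 := ap_rdeg0
  have hh : ∀ k : ℕ, PT fun p : List Bool × ℕ => rhas p.1 k p.2 :=
    fun k => ap_rhas PT.fst' (PT.const k) PT.snd'
  have hn : ∀ k : ℕ, PT fun p : List Bool × ℕ => rnear p.1 k p.2 :=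
    fun k => ap_rnear PT.fst' (PT.const k) PT.snd'
  unfold rtype
  refine PT.ite (PT.decide_eq hd (PT.const 4)) (PT.const 3) ?_
  refine PT.ite (PT.decide_eq hd (PT.const 5)) (PT.const 2) ?_
  refine PT.ite (PT.decide_eq hd (PT.const 3)) (PT.bif (hh 5) (PT.const 1) (PT.const 0)) ?_
  refine PT.ite (PT.decide_eq hd (PT.const 2)) ?_ (PT.const 10)
  refine PT.bif (hh 5) (PT.bif (hh 4) (PT.const 4) (PT.bif (hn 4) (PT.const 5) (PT.const 7))) ?_
  exact PT.bif (hh 4) (PT.bif (hn 5) (PT.const 6) (PT.const 9)) (PT.const 8)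

private lemma ap_rtype {w : α → List Bool} {x : α → ℕ} (hw : PT w) (hx : PT x) :
    PT fun a => rtype (w a) (x a) :=
  PT.comp (g := fun p : List Bool × ℕ => rtype p.1 p.2) (f := fun a => (w a, x a))
    ap_rtype0 (PT.pair hw hx)

private lemma ap_mat {a b : α → ℕ} (ha : PT a) (hb : PT b) : PT fun x => mat (a x) (b x) :=
  PT.getD (PT.getD (PT.const matT) ha (PT.const [])) hb (PT.const 0)

private lemma ap_nu {a b : α → ℕ} (ha : PT a) (hb : PT b) : PT fun x => nu (a x) (b x) :=
  PT.getD (PT.getD (PT.const ([[false, false, true, true], [false, true, true, false],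
    [false, true, false, true]] : List (List Bool))) ha (PT.const [])) hb (PT.const false)

private lemma ap_dl {i a b : α → ℕ} (hi : PT i) (ha : PT a) (hb : PT b) :
    PT fun x => dl (i x) (a x) (b x) := by
  unfold dl
  refine PT.ite (PT.decide_or (PT.decide_and (PT.decide_eq ha (PT.const 4))
    (PT.decide_eq hb (PT.const 3))) (PT.decide_and (PT.decide_eq ha (PT.const 3))
    (PT.decide_eq hb (PT.const 4)))) (ap_nu hi (PT.const 1)) ?_
  refine PT.ite (PT.decide_or (PT.decide_and (PT.decide_eq ha (PT.const 6))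
    (PT.decide_eq hb (PT.const 3))) (PT.decide_and (PT.decide_eq ha (PT.const 3))
    (PT.decide_eq hb (PT.const 6)))) (ap_nu hi (PT.const 2)) ?_
  refine PT.ite (PT.decide_or (PT.decide_and (PT.decide_eq ha (PT.const 9))
    (PT.decide_eq hb (PT.const 3))) (PT.decide_and (PT.decide_eq ha (PT.const 3))
    (PT.decide_eq hb (PT.const 9)))) (ap_nu hi (PT.const 3)) (PT.const false)

private lemma ap_rgood : PT rgood := by
  refine PT.all (f := fun (w : List Bool) (x : ℕ) => decide (rtype w x < 10) &&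
    (List.range 10).all fun t => decide (((List.range (gn w)).filter fun y =>
      gadj w x y && decide (rtype w y = t)).length = mat (rtype w x) t)) ?_ (PT_grange PT.id)
  refine PT.and (PT.decide_lt (ap_rtype (by fun_prop) (by fun_prop)) (PT.const 10)) ?_
  refine PT.all (f := fun (p : List Bool × ℕ) (t : ℕ) => decide (((List.range (gn p.1)).filter
    fun y => gadj p.1 p.2 y && decide (rtype p.1 y = t)).length = mat (rtype p.1 p.2) t)) ?_
    (PT.const _)
  refine PT.decide_eq (PT.length ?_) (ap_mat (ap_rtype (by fun_prop) (by fun_prop)) (by fun_prop))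
  refine PT.filter (f := fun (p : (List Bool × ℕ) × ℕ) (y : ℕ) =>
    gadj p.1.1 p.1.2 y && decide (rtype p.1.1 y = p.2)) ?_ (PT_grange (by fun_prop))
  exact PT.and (PT_gadj (by fun_prop) (by fun_prop) (by fun_prop))
    (PT.decide_eq (ap_rtype (by fun_prop) (by fun_prop)) (by fun_prop))

private lemma ap_rlinksE0 : PT fun p : List Bool × ℕ => rlinksE p.1 p.2 := by
  unfold rlinksE
  refine PT.flatMap (f := fun (p : List Bool × ℕ) (e : ℕ × ℕ) =>
      [((e.1, false), (e.2, xor false (dl p.2 (rtype p.1 e.1) (rtype p.1 e.2)))),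
       ((e.1, true), (e.2, xor true (dl p.2 (rtype p.1 e.1) (rtype p.1 e.2))))]) ?_ ?_
  · have hdl : PT fun q : (List Bool × ℕ) × ℕ × ℕ => dl q.1.2 (rtype q.1.1 q.2.1)
        (rtype q.1.1 q.2.2) :=
      ap_dl (by fun_prop) (ap_rtype (by fun_prop) (by fun_prop))
        (ap_rtype (by fun_prop) (by fun_prop))
    refine PT.cons (PT.pair (by fun_prop) (PT.pair (by fun_prop) (PT.xor (PT.const false) hdl))) ?_
    exact PT.cons (PT.pair (by fun_prop) (PT.pair (by fun_prop) (PT.xor (PT.const true) hdl)))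
      (PT.const [])
  · refine PT.filter (f := fun (p : List Bool × ℕ) (e : ℕ × ℕ) => gadj p.1 e.1 e.2 &&
      (decide (2 ≤ rtype p.1 e.1) && decide (2 ≤ rtype p.1 e.2))) ?_ (PT_gpairs PT.fst')
    exact PT.and (PT_gadj (by fun_prop) (by fun_prop) (by fun_prop)) (PT.and
      (PT.decide_le (PT.const 2) (ap_rtype (by fun_prop) (by fun_prop)))
      (PT.decide_le (PT.const 2) (ap_rtype (by fun_prop) (by fun_prop))))

private lemma ap_rlinksW : PT rlinksW := by
  unfold rlinksW
  refine PT.flatMap (f := fun (w : List Bool) (e : ℕ × ℕ) =>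
      [((e.1, false), (e.2, true)), ((e.1, true), (e.2, false))]) (by fun_prop) ?_
  refine PT.filter (f := fun (w : List Bool) (e : ℕ × ℕ) => !decide (e.1 = e.2) &&
    (decide (rtype w e.1 = 2) &&
    (decide (rtype w e.2 = 2) && (List.range (gn w)).any fun x => decide (rtype w x = 1) &&
      (gadj w x e.1 && gadj w x e.2)))) ?_ (PT_gpairs PT.id)
  refine PT.and (PT.not (PT.decide_eq (by fun_prop) (by fun_prop))) (PT.and
    (PT.decide_eq (ap_rtype (by fun_prop) (by fun_prop)) (PT.const 2)) (PT.and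
    (PT.decide_eq (ap_rtype (by fun_prop) (by fun_prop)) (PT.const 2)) ?_))
  refine PT.any (f := fun (p : List Bool × ℕ × ℕ) (x : ℕ) => decide (rtype p.1 x = 1) &&
      (gadj p.1 x p.2.1 && gadj p.1 x p.2.2)) ?_ (PT_grange (by fun_prop))
  exact PT.and (PT.decide_eq (ap_rtype (by fun_prop) (by fun_prop)) (PT.const 1)) (PT.and
    (PT_gadj (by fun_prop) (by fun_prop) (by fun_prop))
    (PT_gadj (by fun_prop) (by fun_prop) (by fun_prop)))

private lemma ap_rbad0 : PT fun p : List Bool × ℕ × ℕ => rbad p.1 p.2.1 p.2.2 := by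
  have h1 : PT fun p : List Bool × ℕ × ℕ => rlinksE p.1 p.2.1 :=
    PT.comp (g := fun p : List Bool × ℕ => rlinksE p.1 p.2)
      (f := fun p : List Bool × ℕ × ℕ => (p.1, p.2.1)) ap_rlinksE0 (by fun_prop)
  have h2 : PT fun p : List Bool × ℕ × ℕ => rlinksW p.1 :=
    PT.comp (g := rlinksW) (f := fun p : List Bool × ℕ × ℕ => p.1) ap_rlinksW (by fun_prop)
  have h3 : PT fun p : List Bool × ℕ × ℕ => rlinksE p.1 p.2.1 ++ rlinksW p.1 := PT.append h1 h2
  have h4 : PT fun p : List Bool × ℕ × ℕ => (p.2.2, false) := by fun_prop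
  have h5 : PT fun p : List Bool × ℕ × ℕ => (p.2.2, true) := by fun_prop
  refine PT.congr (PT.decide_reach
    (E := fun p : List Bool × ℕ × ℕ => rlinksE p.1 p.2.1 ++ rlinksW p.1)
    (x := fun p => (p.2.2, false)) (y := fun p => (p.2.2, true)) h3 h4 h5) ?_
  intro p
  unfold rbad
  exact decide_eq_decide.2 Iff.rfl

private lemma ap_rcons0 : PT fun p : List Bool × ℕ × ℕ => rcons p.1 p.2.1 p.2.2 := by
  unfold rcons
  refine PT.all (f := fun (p : List Bool × ℕ × ℕ) (y : ℕ) =>
    !(gadj p.1 p.2.2 y && decide (rtype p.1 y = 2)) || !rbad p.1 p.2.1 y) ?_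
    (PT_grange (by fun_prop))
  refine PT.or (PT.not (PT.and (PT_gadj (by fun_prop) (by fun_prop) (by fun_prop))
    (PT.decide_eq (ap_rtype (by fun_prop) (by fun_prop)) (PT.const 2)))) (PT.not ?_)
  exact PT.comp (g := fun p : List Bool × ℕ × ℕ => rbad p.1 p.2.1 p.2.2)
    (f := fun p : (List Bool × ℕ × ℕ) × ℕ => (p.1.1, p.1.2.1, p.2)) ap_rbad0 (by fun_prop)

private lemma ap_rcons {w : α → List Bool} {i x : α → ℕ} (hw : PT w) (hi : PT i) (hx : PT x) :
    PT fun a => rcons (w a) (i a) (x a) :=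
  PT.comp (g := fun p : List Bool × ℕ × ℕ => rcons p.1 p.2.1 p.2.2)
    (f := fun a => (w a, i a, x a)) ap_rcons0 (PT.pair hw (PT.pair hi hx))

private lemma ap_raccept : PT raccept := by
  unfold raccept
  refine PT.and ?_ ?_
  · refine PT.all (f := fun (w : List Bool) (x : ℕ) => !decide (rtype w x = 1) ||
      (List.range 3).any fun i => rcons w i x) ?_ (PT_grange PT.id)
    refine PT.or (PT.not (PT.decide_eq (ap_rtype (by fun_prop) (by fun_prop)) (PT.const 1))) ?_
    refine PT.any (f := fun (p : List Bool × ℕ) (i : ℕ) => rcons p.1 i p.2) ?_ (PT.const _)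
    exact ap_rcons (by fun_prop) (by fun_prop) (by fun_prop)
  · refine PT.all (f := fun (w : List Bool) (h : ℕ) => !decide (rtype w h = 0) ||
      (gpairs w).all fun e => (List.range 3).all fun i =>
      !(gadj w h e.1 && (gadj w h e.2 && (!decide (e.1 = e.2) && (rcons w i e.1 && rcons w i e.2)))))
      ?_ (PT_grange PT.id)
    refine PT.or (PT.not (PT.decide_eq (ap_rtype (by fun_prop) (by fun_prop)) (PT.const 0))) ?_
    refine PT.all (f := fun (p : List Bool × ℕ) (e : ℕ × ℕ) => (List.range 3).all fun i =>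
      !(gadj p.1 p.2 e.1 && (gadj p.1 p.2 e.2 && (!decide (e.1 = e.2) &&
        (rcons p.1 i e.1 && rcons p.1 i e.2))))) ?_ (PT_gpairs (by fun_prop))
    refine PT.all (f := fun (p : (List Bool × ℕ) × ℕ × ℕ) (i : ℕ) =>
      !(gadj p.1.1 p.1.2 p.2.1 && (gadj p.1.1 p.1.2 p.2.2 && (!decide (p.2.1 = p.2.2) &&
        (rcons p.1.1 i p.2.1 && rcons p.1.1 i p.2.2))))) ?_ (PT.const _)
    exact PT.not (PT.and (PT_gadj (by fun_prop) (by fun_prop) (by fun_prop)) (PT.and
      (PT_gadj (by fun_prop) (by fun_prop) (by fun_prop)) (PT.and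
      (PT.not (PT.decide_eq (by fun_prop) (by fun_prop))) (PT.and
      (ap_rcons (by fun_prop) (by fun_prop) (by fun_prop))
      (ap_rcons (by fun_prop) (by fun_prop) (by fun_prop))))))

end

theorem PT_covAlg : PT covAlg :=
  PT.and PT_isGraph (PT.and ap_rgood ap_raccept)

end Pool.Agent.PlCov
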