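import Pool.Agent.Lib.PlCov.Alg

/-!
# Chunk AS: the algorithm tests `Good` and `Accept` for the type function `typeOf`

`gn_encodeGraph`, `gadj_encodeGraph`, `isGraph_encodeGraph` are in `OOD.GraphParse`; `mem_reach` in
`PolyTime.Reach`: reachability for the list of links = `Relation.ReflTransGen` (the list contains the pairs
`((x.1, s), (y.1, t))` with `Link G τ i (x, s) (y, t)`, `x y : Fin n`; transport of paths as in `forestE_iff` of
`OOD.InNP`). `rtype w x = typeOf G ⟨x, _⟩`.
-/

set_option autoImplicit false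

namespace Pool.Agent.PlCov

open Pool.Agent.PolyTime Pool.Agent.OOD

private lemma as_cnt (n : ℕ) (p : ℕ → Bool) (P : Fin n → Prop)
    (h : ∀ y : Fin n, p y.1 = true ↔ P y) :
    ((List.range n).filter p).length = Set.ncard {y : Fin n | P y} := by
  classical
  have h1 : ((List.range n).filter p).length = ((Finset.range n).filter fun y => p y = true).card := by
    rw [← List.toFinset_card_of_nodup (List.nodup_range.filter p)]
    congr 1
    ext y
    simp
  have h2 : Set.ncard {y : Fin n | P y} = (Finset.univ.filter fun y : Fin n => P y).card := by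
    rw [← Set.ncard_coe_finset]
    congr 1
    ext y
    simp
  rw [h1, h2]
  symm
  refine Finset.card_bij (fun y _ => y.1) ?_ ?_ ?_
  · intro y hy
    rw [Finset.mem_filter] at hy ⊢
    exact ⟨Finset.mem_range.2 y.2, (h y).2 hy.2⟩
  · intro a _ b _ hab
    exact Fin.ext hab
  · intro b hb
    rw [Finset.mem_filter, Finset.mem_range] at hb
    exact ⟨⟨b, hb.1⟩, Finset.mem_filter.2 ⟨Finset.mem_univ _, (h ⟨b, hb.1⟩).1 hb.2⟩, rfl⟩

private lemma as_any (n : ℕ) (p : ℕ → Bool) (P : Fin n → Prop)
    (h : ∀ y : Fin n, p y.1 = true ↔ P y) :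
    (List.range n).any p = true ↔ ∃ y, P y := by
  rw [List.any_eq_true]
  constructor
  · rintro ⟨y, hy, hp⟩
    rw [List.mem_range] at hy
    exact ⟨⟨y, hy⟩, (h ⟨y, hy⟩).1 hp⟩
  · rintro ⟨y, hy⟩
    exact ⟨y.1, List.mem_range.2 y.2, (h y).2 hy⟩

private lemma as_all (n : ℕ) (p : ℕ → Bool) (P : Fin n → Prop)
    (h : ∀ y : Fin n, p y.1 = true ↔ P y) :
    (List.range n).all p = true ↔ ∀ y, P y := by
  rw [List.all_eq_true]
  constructor
  · intro h1 y
    exact (h y).1 (h1 y.1 (List.mem_range.2 y.2))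
  · intro h1 y hy
    rw [List.mem_range] at hy
    exact (h ⟨y, hy⟩).2 (h1 ⟨y, hy⟩)

private lemma as_rel {A B : Type} (φ : A → B) (hφ : Function.Injective φ) (R : A → A → Prop)
    (S : B → B → Prop) (h : ∀ b b', S b b' ↔ ∃ a a', b = φ a ∧ b' = φ a' ∧ R a a') (x y : A) :
    Relation.ReflTransGen S (φ x) (φ y) ↔ Relation.ReflTransGen R x y := by
  constructor
  · intro h1
    have key : ∀ b, Relation.ReflTransGen S (φ x) b → ∃ a, b = φ a ∧ Relation.ReflTransGen R x a := by
      intro b hb
      induction hb with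
      | refl => exact ⟨x, rfl, Relation.ReflTransGen.refl⟩
      | tail _ hs ih =>
        obtain ⟨a, rfl, ha⟩ := ih
        obtain ⟨a1, a2, e1, rfl, hr⟩ := (h _ _).1 hs
        have := hφ e1
        subst this
        exact ⟨a2, rfl, ha.tail hr⟩
    obtain ⟨a, e, ha⟩ := key _ h1
    have := hφ e
    subst this
    exact ha
  · intro h1
    induction h1 with
    | refl => exact Relation.ReflTransGen.refl
    | tail _ hr ih => exact ih.tail ((h _ _).2 ⟨_, _, rfl, rfl, hr⟩)

section

variable (G : Σ n, SimpleGraph (Fin n))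

private lemma as_adj (u v : Fin G.1) : gadj (encodeGraph G) u v = true ↔ G.2.Adj u v := by
  classical
  rw [gadj_encodeGraph]
  exact decide_eq_true_iff

private lemma as_rdeg (x : Fin G.1) : rdeg (encodeGraph G) x.1 = (G.2.neighborSet x).ncard := by
  unfold rdeg
  rw [gn_encodeGraph]
  exact as_cnt _ _ (fun y => y ∈ G.2.neighborSet x) (fun y => as_adj G x y)

private lemma as_rhas (d : ℕ) (x : Fin G.1) : rhas (encodeGraph G) d x.1 = true ↔
    ∃ z, G.2.Adj x z ∧ (G.2.neighborSet z).ncard = d := by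
  unfold rhas
  rw [gn_encodeGraph]
  refine as_any _ _ _ (fun y => ?_)
  rw [Bool.and_eq_true, as_adj, decide_eq_true_iff, as_rdeg]

private lemma as_rnear (d : ℕ) (x : Fin G.1) : rnear (encodeGraph G) d x.1 = true ↔
    ∃ z, G.2.Adj x z ∧ (G.2.neighborSet z).ncard = 2 ∧
      ∃ u, G.2.Adj z u ∧ (G.2.neighborSet u).ncard = d := by
  unfold rnear
  rw [gn_encodeGraph]
  refine as_any _ _ _ (fun y => ?_)
  rw [Bool.and_eq_true, Bool.and_eq_true, as_adj, decide_eq_true_iff, as_rdeg, as_rhas]

private lemma as_bif {c : Bool} {P : Prop} [Decidable P] (h : c = true ↔ P) (a b : ℕ) :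
    (bif c then a else b) = if P then a else b := by
  by_cases hP : P
  · rw [if_pos hP, h.2 hP]; rfl
  · rw [if_neg hP]
    have : c = false := by
      rw [← Bool.not_eq_true]
      exact fun hc => hP (h.1 hc)
    rw [this]; rfl

private lemma as_rtype (x : Fin G.1) : rtype (encodeGraph G) x.1 = typeOf G.2 x := by
  classical
  unfold rtype typeOf
  simp only [as_rdeg, as_bif (as_rhas G _ x), as_bif (as_rnear G _ x)]
  split_ifs <;> rfl

private lemma as_rgood : rgood (encodeGraph G) = true ↔ Good G.2 (typeOf G.2) := by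
  have h1 : rgood (encodeGraph G) = true ↔ ∀ x : Fin G.1, typeOf G.2 x < 10 ∧ ∀ t, t < 10 →
      Set.ncard {y | G.2.Adj x y ∧ typeOf G.2 y = t} = mat (typeOf G.2 x) t := by
    unfold rgood
    rw [gn_encodeGraph]
    refine as_all _ _ _ (fun x => ?_)
    rw [Bool.and_eq_true, decide_eq_true_iff, as_rtype, List.all_eq_true]
    refine and_congr Iff.rfl (forall_congr' fun t => ?_)
    rw [List.mem_range, decide_eq_true_iff]
    refine imp_congr Iff.rfl ?_
    rw [as_cnt G.1 _ (fun y => G.2.Adj x y ∧ typeOf G.2 y = t)]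
    intro y
    rw [Bool.and_eq_true, as_adj, decide_eq_true_iff, as_rtype]
  rw [h1]
  exact ⟨fun h => ⟨fun x => (h x).1, fun x => (h x).2⟩, fun h x => ⟨h.lt x, h.card x⟩⟩

private lemma as_mem (i : Fin 3) (a b : ℕ × Bool) :
    (a, b) ∈ rlinksE (encodeGraph G) i ++ rlinksW (encodeGraph G) ↔
      ∃ p q : Fin G.1 × Bool, a = (p.1.1, p.2) ∧ b = (q.1.1, q.2) ∧
        Link G.2 (typeOf G.2) i p q := by
  rw [List.mem_append]
  constructor
  · rintro (h | h)
    · unfold rlinksE at h
      rw [List.mem_flatMap] at h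
      obtain ⟨⟨x, y⟩, h1, h2⟩ := h
      rw [List.mem_filter, gpairs, gn_encodeGraph, List.mem_product, List.mem_range,
        List.mem_range] at h1
      obtain ⟨⟨hx, hy⟩, h3⟩ := h1
      simp only at hx hy h3 h2
      have ex := as_rtype G ⟨x, hx⟩
      have ey := as_rtype G ⟨y, hy⟩
      simp only at ex ey
      rw [Bool.and_eq_true, Bool.and_eq_true, decide_eq_true_iff, decide_eq_true_iff, ex, ey] at h3
      obtain ⟨h4, h5, h6⟩ := h3
      have h7 := (as_adj G ⟨x, hx⟩ ⟨y, hy⟩).1 h4
      rw [ex, ey, List.mem_cons, List.mem_cons] at h2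
      rcases h2 with h2 | h2 | h2
      · rw [Prod.mk.injEq] at h2
        exact ⟨(⟨x, hx⟩, false), (⟨y, hy⟩, _), h2.1, h2.2, Link.edge _ _ false h7 h5 h6⟩
      · rw [Prod.mk.injEq] at h2
        exact ⟨(⟨x, hx⟩, true), (⟨y, hy⟩, _), h2.1, h2.2, Link.edge _ _ true h7 h5 h6⟩
      · simp at h2
    · unfold rlinksW at h
      rw [List.mem_flatMap] at h
      obtain ⟨⟨y, z⟩, h1, h2⟩ := h
      rw [List.mem_filter, gpairs, gn_encodeGraph, List.mem_product, List.mem_range,
        List.mem_range] at h1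
      obtain ⟨⟨hy, hz⟩, h3⟩ := h1
      simp only at hy hz h3 h2
      have ey := as_rtype G ⟨y, hy⟩
      have ez := as_rtype G ⟨z, hz⟩
      simp only at ey ez
      rw [Bool.and_eq_true, Bool.and_eq_true, Bool.and_eq_true, decide_eq_true_iff,
        decide_eq_true_iff, ey, ez, Bool.not_eq_true', decide_eq_false_iff_not,
        List.any_eq_true] at h3
      obtain ⟨h4, h5, h6, x, hx, h7⟩ := h3
      rw [List.mem_range] at hx
      have ex := as_rtype G ⟨x, hx⟩
      simp only at ex
      rw [Bool.and_eq_true, Bool.and_eq_true, decide_eq_true_iff, ex] at h7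
      obtain ⟨h8, h9, h10⟩ := h7
      have h11 := (as_adj G ⟨x, hx⟩ ⟨y, hy⟩).1 h9
      have h12 := (as_adj G ⟨x, hx⟩ ⟨z, hz⟩).1 h10
      have h13 : (⟨y, hy⟩ : Fin G.1) ≠ ⟨z, hz⟩ := fun h => h4 (congrArg Fin.val h)
      rw [List.mem_cons, List.mem_cons] at h2
      rcases h2 with h2 | h2 | h2
      · rw [Prod.mk.injEq] at h2
        exact ⟨(⟨y, hy⟩, false), (⟨z, hz⟩, true), h2.1, h2.2,
          Link.ww _ _ _ false h8 h11 h12 h5 h6 h13⟩
      · rw [Prod.mk.injEq] at h2
        exact ⟨(⟨y, hy⟩, true), (⟨z, hz⟩, false), h2.1, h2.2,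
          Link.ww _ _ _ true h8 h11 h12 h5 h6 h13⟩
      · simp at h2
  · rintro ⟨p, q, rfl, rfl, h⟩
    cases h with
    | edge x y s hxy hx hy =>
      left
      unfold rlinksE
      rw [List.mem_flatMap]
      refine ⟨(x.1, y.1), ?_, ?_⟩
      · rw [List.mem_filter, gpairs, gn_encodeGraph, List.mem_product, List.mem_range,
          List.mem_range]
        refine ⟨⟨x.2, y.2⟩, ?_⟩
        rw [Bool.and_eq_true, Bool.and_eq_true, decide_eq_true_iff, decide_eq_true_iff,
          as_rtype, as_rtype]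
        exact ⟨(as_adj G x y).2 hxy, hx, hy⟩
      · simp only [as_rtype]
        cases s with
        | false => exact List.mem_cons_self
        | true => exact List.mem_cons_of_mem _ List.mem_cons_self
    | ww x y z s hx hy hz ty tz hyz =>
      right
      unfold rlinksW
      rw [List.mem_flatMap]
      refine ⟨(y.1, z.1), ?_, ?_⟩
      · rw [List.mem_filter, gpairs, gn_encodeGraph, List.mem_product, List.mem_range,
          List.mem_range]
        refine ⟨⟨y.2, z.2⟩, ?_⟩
        rw [Bool.and_eq_true, Bool.and_eq_true, Bool.and_eq_true, decide_eq_true_iff,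
          decide_eq_true_iff, as_rtype, as_rtype, Bool.not_eq_true', decide_eq_false_iff_not,
          List.any_eq_true]
        refine ⟨fun h => hyz (Fin.ext h), ty, tz, x.1, List.mem_range.2 x.2, ?_⟩
        rw [Bool.and_eq_true, Bool.and_eq_true, decide_eq_true_iff, as_rtype]
        exact ⟨hx, (as_adj G x y).2 hy, (as_adj G x z).2 hz⟩
      · cases s with
        | false => exact List.mem_cons_self
        | true => exact List.mem_cons_of_mem _ List.mem_cons_self

private lemma as_rbad (i : Fin 3) (y : Fin G.1) :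
    rbad (encodeGraph G) i y.1 = true ↔ Bad G.2 (typeOf G.2) i y := by
  unfold rbad Bad
  rw [decide_eq_true_iff, mem_reach]
  refine as_rel (fun p : Fin G.1 × Bool => (p.1.1, p.2)) ?_ _ _ (as_mem G i) (y, false) (y, true)
  rintro ⟨a, s⟩ ⟨b, t⟩ h
  simp only [Prod.mk.injEq] at h
  exact Prod.ext (Fin.ext h.1) h.2

private lemma as_rcons (i : Fin 3) (x : Fin G.1) :
    rcons (encodeGraph G) i x.1 = true ↔ Cons G.2 (typeOf G.2) i x := by
  unfold rcons Cons
  rw [gn_encodeGraph]
  refine as_all _ _ _ (fun y => ?_)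
  rw [Bool.or_eq_true, Bool.not_eq_true', Bool.not_eq_true', ← Bool.not_eq_true,
    ← Bool.not_eq_true, Bool.and_eq_true, as_adj, decide_eq_true_iff, as_rtype, as_rbad]
  tauto

private lemma as_raccept : raccept (encodeGraph G) = true ↔ Accept G.2 (typeOf G.2) := by
  unfold raccept Accept
  rw [Bool.and_eq_true, gn_encodeGraph]
  refine and_congr ?_ ?_
  · refine as_all _ _ _ (fun x => ?_)
    rw [Bool.or_eq_true, Bool.not_eq_true', decide_eq_false_iff_not, as_rtype,
      as_any 3 _ (fun i => Cons G.2 (typeOf G.2) i x) (fun i => as_rcons G i x)]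
    tauto
  · refine (as_all _ _ (fun h => ∀ x y i, typeOf G.2 h = 0 → G.2.Adj h x → G.2.Adj h y → x ≠ y →
      ¬ (Cons G.2 (typeOf G.2) i x ∧ Cons G.2 (typeOf G.2) i y)) (fun h => ?_))
    rw [Bool.or_eq_true, Bool.not_eq_true', decide_eq_false_iff_not, as_rtype, List.all_eq_true]
    have key : ∀ (x y : Fin G.1) (i : Fin 3), (!(gadj (encodeGraph G) h x.1 &&
        (gadj (encodeGraph G) h y.1 && (!decide (x.1 = y.1) &&
          (rcons (encodeGraph G) i x.1 && rcons (encodeGraph G) i y.1))))) = true ↔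
        (G.2.Adj h x → G.2.Adj h y → x ≠ y →
          ¬ (Cons G.2 (typeOf G.2) i x ∧ Cons G.2 (typeOf G.2) i y)) := by
      intro x y i
      rw [Bool.not_eq_true', ← Bool.not_eq_true, Bool.and_eq_true, Bool.and_eq_true,
        Bool.and_eq_true, Bool.and_eq_true, as_adj, as_adj, as_rcons, as_rcons,
        Bool.not_eq_true', decide_eq_false_iff_not, ← Fin.ext_iff]
      tauto
    constructor
    · intro h1 x y i h0 hx hy hxy
      rcases h1 with h1 | h1
      · exact absurd h0 h1
      · have h2 := h1 (x.1, y.1) (by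
          rw [gpairs, gn_encodeGraph, List.mem_product, List.mem_range, List.mem_range]
          exact ⟨x.2, y.2⟩)
        rw [List.all_eq_true] at h2
        exact (key x y i).1 (h2 i.1 (List.mem_range.2 i.2)) hx hy hxy
    · intro h1
      by_cases h0 : typeOf G.2 h = 0
      · right
        rintro ⟨x, y⟩ hxy
        rw [gpairs, gn_encodeGraph, List.mem_product, List.mem_range, List.mem_range] at hxy
        rw [List.all_eq_true]
        intro i hi
        rw [List.mem_range] at hi
        exact (key ⟨x, hxy.1⟩ ⟨y, hxy.2⟩ ⟨i, hi⟩).2 (h1 _ _ _ h0)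
      · exact Or.inl h0

end

theorem covAlg_encodeGraph (G : Σ n, SimpleGraph (Fin n)) :
    covAlg (encodeGraph G) = true ↔ Good G.2 (typeOf G.2) ∧ Accept G.2 (typeOf G.2) := by
  unfold covAlg
  rw [Bool.and_eq_true, Bool.and_eq_true, as_rgood, as_raccept]
  simp only [isGraph_encodeGraph, true_and]

end Pool.Agent.PlCov
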