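import Pool.Agent.Lib.PlCov.Defs

/-!
# Types, sectors and signs: definitions used in the proof

Types of vertices (codes in `ℕ`): `0` = P, `1` = w, `2` = u, `3` = v, `4 + c` = inner vertex `m c`.
`mat a b` = number of neighbours of type `b` of a vertex of type `a`.
-/

set_option autoImplicit false

namespace Pool.Agent.PlCov

/-- the table of the numbers of neighbours of each type -/
def matT : List (List ℕ) :=
  [[0, 3, 0, 0, 0, 0, 0, 0, 0, 0],
   [1, 0, 2, 0, 0, 0, 0, 0, 0, 0],
   [0, 1, 0, 1, 1, 1, 0, 1, 0, 0],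
   [0, 0, 1, 0, 1, 0, 1, 0, 0, 1],
   [0, 0, 1, 1, 0, 0, 0, 0, 0, 0],
   [0, 0, 1, 0, 0, 0, 1, 0, 0, 0],
   [0, 0, 0, 1, 0, 1, 0, 0, 0, 0],
   [0, 0, 1, 0, 0, 0, 0, 0, 1, 0],
   [0, 0, 0, 0, 0, 0, 0, 1, 0, 1],
   [0, 0, 0, 1, 0, 0, 0, 0, 1, 0]]

/-- number of neighbours of type `b` of a vertex of type `a` -/
def mat (a b : ℕ) : ℕ := (matT.getD a []).getD b 0

/-- the type of a vertex of `H` -/
def ty : HV → ℕ
  | .P => 0
  | .w _ => 1
  | .u _ _ => 2
  | .v _ _ => 3
  | .m _ _ c => 4 + c.val

/-- the sector of a vertex of `H` (junk value for `P`) -/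
def se : HV → Fin 3
  | .P => 0
  | .w i => i
  | .u i _ => i
  | .v i _ => i
  | .m i _ _ => i

/-- the sign of a vertex of `H` (junk value for `P`, `w`) -/
def si : HV → Bool
  | .P => false
  | .w _ => false
  | .u _ s => s
  | .v _ s => s
  | .m _ s _ => s

/-- the vertex of `H` with given type, sector and sign -/
def mkH (t : ℕ) (i : Fin 3) (s : Bool) : HV :=
  match t with
  | 0 => .P
  | 1 => .w i
  | 2 => .u i s
  | 3 => .v i s
  | c + 4 => .m i s (Fin.ofNat 6 c)

/-- change of sign along an edge between vertices of types `a`, `b` in the sector `i`: the last edge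
of the path with label `j` changes the sign by `nu i j`. -/
def dl (i a b : ℕ) : Bool :=
  if (a = 4 ∧ b = 3) ∨ (a = 3 ∧ b = 4) then nu i 1
  else if (a = 6 ∧ b = 3) ∨ (a = 3 ∧ b = 6) then nu i 2
  else if (a = 9 ∧ b = 3) ∨ (a = 3 ∧ b = 9) then nu i 3
  else false

variable {V : Type}

/-- a good type function: each vertex of type `a` has `mat a b` neighbours of type `b` -/
structure Good (G : SimpleGraph V) (τ : V → ℕ) : Prop where
  lt : ∀ x, τ x < 10
  card : ∀ x t, t < 10 → Set.ncard {y | G.Adj x y ∧ τ y = t} = mat (τ x) t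

/-- sectors and signs which are compatible with the types -/
structure Sec (G : SimpleGraph V) (τ : V → ℕ) (α : V → Fin 3) (σ : V → Bool) : Prop where
  sec : ∀ x y, G.Adj x y → τ x ≠ 0 → τ y ≠ 0 → α x = α y
  sgn : ∀ x y, G.Adj x y → 2 ≤ τ x → 2 ≤ τ y → σ y = xor (σ x) (dl (α x) (τ x) (τ y))
  wsg : ∀ x y z, τ x = 1 → G.Adj x y → G.Adj x z → τ y = 2 → τ z = 2 → y ≠ z → σ y ≠ σ z
  hub : ∀ x y z, τ x = 0 → G.Adj x y → G.Adj x z → y ≠ z → α y ≠ α z

/-- One step in the double cover of the sector `i`: along an edge (with change of sign `dl`), or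
between the two neighbours of type u of a vertex of type w (the sign changes). -/
inductive Link (G : SimpleGraph V) (τ : V → ℕ) (i : Fin 3) : V × Bool → V × Bool → Prop
  | edge (x y : V) (s : Bool) (hxy : G.Adj x y) (hx : 2 ≤ τ x) (hy : 2 ≤ τ y) :
      Link G τ i (x, s) (y, xor s (dl i (τ x) (τ y)))
  | ww (x y z : V) (s : Bool) (hx : τ x = 1) (hy : G.Adj x y) (hz : G.Adj x z)
      (ty : τ y = 2) (tz : τ z = 2) (hyz : y ≠ z) : Link G τ i (y, s) (z, !s)

/-- The component of `y` has no signs for the sector `i`. -/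
def Bad (G : SimpleGraph V) (τ : V → ℕ) (i : Fin 3) (y : V) : Prop :=
  Relation.ReflTransGen (Link G τ i) (y, false) (y, true)

/-- The component at the vertex `x` (of type w) is consistent for the sector `i`. -/
def Cons (G : SimpleGraph V) (τ : V → ℕ) (i : Fin 3) (x : V) : Prop :=
  ∀ y, G.Adj x y → τ y = 2 → ¬ Bad G τ i y

/-- The condition which is tested by the algorithm, for a graph with a good type function. -/
def Accept (G : SimpleGraph V) (τ : V → ℕ) : Prop :=
  (∀ x, τ x = 1 → ∃ i, Cons G τ i x) ∧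
    ∀ h x y i, τ h = 0 → G.Adj h x → G.Adj h y → x ≠ y → ¬ (Cons G τ i x ∧ Cons G τ i y)

open Classical in
/-- the type of a vertex, read off from the degrees near it (`10` = impossible) -/
noncomputable def typeOf (G : SimpleGraph V) (x : V) : ℕ :=
  let dg : V → ℕ := fun y => (G.neighborSet y).ncard
  let has : ℕ → V → Prop := fun d y => ∃ z, G.Adj y z ∧ dg z = d
  let near : ℕ → V → Prop := fun d y => ∃ z, G.Adj y z ∧ dg z = 2 ∧ has d z
  if dg x = 4 then 3
  else if dg x = 5 then 2
  else if dg x = 3 then (if has 5 x then 1 else 0)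
  else if dg x = 2 then
    (if has 5 x then (if has 4 x then 4 else if near 4 x then 5 else 7)
    else if has 4 x then (if near 5 x then 6 else 9) else 8)
  else 10

end Pool.Agent.PlCov
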