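import Pool.Agent.Lib.TFP.Euler
import Pool.Agent.Lib.TFP.Minor

/-!
# Chunk CC: a nonempty bipartite graph with all degrees at least 4 is not planar

Planarity in the form of MacLane (`TFP.MPlanar`). From `Pool.Agent.Lib.TFP.Euler`: `MPlanar.normal_form`
(needs `card V ≤ edgesIn G univ`, true as `2 E ≥ 4 V`) gives `k + 1` nonzero members with
`edgesIn G univ + 1 ≤ k + card V`; each has at least 4 edges (`four_support`, no triangles), and
`card_mul_le` gives `4 (k + 1) ≤ 2 E`. So `4 (E + 2 - V) ≤ 2 E`, `E ≤ 2 V - 4`, but `E ≥ 2 V` by the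
degree sum (`SimpleGraph.sum_degrees_eq_twice_card_edges`, `edgesIn_univ`).
-/

set_option autoImplicit false

namespace Pool.Agent.PlCov

open Pool.Agent.TFP

theorem not_mPlanar_of_degree {W : Type} [Fintype W] [Nonempty W] {C : SimpleGraph W}
    (hC : MPlanar C) (h3 : ∀ a b c, C.Adj a b → C.Adj b c → C.Adj c a → False)
    (hd : ∀ x, 4 ≤ (C.neighborSet x).ncard) : False := by
  classical
  have hdeg : ∀ x, 4 ≤ C.degree x := by
    intro x
    have h1 := hd x
    rw [Set.ncard_eq_toFinset_card'] at h1
    rw [← SimpleGraph.card_neighborFinset_eq_degree]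
    convert h1 using 2
    ext z
    simp
  have hE : edgesIn C Finset.univ = C.edgeFinset.card := by
    rw [edgesIn_univ]
    congr 1
    ext e
    simp
  have hsum := C.sum_degrees_eq_twice_card_edges
  have hge : 4 * Fintype.card W ≤ ∑ v, C.degree v := by
    calc 4 * Fintype.card W = ∑ _v : W, 4 := by simp [mul_comm]
      _ ≤ _ := Finset.sum_le_sum (fun v _ => hdeg v)
  have hpos : 0 < Fintype.card W := Fintype.card_pos
  obtain ⟨k, B, hB, hnz, h2, -, hk⟩ := hC.normal_form (by rw [hE]; omega)
  have := card_mul_le hB h2 4 (fun i => (four_support (hB i) h3 (hnz i)).1)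
  rw [hE] at this hk
  omega

end Pool.Agent.PlCov
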