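import Pool.Agent.Lib.PlCov.CoreMinor
import Pool.Agent.Lib.PlCov.CoreCount

/-!
# Chunk C3: in a planar graph a component is consistent for at most one sector

Suppose `Cons G τ i x`, `Cons G τ j x`, `i ≠ j`, `x` of type w. Let `S` = set of the vertices `y` of type 2
or 3 with `¬ Bad G τ i y` and `¬ Bad G τ j y`; it contains a neighbour of `x` of type 2 (`Good`).
`S` is closed under labelled paths (`LPath.links` for both signs: if `(z, false) →* (z, true)` then
`(y, s) →* (z, false) →* (z, true) →* (y, !s)`; if `s = true` use the flip: `Link G τ i (p, s) (q, t)` implies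
`Link G τ i (p, !s) (q, !t)`). If `LPath a y z` and `LPath b y z` then `nu i a = nu i b` (else
`(z, false) →* (y, s) →* (z, true)` for `s = nu i a`) and `nu j a = nu j b`, so `a = b` (`decide`, as `i ≠ j`).
So each vertex of `S` has 4 different neighbours in `coreG G τ S` (`exists_lpath`, `exists_lpath'`), and
`coreG` is bipartite (types 2, 3), so it has no triangles. `MPlanar.minor` (`TFP.Minor`),
`coreG_isMinorOf` and `not_mPlanar_of_degree` give a contradiction.
-/

set_option autoImplicit false

namespace Pool.Agent.PlCov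

open Pool.Agent.TFP

private theorem c3_flip {V : Type} {G : SimpleGraph V} {τ : V → ℕ} {i : Fin 3} {p q : V × Bool}
    (h : Link G τ i p q) : Link G τ i (p.1, !p.2) (q.1, !q.2) := by
  cases h with
  | edge x y s hxy hx hy =>
    have h1 := Link.edge (i := i) x y (!s) hxy hx hy
    have e : xor (!s) (dl i (τ x) (τ y)) = !(xor s (dl i (τ x) (τ y))) := by
      cases s <;> simp
    rw [e] at h1
    exact h1
  | ww x y z s hx hy hz ty tz hyz =>
    exact Link.ww (i := i) x y z (!s) hx hy hz ty tz hyz

private theorem c3_flips {V : Type} {G : SimpleGraph V} {τ : V → ℕ} {i : Fin 3} {p q : V × Bool}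
    (h : Relation.ReflTransGen (Link G τ i) p q) :
    Relation.ReflTransGen (Link G τ i) (p.1, !p.2) (q.1, !q.2) := by
  induction h with
  | refl => exact Relation.ReflTransGen.refl
  | tail _ hl ih => exact Relation.ReflTransGen.tail ih (c3_flip hl)

private theorem c3_bad {V : Type} {G : SimpleGraph V} {τ : V → ℕ} {i : Fin 3} {y : V}
    (hb : Bad G τ i y) (t : Bool) : Relation.ReflTransGen (Link G τ i) (y, t) (y, !t) := by
  cases t with
  | false => exact hb
  | true => exact c3_flips hb

private theorem c3_up {V : Type} {G : SimpleGraph V} {τ : V → ℕ} {i : Fin 3} {a : ℕ} {y z : V}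
    (hl : LPath G τ a y z) (hb : Bad G τ i z) : Bad G τ i y := by
  have h1 := (hl.links i false).1
  have h2 := c3_bad hb (xor false (nu i a))
  have h3 := (hl.links i true).2
  have e : (!(xor false (nu i a))) = xor true (nu i a) := by simp
  rw [e] at h2
  exact (h1.trans h2).trans h3

private theorem c3_down {V : Type} {G : SimpleGraph V} {τ : V → ℕ} {i : Fin 3} {a : ℕ} {y z : V}
    (hl : LPath G τ a y z) (hb : Bad G τ i y) : Bad G τ i z := by
  have h1 := (hl.links i (nu i a)).2
  have h2 := c3_bad hb (nu i a)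
  have h3 := (hl.links i (!(nu i a))).1
  have e1 : xor (nu i a) (nu i a) = false := by simp
  have e2 : xor (!(nu i a)) (nu i a) = true := by simp
  rw [e1] at h1
  rw [e2] at h3
  exact (h1.trans h2).trans h3

private theorem c3_nu {V : Type} {G : SimpleGraph V} {τ : V → ℕ} {i : Fin 3} {a b : ℕ} {y z : V}
    (ha : LPath G τ a y z) (hb : LPath G τ b y z) (hn : ¬ Bad G τ i y) : nu i a = nu i b := by
  by_contra hne
  have h1 := (ha.links i false).1
  have h2 := (hb.links i true).2
  have e : xor true (nu i b) = xor false (nu i a) := by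
    revert hne
    cases nu i a <;> cases nu i b <;> simp
  rw [e] at h2
  exact hn (h1.trans h2)

private theorem c3_label {i j : Fin 3} (hij : i ≠ j) {a b : Fin 4} (h1 : nu i a = nu i b)
    (h2 : nu j a = nu j b) : a = b := by
  revert i j a b
  decide

theorem cons_unique {V : Type} [Fintype V] {G : SimpleGraph V} {τ : V → ℕ} (hG : MPlanar G)
    (h : Good G τ) {i j : Fin 3} {x : V} (hx : τ x = 1) (hi : Cons G τ i x) (hj : Cons G τ j x) :
    i = j := by
  classical
  by_contra hij
  let S : Set V := {y | (τ y = 2 ∨ τ y = 3) ∧ ¬ Bad G τ i y ∧ ¬ Bad G τ j y}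
  have hS : ∀ y ∈ S, τ y = 2 ∨ τ y = 3 := fun y hy => hy.1
  have hdn : ∀ a y z, LPath G τ a y z → y ∈ S → z ∈ S := by
    intro a y z hl hy
    exact ⟨Or.inr hl.types.2, fun hb => hy.2.1 (c3_up hl hb), fun hb => hy.2.2 (c3_up hl hb)⟩
  have hup : ∀ a y z, LPath G τ a y z → z ∈ S → y ∈ S := by
    intro a y z hl hz
    exact ⟨Or.inl hl.types.1, fun hb => hz.2.1 (c3_down hl hb), fun hb => hz.2.2 (c3_down hl hb)⟩
  have hne : Nonempty S := by
    have h1 := h.card x 2 (by norm_num)
    have h2 : ({y | G.Adj x y ∧ τ y = 2} : Set V).Nonempty := by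
      rw [Set.nonempty_iff_ne_empty]
      intro he
      rw [he, Set.ncard_empty, hx] at h1
      revert h1
      decide
    obtain ⟨y, hxy, hy⟩ := h2
    exact ⟨⟨y, Or.inl hy, hi y hxy hy, hj y hxy hy⟩⟩
  have hmin := coreG_isMinorOf h S hS
  have hC : MPlanar (coreG G τ S) := hG.minor hmin
  refine not_mPlanar_of_degree hC ?_ ?_
  · have key : ∀ a b : S, (coreG G τ S).Adj a b → (τ a.1 = 2 ∧ τ b.1 = 3) ∨ (τ a.1 = 3 ∧ τ b.1 = 2) := by
      rintro a b (⟨c, hl⟩ | ⟨c, hl⟩)
      · exact Or.inl hl.types
      · exact Or.inr ⟨hl.types.2, hl.types.1⟩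
    intro a b c hab hbc hca
    have h1 := key a b hab
    have h2 := key b c hbc
    have h3 := key c a hca
    omega
  · have cnt : ∀ (y : S) (g : Fin 4 → S), Function.Injective g →
        (∀ a, (coreG G τ S).Adj y (g a)) → 4 ≤ ((coreG G τ S).neighborSet y).ncard := by
      intro y g hg hadj
      have h1 : Set.range g ⊆ (coreG G τ S).neighborSet y := by
        rintro _ ⟨a, rfl⟩
        exact hadj a
      have h2 : (Set.range g).ncard = 4 := by
        rw [← Set.image_univ, Set.ncard_image_of_injective _ hg, Set.ncard_univ]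
        simp
      calc 4 = (Set.range g).ncard := h2.symm
        _ ≤ _ := Set.ncard_le_ncard h1 (Set.toFinite _)
    intro y
    rcases y.2.1 with hy | hy
    · have hex : ∀ a : Fin 4, ∃ z, LPath G τ a y.1 z := fun a => exists_lpath h a.2 hy
      choose z hz using hex
      refine cnt y (fun a => ⟨z a, hdn a _ _ (hz a) y.2⟩) ?_ (fun a => Or.inl ⟨a, hz a⟩)
      intro a b hab
      have hab' : z a = z b := congrArg Subtype.val hab
      have hb := hz b
      rw [← hab'] at hb
      exact c3_label hij (c3_nu (hz a) hb y.2.2.1) (c3_nu (hz a) hb y.2.2.2)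
    · have hex : ∀ a : Fin 4, ∃ z, LPath G τ a z y.1 := fun a => exists_lpath' h a.2 hy
      choose z hz using hex
      refine cnt y (fun a => ⟨z a, hup a _ _ (hz a) y.2⟩) ?_ (fun a => Or.inr ⟨a, hz a⟩)
      intro a b hab
      have hab' : z a = z b := congrArg Subtype.val hab
      have hb := hz b
      rw [← hab'] at hb
      have hm : z a ∈ S := hup a _ _ (hz a) y.2
      exact c3_label hij (c3_nu (hz a) hb hm.2.1) (c3_nu (hz a) hb hm.2.2)

end Pool.Agent.PlCov
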