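import Pool.Agent.Lib.PlCov.CorePath
import Pool.Agent.Lib.TFP.Defs

/-!
# Chunk C2: the core graph is a minor

The owner of a vertex of type 2 or 3 is the vertex itself; the owner of an inner vertex of a path (types 4..9) is
the end of type 2 of its path: for the types 4, 5, 7 its unique neighbour of type 2, for 6 the owner of its
neighbour of type 5, for 8 the owner of its neighbour of type 7, for 9 the owner of its neighbour of type 8.
`f x = some (owner x)` if the owner exists and is in `S`, else `none`. Fibre of a vertex `y` of type 2: `y` with the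
inner vertices of its paths: connected, since each of them is joined to `y` inside of the fibre. Fibre of a vertex of
type 3: a single vertex. If `LPath G τ a y z` then the last inner vertex of the path (or `y`) is in the fibre of
`y` and adjacent to `z`.
-/

set_option autoImplicit false

namespace Pool.Agent.PlCov

variable {V : Type}

/-- the graph on a set `S` of vertices of types 2, 3, joined by labelled paths -/
def coreG (G : SimpleGraph V) (τ : V → ℕ) (S : Set V) : SimpleGraph S where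
  Adj x y := (∃ a, LPath G τ a x.1 y.1) ∨ ∃ a, LPath G τ a y.1 x.1
  symm := ⟨fun _ _ h => h.symm⟩
  loopless := ⟨by
    rintro x (⟨a, h⟩ | ⟨a, h⟩)
    · have := h.types
      omega
    · have := h.types
      omega⟩

open Classical in
/-- the neighbour of type `t` -/
private noncomputable def c2nb (G : SimpleGraph V) (τ : V → ℕ) (x : V) (t : ℕ) : V :=
  if h : ∃ y, G.Adj x y ∧ τ y = t then h.choose else x

private theorem c2nb_spec {G : SimpleGraph V} {τ : V → ℕ} (h : Good G τ) {x : V} {s t : ℕ}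
    (hx : τ x = s) (ht : t < 10) (hm : mat s t = 1) :
    G.Adj x (c2nb G τ x t) ∧ τ (c2nb G τ x t) = t := by
  subst hx
  have h1 := h.card x t ht
  rw [hm, Set.ncard_eq_one] at h1
  obtain ⟨y, hy⟩ := h1
  have h2 : y ∈ ({y | G.Adj x y ∧ τ y = t} : Set V) := by
    rw [hy]; exact Set.mem_singleton y
  have h3 : ∃ y, G.Adj x y ∧ τ y = t := ⟨y, h2⟩
  unfold c2nb
  rw [dif_pos h3]
  exact h3.choose_spec

private theorem c2nb_eq {G : SimpleGraph V} {τ : V → ℕ} (h : Good G τ) {x y : V} {s t : ℕ}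
    (hx : τ x = s) (ht : t < 10) (hm : mat s t = 1) (hxy : G.Adj x y) (hy : τ y = t) :
    c2nb G τ x t = y := by
  have h0 := c2nb_spec h hx ht hm
  subst hx
  have h1 := h.card x t ht
  rw [hm, Set.ncard_eq_one] at h1
  obtain ⟨z, hz⟩ := h1
  have h2 : y ∈ ({y | G.Adj x y ∧ τ y = t} : Set V) := ⟨hxy, hy⟩
  have h3 : c2nb G τ x t ∈ ({y | G.Adj x y ∧ τ y = t} : Set V) := h0
  rw [hz] at h2 h3
  rw [Set.mem_singleton_iff] at h2 h3
  rw [h2, h3]

/-- the owner of a vertex -/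
private noncomputable def c2own (G : SimpleGraph V) (τ : V → ℕ) (x : V) : V :=
  match τ x with
  | 4 => c2nb G τ x 2
  | 5 => c2nb G τ x 2
  | 7 => c2nb G τ x 2
  | 6 => c2nb G τ (c2nb G τ x 5) 2
  | 8 => c2nb G τ (c2nb G τ x 7) 2
  | 9 => c2nb G τ (c2nb G τ (c2nb G τ x 8) 7) 2
  | _ => x

private theorem c2own_self {G : SimpleGraph V} {τ : V → ℕ} {x : V} (hx : τ x = 2 ∨ τ x = 3) :
    c2own G τ x = x := by
  rcases hx with hx | hx <;> simp [c2own, hx]

private theorem c2own_nb {G : SimpleGraph V} {τ : V → ℕ} {x : V}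
    (hx : τ x = 4 ∨ τ x = 5 ∨ τ x = 7) : c2own G τ x = c2nb G τ x 2 := by
  rcases hx with hx | hx | hx <;> simp [c2own, hx]

private theorem c2own_6 {G : SimpleGraph V} {τ : V → ℕ} (h : Good G τ) {x : V}
    (hx : τ x = 6) : c2own G τ x = c2own G τ (c2nb G τ x 5) := by
  have h1 := c2nb_spec h hx (t := 5) (by norm_num) rfl
  rw [c2own_nb (x := c2nb G τ x 5) (Or.inr (Or.inl h1.2))]
  simp [c2own, hx]

private theorem c2own_8 {G : SimpleGraph V} {τ : V → ℕ} (h : Good G τ) {x : V}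
    (hx : τ x = 8) : c2own G τ x = c2own G τ (c2nb G τ x 7) := by
  have h1 := c2nb_spec h hx (t := 7) (by norm_num) rfl
  rw [c2own_nb (x := c2nb G τ x 7) (Or.inr (Or.inr h1.2))]
  simp [c2own, hx]

private theorem c2own_9 {G : SimpleGraph V} {τ : V → ℕ} (h : Good G τ) {x : V}
    (hx : τ x = 9) : c2own G τ x = c2own G τ (c2nb G τ x 8) := by
  have h1 := c2nb_spec h hx (t := 8) (by norm_num) rfl
  simp [c2own, hx, h1.2]

/-- the fibre of a vertex -/
private def c2fib (G : SimpleGraph V) (τ : V → ℕ) (w : V) : Set V :=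
  {x | 2 ≤ τ x ∧ c2own G τ x = w}

private theorem c2_conn {G : SimpleGraph V} {τ : V → ℕ} (h : Good G τ) {w : V}
    (hw : τ w = 2 ∨ τ w = 3) : (G.induce (c2fib G τ w)).Connected := by
  have hwm : w ∈ c2fib G τ w := ⟨by omega, c2own_self hw⟩
  have step : ∀ x y (hx : x ∈ c2fib G τ w) (hy : y ∈ c2fib G τ w), G.Adj x y →
      (G.induce (c2fib G τ w)).Reachable ⟨x, hx⟩ ⟨y, hy⟩ := by
    intro x y hx hy hxy
    exact SimpleGraph.Adj.reachable (show (G.induce (c2fib G τ w)).Adj ⟨x, hx⟩ ⟨y, hy⟩ from hxy)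
  -- types 4, 5, 7
  have r1 : ∀ x (hx : x ∈ c2fib G τ w), (τ x = 4 ∨ τ x = 5 ∨ τ x = 7) →
      (G.induce (c2fib G τ w)).Reachable ⟨x, hx⟩ ⟨w, hwm⟩ := by
    intro x hx ht
    have h1 : G.Adj x (c2nb G τ x 2) := by
      rcases ht with ht | ht | ht
      · exact (c2nb_spec h ht (by norm_num) rfl).1
      · exact (c2nb_spec h ht (by norm_num) rfl).1
      · exact (c2nb_spec h ht (by norm_num) rfl).1
    have h2 := hx.2
    rw [c2own_nb ht] at h2
    exact step x w hx hwm (h2 ▸ h1)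
  have r6 : ∀ x (hx : x ∈ c2fib G τ w), τ x = 6 →
      (G.induce (c2fib G τ w)).Reachable ⟨x, hx⟩ ⟨w, hwm⟩ := by
    intro x hx ht
    have h1 := c2nb_spec h ht (t := 5) (by norm_num) rfl
    have h2 : c2nb G τ x 5 ∈ c2fib G τ w := ⟨by omega, by rw [← c2own_6 h ht]; exact hx.2⟩
    exact (step x _ hx h2 h1.1).trans (r1 _ h2 (Or.inr (Or.inl h1.2)))
  have r8 : ∀ x (hx : x ∈ c2fib G τ w), τ x = 8 →
      (G.induce (c2fib G τ w)).Reachable ⟨x, hx⟩ ⟨w, hwm⟩ := by
    intro x hx ht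
    have h1 := c2nb_spec h ht (t := 7) (by norm_num) rfl
    have h2 : c2nb G τ x 7 ∈ c2fib G τ w := ⟨by omega, by rw [← c2own_8 h ht]; exact hx.2⟩
    exact (step x _ hx h2 h1.1).trans (r1 _ h2 (Or.inr (Or.inr h1.2)))
  have r9 : ∀ x (hx : x ∈ c2fib G τ w), τ x = 9 →
      (G.induce (c2fib G τ w)).Reachable ⟨x, hx⟩ ⟨w, hwm⟩ := by
    intro x hx ht
    have h1 := c2nb_spec h ht (t := 8) (by norm_num) rfl
    have h2 : c2nb G τ x 8 ∈ c2fib G τ w := ⟨by omega, by rw [← c2own_9 h ht]; exact hx.2⟩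
    exact (step x _ hx h2 h1.1).trans (r8 _ h2 h1.2)
  have r : ∀ x (hx : x ∈ c2fib G τ w),
      (G.induce (c2fib G τ w)).Reachable ⟨x, hx⟩ ⟨w, hwm⟩ := by
    intro x hx
    have hlt := h.lt x
    have h2 := hx.1
    have hcases : (τ x = 2 ∨ τ x = 3) ∨ (τ x = 4 ∨ τ x = 5 ∨ τ x = 7) ∨ τ x = 6 ∨ τ x = 8 ∨
        τ x = 9 := by omega
    rcases hcases with hc | hc | hc | hc | hc
    · have h3 := hx.2
      rw [c2own_self hc] at h3
      subst h3
      exact SimpleGraph.Reachable.refl _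
    · exact r1 x hx hc
    · exact r6 x hx hc
    · exact r8 x hx hc
    · exact r9 x hx hc
  have : Nonempty (c2fib G τ w) := ⟨⟨w, hwm⟩⟩
  refine SimpleGraph.Connected.mk ?_
  rintro ⟨x, hx⟩ ⟨y, hy⟩
  exact (r x hx).trans (r y hy).symm

private theorem c2_edge {G : SimpleGraph V} {τ : V → ℕ} (h : Good G τ) {a : ℕ} {y z : V}
    (hl : LPath G τ a y z) :
    ∃ v, v ∈ c2fib G τ y ∧ z ∈ c2fib G τ z ∧ G.Adj v z := by
  have hz : z ∈ c2fib G τ z := ⟨by have := hl.types; omega, c2own_self (Or.inr hl.types.2)⟩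
  cases hl with
  | l0 y z hy hz' h1 => exact ⟨y, ⟨by omega, c2own_self (Or.inl hy)⟩, hz, h1⟩
  | l1 y p z hy hp hz' h1 h2 =>
    refine ⟨p, ⟨by omega, ?_⟩, hz, h2⟩
    rw [c2own_nb (Or.inl hp)]
    exact c2nb_eq h hp (by norm_num) rfl h1.symm hy
  | l2 y p q z hy hp hq hz' h1 h2 h3 =>
    refine ⟨q, ⟨by omega, ?_⟩, hz, h3⟩
    rw [c2own_6 h hq, c2nb_eq h hq (by norm_num) rfl h2.symm hp, c2own_nb (Or.inr (Or.inl hp))]
    exact c2nb_eq h hp (by norm_num) rfl h1.symm hy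
  | l3 y p q r z hy hp hq hr hz' h1 h2 h3 h4 =>
    refine ⟨r, ⟨by omega, ?_⟩, hz, h4⟩
    rw [c2own_9 h hr, c2nb_eq h hr (by norm_num) rfl h3.symm hq,
      c2own_8 h hq, c2nb_eq h hq (by norm_num) rfl h2.symm hp, c2own_nb (Or.inr (Or.inr hp))]
    exact c2nb_eq h hp (by norm_num) rfl h1.symm hy

theorem coreG_isMinorOf [Finite V] {G : SimpleGraph V} {τ : V → ℕ} (h : Good G τ) (S : Set V)
    (hS : ∀ x ∈ S, τ x = 2 ∨ τ x = 3) : TFP.IsMinorOf (coreG G τ S) G := by
  classical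
  let f : V → Option S := fun x =>
    if hx : 2 ≤ τ x ∧ c2own G τ x ∈ S then some ⟨c2own G τ x, hx.2⟩ else none
  have hf : ∀ (w : S) (x : V), f x = some w ↔ x ∈ c2fib G τ w.1 := by
    intro w x
    constructor
    · intro hx
      by_cases hc : 2 ≤ τ x ∧ c2own G τ x ∈ S
      · simp only [f, dif_pos hc, Option.some.injEq] at hx
        exact ⟨hc.1, by rw [← hx]⟩
      · simp [f, dif_neg hc] at hx
    · intro hx
      have hc : 2 ≤ τ x ∧ c2own G τ x ∈ S := ⟨hx.1, by rw [hx.2]; exact w.2⟩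
      simp only [f, dif_pos hc, Option.some.injEq]
      exact Subtype.ext hx.2
  refine ⟨f, ?_, ?_⟩
  · intro w
    have : {v | f v = some w} = c2fib G τ w.1 := by
      ext x
      exact hf w x
    rw [this]
    exact c2_conn h (hS w.1 w.2)
  · rintro x y (⟨a, hl⟩ | ⟨a, hl⟩)
    · obtain ⟨v, hv, hz, hadj⟩ := c2_edge h hl
      exact ⟨v, y.1, (hf x v).2 hv, (hf y y.1).2 hz, hadj⟩
    · obtain ⟨v, hv, hz, hadj⟩ := c2_edge h hl
      exact ⟨x.1, v, (hf x x.1).2 hz, (hf y v).2 hv, hadj.symm⟩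

end Pool.Agent.PlCov
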