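import Pool.Agent.Lib.PlCov.Base

/-!
# Chunk C1: labelled paths

`LPath G τ a y z`: the path with the label `a` (0, 1, 2, 3, length `a + 1`) from `y` (type 2) to `z` (type 3).
Existence of paths from each vertex of type 2 and from each vertex of type 3: `Good` (`ncard = 1` gives the
neighbours of the needed types). Links: each edge of the path is a link, and only the last one changes the sign.
-/

set_option autoImplicit false

namespace Pool.Agent.PlCov

variable {V : Type}

/-- the path with label `a` from `y` to `z` -/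
inductive LPath (G : SimpleGraph V) (τ : V → ℕ) : ℕ → V → V → Prop
  | l0 (y z : V) (hy : τ y = 2) (hz : τ z = 3) (h1 : G.Adj y z) : LPath G τ 0 y z
  | l1 (y p z : V) (hy : τ y = 2) (hp : τ p = 4) (hz : τ z = 3) (h1 : G.Adj y p) (h2 : G.Adj p z) :
      LPath G τ 1 y z
  | l2 (y p q z : V) (hy : τ y = 2) (hp : τ p = 5) (hq : τ q = 6) (hz : τ z = 3) (h1 : G.Adj y p)
      (h2 : G.Adj p q) (h3 : G.Adj q z) : LPath G τ 2 y z
  | l3 (y p q r z : V) (hy : τ y = 2) (hp : τ p = 7) (hq : τ q = 8) (hr : τ r = 9) (hz : τ z = 3)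
      (h1 : G.Adj y p) (h2 : G.Adj p q) (h3 : G.Adj q r) (h4 : G.Adj r z) : LPath G τ 3 y z

theorem LPath.types {G : SimpleGraph V} {τ : V → ℕ} {a : ℕ} {y z : V} (h : LPath G τ a y z) :
    τ y = 2 ∧ τ z = 3 := by
  cases h <;> exact ⟨by assumption, by assumption⟩

private theorem c1_nb {G : SimpleGraph V} {τ : V → ℕ} (h : Good G τ) (x : V) (t : ℕ) (ht : t < 10)
    (hm : mat (τ x) t = 1) : ∃ y, G.Adj x y ∧ τ y = t := by
  have h1 := h.card x t ht
  rw [hm, Set.ncard_eq_one] at h1
  obtain ⟨y, hy⟩ := h1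
  have : y ∈ ({y | G.Adj x y ∧ τ y = t} : Set V) := by
    rw [hy]; exact Set.mem_singleton y
  exact ⟨y, this⟩

theorem exists_lpath {G : SimpleGraph V} {τ : V → ℕ} (h : Good G τ) {a : ℕ} (ha : a < 4) {y : V}
    (hy : τ y = 2) : ∃ z, LPath G τ a y z := by
  match a, ha with
  | 0, _ =>
    obtain ⟨z, h1, hz⟩ := c1_nb h y 3 (by norm_num) (by rw [hy]; rfl)
    exact ⟨z, LPath.l0 y z hy hz h1⟩
  | 1, _ =>
    obtain ⟨p, h1, hp⟩ := c1_nb h y 4 (by norm_num) (by rw [hy]; rfl)
    obtain ⟨z, h2, hz⟩ := c1_nb h p 3 (by norm_num) (by rw [hp]; rfl)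
    exact ⟨z, LPath.l1 y p z hy hp hz h1 h2⟩
  | 2, _ =>
    obtain ⟨p, h1, hp⟩ := c1_nb h y 5 (by norm_num) (by rw [hy]; rfl)
    obtain ⟨q, h2, hq⟩ := c1_nb h p 6 (by norm_num) (by rw [hp]; rfl)
    obtain ⟨z, h3, hz⟩ := c1_nb h q 3 (by norm_num) (by rw [hq]; rfl)
    exact ⟨z, LPath.l2 y p q z hy hp hq hz h1 h2 h3⟩
  | 3, _ =>
    obtain ⟨p, h1, hp⟩ := c1_nb h y 7 (by norm_num) (by rw [hy]; rfl)
    obtain ⟨q, h2, hq⟩ := c1_nb h p 8 (by norm_num) (by rw [hp]; rfl)
    obtain ⟨r, h3, hr⟩ := c1_nb h q 9 (by norm_num) (by rw [hq]; rfl)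
    obtain ⟨z, h4, hz⟩ := c1_nb h r 3 (by norm_num) (by rw [hr]; rfl)
    exact ⟨z, LPath.l3 y p q r z hy hp hq hr hz h1 h2 h3 h4⟩
  | n + 4, ha => exact absurd ha (by omega)

theorem exists_lpath' {G : SimpleGraph V} {τ : V → ℕ} (h : Good G τ) {a : ℕ} (ha : a < 4) {z : V}
    (hz : τ z = 3) : ∃ y, LPath G τ a y z := by
  match a, ha with
  | 0, _ =>
    obtain ⟨y, h1, hy⟩ := c1_nb h z 2 (by norm_num) (by rw [hz]; rfl)
    exact ⟨y, LPath.l0 y z hy hz h1.symm⟩
  | 1, _ =>
    obtain ⟨p, h2, hp⟩ := c1_nb h z 4 (by norm_num) (by rw [hz]; rfl)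
    obtain ⟨y, h1, hy⟩ := c1_nb h p 2 (by norm_num) (by rw [hp]; rfl)
    exact ⟨y, LPath.l1 y p z hy hp hz h1.symm h2.symm⟩
  | 2, _ =>
    obtain ⟨q, h3, hq⟩ := c1_nb h z 6 (by norm_num) (by rw [hz]; rfl)
    obtain ⟨p, h2, hp⟩ := c1_nb h q 5 (by norm_num) (by rw [hq]; rfl)
    obtain ⟨y, h1, hy⟩ := c1_nb h p 2 (by norm_num) (by rw [hp]; rfl)
    exact ⟨y, LPath.l2 y p q z hy hp hq hz h1.symm h2.symm h3.symm⟩
  | 3, _ =>
    obtain ⟨r, h4, hr⟩ := c1_nb h z 9 (by norm_num) (by rw [hz]; rfl)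
    obtain ⟨q, h3, hq⟩ := c1_nb h r 8 (by norm_num) (by rw [hr]; rfl)
    obtain ⟨p, h2, hp⟩ := c1_nb h q 7 (by norm_num) (by rw [hq]; rfl)
    obtain ⟨y, h1, hy⟩ := c1_nb h p 2 (by norm_num) (by rw [hp]; rfl)
    exact ⟨y, LPath.l3 y p q r z hy hp hq hr hz h1.symm h2.symm h3.symm h4.symm⟩
  | n + 4, ha => exact absurd ha (by omega)

private theorem c1_edge {G : SimpleGraph V} {τ : V → ℕ} (i : Fin 3) {x y : V} (hxy : G.Adj x y)
    {a b : ℕ} (ha : τ x = a) (hb : τ y = b) (ha2 : 2 ≤ a) (hb2 : 2 ≤ b) (s t : Bool)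
    (ht : t = xor s (dl i a b)) : Link G τ i (x, s) (y, t) := by
  subst ha hb ht
  exact Link.edge x y s hxy ha2 hb2

theorem LPath.links {G : SimpleGraph V} {τ : V → ℕ} {a : ℕ} {y z : V} (h : LPath G τ a y z)
    (i : Fin 3) (s : Bool) :
    Relation.ReflTransGen (Link G τ i) (y, s) (z, xor s (nu i a)) ∧
      Relation.ReflTransGen (Link G τ i) (z, xor s (nu i a)) (y, s) := by
  cases h with
  | l0 y z hy hz h1 =>
    constructor
    · exact Relation.ReflTransGen.single (c1_edge i h1 hy hz (by norm_num) (by norm_num) _ _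
        (by fin_cases i <;> cases s <;> rfl))
    · exact Relation.ReflTransGen.single (c1_edge i h1.symm hz hy (by norm_num) (by norm_num) _ _
        (by fin_cases i <;> cases s <;> rfl))
  | l1 y p z hy hp hz h1 h2 =>
    constructor
    · exact Relation.ReflTransGen.head (c1_edge i h1 hy hp (by norm_num) (by norm_num) s s
        (by fin_cases i <;> cases s <;> rfl))
        (Relation.ReflTransGen.single (c1_edge i h2 hp hz (by norm_num) (by norm_num) _ _
        (by fin_cases i <;> cases s <;> rfl)))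
    · exact Relation.ReflTransGen.head (c1_edge i h2.symm hz hp (by norm_num) (by norm_num) _ s
        (by fin_cases i <;> cases s <;> rfl))
        (Relation.ReflTransGen.single (c1_edge i h1.symm hp hy (by norm_num) (by norm_num) _ _
        (by fin_cases i <;> cases s <;> rfl)))
  | l2 y p q z hy hp hq hz h1 h2 h3 =>
    constructor
    · exact Relation.ReflTransGen.head (c1_edge i h1 hy hp (by norm_num) (by norm_num) s s
        (by fin_cases i <;> cases s <;> rfl))
        (Relation.ReflTransGen.head (c1_edge i h2 hp hq (by norm_num) (by norm_num) s s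
        (by fin_cases i <;> cases s <;> rfl))
        (Relation.ReflTransGen.single (c1_edge i h3 hq hz (by norm_num) (by norm_num) _ _
        (by fin_cases i <;> cases s <;> rfl))))
    · exact Relation.ReflTransGen.head (c1_edge i h3.symm hz hq (by norm_num) (by norm_num) _ s
        (by fin_cases i <;> cases s <;> rfl))
        (Relation.ReflTransGen.head (c1_edge i h2.symm hq hp (by norm_num) (by norm_num) s s
        (by fin_cases i <;> cases s <;> rfl))
        (Relation.ReflTransGen.single (c1_edge i h1.symm hp hy (by norm_num) (by norm_num) _ _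
        (by fin_cases i <;> cases s <;> rfl))))
  | l3 y p q r z hy hp hq hr hz h1 h2 h3 h4 =>
    constructor
    · exact Relation.ReflTransGen.head (c1_edge i h1 hy hp (by norm_num) (by norm_num) s s
        (by fin_cases i <;> cases s <;> rfl))
        (Relation.ReflTransGen.head (c1_edge i h2 hp hq (by norm_num) (by norm_num) s s
        (by fin_cases i <;> cases s <;> rfl))
        (Relation.ReflTransGen.head (c1_edge i h3 hq hr (by norm_num) (by norm_num) s s
        (by fin_cases i <;> cases s <;> rfl))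
        (Relation.ReflTransGen.single (c1_edge i h4 hr hz (by norm_num) (by norm_num) _ _
        (by fin_cases i <;> cases s <;> rfl)))))
    · exact Relation.ReflTransGen.head (c1_edge i h4.symm hz hr (by norm_num) (by norm_num) _ s
        (by fin_cases i <;> cases s <;> rfl))
        (Relation.ReflTransGen.head (c1_edge i h3.symm hr hq (by norm_num) (by norm_num) s s
        (by fin_cases i <;> cases s <;> rfl))
        (Relation.ReflTransGen.head (c1_edge i h2.symm hq hp (by norm_num) (by norm_num) s s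
        (by fin_cases i <;> cases s <;> rfl))
        (Relation.ReflTransGen.single (c1_edge i h1.symm hp hy (by norm_num) (by norm_num) _ _
        (by fin_cases i <;> cases s <;> rfl)))))

end Pool.Agent.PlCov
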