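import Pool.Agent.Lib.TFP.Minor
import Pool.Agent.Lib.TFP.Euler

/-!
# Chunk M1: upper bound for the dimension of the cycle space

`dim cycleSpace G + V ≤ E + c`, `c` = number of connected components. The cycle space is (isomorphic to) the kernel of
the boundary map from the functions on the edges (dimension `E = edgesIn G univ`) to `V → ZMod 2`, whose range has
dimension at least `V - c`: it contains `Pi.single u 1 + Pi.single v 1` for adjacent `u, v`, so for all `u, v` in the
same component; so together with the `c` functions `Pi.single (r q) 1` (`r q` a representative of the component `q`)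
it spans everything. (Compare `finrank_cycleSpace` in `TFP.Euler`, the lower bound for which the same maps are used.)
-/

set_option autoImplicit false

namespace Pool.Agent.PlCov

open Pool.Agent.TFP

theorem finrank_cycleSpace_le {V : Type} [Fintype V] (G : SimpleGraph V) :
    Module.finrank (ZMod 2) (cycleSpace G) + Fintype.card V ≤
      edgesIn G Finset.univ + Nat.card G.ConnectedComponent := by
  classical
  let E := {e : Sym2 V // e ∈ G.edgeSet}
  let ext : (E → ZMod 2) →ₗ[ZMod 2] (Sym2 V → ZMod 2) :=
    Function.ExtendByZero.linearMap (ZMod 2) (Subtype.val : E → Sym2 V)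
  have hext1 : ∀ (F : E → ZMod 2) (e : E), ext F e.1 = F e := by
    intro F e
    exact Function.Injective.extend_apply Subtype.val_injective _ _ _
  have hext2 : ∀ (F : E → ZMod 2) (e : Sym2 V), e ∉ G.edgeSet → ext F e = 0 := by
    intro F e he
    refine Function.extend_apply' _ _ _ ?_
    rintro ⟨a, ha⟩
    exact he (ha ▸ a.2)
  have hinj : Function.Injective ext := by
    intro a b hab
    funext e
    rw [← hext1 a e, ← hext1 b e, hab]
  let D : (E → ZMod 2) →ₗ[ZMod 2] (V → ZMod 2) := bdry.comp ext
  -- the cycle space is the kernel
  have h4 : cycleSpace G ≤ (LinearMap.ker D).map ext := by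
    intro F hF
    have h0 : ext (fun e : E => F e.1) = F := by
      funext e
      by_cases he : e ∈ G.edgeSet
      · exact hext1 _ ⟨e, he⟩
      · rw [hext2 _ e he]
        by_contra h
        exact he (hF.1 e (Ne.symm h))
    refine ⟨fun e : E => F e.1, ?_, h0⟩
    show bdry (ext fun e : E => F e.1) = 0
    rw [h0]
    funext v
    exact hF.2 v
  have h5 := Submodule.finrank_mono h4
  rw [LinearEquiv.finrank_eq (Submodule.equivMapOfInjective ext hinj _).symm] at h5
  have h6 : Fintype.card E = edgesIn G Finset.univ := by
    rw [edgesIn_univ, Fintype.card_subtype]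
  have h2 := LinearMap.finrank_range_add_finrank_ker D
  rw [Module.finrank_fintype_fun_eq_card, h6] at h2
  -- the range
  have hadj : ∀ a b : V, G.Adj a b →
      (Pi.single a 1 + Pi.single b 1 : V → ZMod 2) ∈ LinearMap.range D := by
    intro a b hab
    refine ⟨Pi.single ⟨s(a, b), hab⟩ 1, ?_⟩
    have h0 : ext (Pi.single ⟨s(a, b), hab⟩ 1) = Pi.single s(a, b) 1 := by
      funext e
      by_cases he : e ∈ G.edgeSet
      · rw [hext1 _ ⟨e, he⟩]
        by_cases h1 : e = s(a, b)
        · subst h1
          simp
        · rw [Pi.single_eq_of_ne h1, Pi.single_eq_of_ne]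
          intro h3
          exact h1 (congrArg Subtype.val h3)
      · rw [hext2 _ e he, Pi.single_eq_of_ne]
        rintro rfl
        exact he hab
    show bdry (ext (Pi.single ⟨s(a, b), hab⟩ 1)) = _
    rw [h0]
    funext v
    show ∑ u, (Pi.single s(a, b) 1 : Sym2 V → ZMod 2) s(v, u) = _
    rw [bdry_single hab.ne]
    simp only [Pi.add_apply, Pi.single_apply]
  have htwo : ∀ f : V → ZMod 2, f + f = 0 := by
    intro f
    funext v
    exact CharTwo.add_self_eq_zero _
  have hreach : ∀ a b : V, G.Reachable a b →
      (Pi.single a 1 + Pi.single b 1 : V → ZMod 2) ∈ LinearMap.range D := by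
    intro a b hab
    rw [SimpleGraph.reachable_iff_reflTransGen] at hab
    induction hab with
    | refl =>
      rw [htwo]
      exact Submodule.zero_mem _
    | @tail b c _ hbc ih =>
      have h0 := Submodule.add_mem _ ih (hadj b c hbc)
      have h1 : (Pi.single a 1 + Pi.single b 1 + (Pi.single b 1 + Pi.single c 1) : V → ZMod 2) =
          Pi.single a 1 + Pi.single c 1 := by
        have h3 := htwo (Pi.single b 1)
        calc (Pi.single a 1 + Pi.single b 1 + (Pi.single b 1 + Pi.single c 1) : V → ZMod 2)
            = Pi.single a 1 + (Pi.single b 1 + Pi.single b 1) + Pi.single c 1 := by abel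
          _ = _ := by rw [h3, add_zero]
      rw [h1] at h0
      exact h0
  let T : G.ConnectedComponent → V → ZMod 2 := fun q => Pi.single q.out 1
  have htop : LinearMap.range D ⊔ Submodule.span (ZMod 2) (Set.range T) = ⊤ := by
    rw [eq_top_iff]
    intro f _
    have hf : f = ∑ v, f v • (Pi.single v 1 : V → ZMod 2) := by
      funext u
      rw [Finset.sum_apply]
      simp [Pi.single_apply]
    rw [hf]
    refine Submodule.sum_mem _ fun v _ => Submodule.smul_mem _ _ ?_
    have h1 : G.Reachable v (G.connectedComponentMk v).out := by
      refine SimpleGraph.ConnectedComponent.exact ?_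
      exact (Quot.out_eq (G.connectedComponentMk v)).symm
    have h3 : (Pi.single v 1 : V → ZMod 2) = (Pi.single v 1 +
        Pi.single (G.connectedComponentMk v).out 1) + T (G.connectedComponentMk v) := by
      show (Pi.single v 1 : V → ZMod 2) = (Pi.single v 1 +
        Pi.single (G.connectedComponentMk v).out 1) + Pi.single (G.connectedComponentMk v).out 1
      rw [add_assoc, htwo, add_zero]
    rw [h3]
    refine Submodule.add_mem _ (Submodule.mem_sup_left (hreach _ _ h1)) (Submodule.mem_sup_right ?_)
    exact Submodule.subset_span ⟨_, rfl⟩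
  have : Fintype G.ConnectedComponent := Fintype.ofFinite _
  have h7 : Module.finrank (ZMod 2) (Submodule.span (ZMod 2) (Set.range T)) ≤
      Nat.card G.ConnectedComponent := by
    rw [Nat.card_eq_fintype_card]
    exact finrank_range_le_card T
  have h8 := Submodule.finrank_add_le_finrank_add_finrank (LinearMap.range D)
    (Submodule.span (ZMod 2) (Set.range T))
  rw [htop, finrank_top, Module.finrank_fintype_fun_eq_card] at h8
  omega

end Pool.Agent.PlCov
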