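import Pool.Agent.Lib.CookLevin.Planar
import Pool.Agent.Lib.CookLevin.Defs
import Pool.Agent.Lib.OOD.Encode

/-!
# Planar inputs and graph covers (MP_b84816_lc): definitions

* `LocBij`, `Covers`: locally bijective homomorphisms, covers;
* `CoverLang H`, `PlanarCoverLang H`: the languages COVER(H), PLANARCOVER(H);
* `HasPlanarCover H`; `InP`; `PeqNP`;
* `HV`, `H`: the graph with 52 vertices.

Words, `InNP`, `NPHard`, `NPComplete` are in `CookLevin.Defs`; `IsPlanar` (rotation systems of genus
zero) in `CookLevin.Planar`; `encodeGraph` in `OOD.Encode`.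
-/

set_option autoImplicit false

namespace Pool.Agent.PlCov

open Pool.Agent.Lib.CookLevin Pool.Agent.OOD Turing

/-- `f` is a locally bijective homomorphism: a homomorphism whose restriction to each closed
neighbourhood is a bijection onto the closed neighbourhood of the image. -/
def LocBij {V W : Type} (G : SimpleGraph V) (K : SimpleGraph W) (f : V → W) : Prop :=
  (∀ x y, G.Adj x y → K.Adj (f x) (f y)) ∧
    ∀ x, Set.BijOn f (insert x (G.neighborSet x)) (insert (f x) (K.neighborSet (f x)))

/-- `G` covers `K`. -/
def Covers {V W : Type} (G : SimpleGraph V) (K : SimpleGraph W) : Prop :=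
  ∃ f : V → W, LocBij G K f

/-- COVER(K): the words of the graphs which cover `K`. -/
def CoverLang {W : Type} (K : SimpleGraph W) (x : Word) : Prop :=
  ∃ G : (Σ n, SimpleGraph (Fin n)), x = encodeGraph G ∧ Covers G.2 K

/-- PLANARCOVER(K): the words of the planar graphs which cover `K`. -/
def PlanarCoverLang {W : Type} (K : SimpleGraph W) (x : Word) : Prop :=
  ∃ G : (Σ n, SimpleGraph (Fin n)), x = encodeGraph G ∧ IsPlanar G.2 ∧ Covers G.2 K

/-- Some (nonempty, finite) planar graph covers `K`. -/
def HasPlanarCover {W : Type} (K : SimpleGraph W) : Prop :=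
  ∃ G : (Σ n, SimpleGraph (Fin n)), 0 < G.1 ∧ IsPlanar G.2 ∧ Covers G.2 K

/-- The class P: languages decided by a Turing machine in polynomial time. -/
def InP (L : Word → Prop) : Prop :=
  ∃ R : Word → Bool, Nonempty (TM2ComputableInPolyTime (id : Word → List Bool)
    Computability.encodeBool R) ∧ ∀ x, L x ↔ R x = true

/-- P = NP -/
def PeqNP : Prop := ∀ L : Word → Prop, InNP L → InP L

/-! ### The graph `H` -/

/-- The three partitions of the labels `0, 1, 2, 3` into two pairs: `nu i j` for a sector `i < 3` and
a label `j < 4`. -/
def nu (i j : ℕ) : Bool :=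
  (([[false, false, true, true], [false, true, true, false], [false, true, false, true]] :
    List (List Bool)).getD i []).getD j false

/-- The vertices of `H`: the hub `P`; for each sector `i` the vertices `w i`, `u i s`, `v i s` and the
inner vertices `m i s c` of the paths which start at `u i s`: `c = 0` for the path of length two,
`c = 1, 2` for the path of length three, `c = 3, 4, 5` for the path of length four. -/
inductive HV : Type
  | P : HV
  | w (i : Fin 3) : HV
  | u (i : Fin 3) (s : Bool) : HV
  | v (i : Fin 3) (s : Bool) : HV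
  | m (i : Fin 3) (s : Bool) (c : Fin 6) : HV
  deriving DecidableEq, Fintype

/-- The edges of `H`, each in one direction: `P` is adjacent to the `w i`, `w i` to the `u i s`, and
for each label `j = 0, 1, 2, 3` there is a path of length `j + 1` from `u i s` to
`v i (s + nu i j)` (note that `nu i 0 = 0`). -/
def hrel : HV → HV → Bool
  | .P, .w _ => true
  | .w i, .u j _ => decide (i = j)
  | .u i s, .v j t => decide (i = j) && decide (s = t)
  | .u i s, .m j t c => decide (i = j) && decide (s = t) &&
      (decide (c = 0) || decide (c = 1) || decide (c = 3))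
  | .m i s c, .m j t d => decide (i = j) && decide (s = t) &&
      (decide (c = 1 ∧ d = 2) || decide (c = 3 ∧ d = 4) || decide (c = 4 ∧ d = 5))
  | .m i s c, .v j t => decide (i = j) &&
      (decide (c = 0 ∧ t = xor s (nu i 1)) || decide (c = 2 ∧ t = xor s (nu i 2)) ||
        decide (c = 5 ∧ t = xor s (nu i 3)))
  | _, _ => false

/-- The graph `H`. -/
def H : SimpleGraph HV where
  Adj x y := hrel x y = true ∨ hrel y x = true
  symm := ⟨fun _ _ h => h.symm⟩
  loopless := ⟨by
    rintro (_ | i | ⟨i, s⟩ | ⟨i, s⟩ | ⟨i, s, c⟩) h
    · simp [hrel] at h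
    · simp [hrel] at h
    · simp [hrel] at h
    · simp [hrel] at h
    · revert h
      simp only [hrel, or_self]
      revert c
      decide +revert⟩

instance : DecidableRel H.Adj := fun x y => inferInstanceAs (Decidable (hrel x y = true ∨ hrel y x = true))

end Pool.Agent.PlCov
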