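import Pool.Agent.Lib.CookLevin.Planar
import Pool.Agent.Lib.TFP.Defs

/-!
# Chunk M2: boundaries of faces

`fbd R q e` = number mod 2 of the darts of the face `q` (orbit of `R.face`) with the edge `e`.
* `fbd_mem`: it is in the cycle space: around a vertex `v` each dart `d` of `q` with head `v` is followed by
  `R.face d`, which has the initial vertex `v`; so the number of darts of `q` leaving `v` and the number of darts
  of `q` entering `v` are the same.
* `fbd_two`: each edge has two darts, so it is in at most two faces.
* `fbd_ker`: if `∑ c q • fbd R q = 0` then `c` is constant on the faces of the darts of a component: for a dart `d`,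
  the value at the edge of `d` is `c [d] + c [d.symm]`, so `c [d] = c [d.symm]`; `R.rot d` is in the face of `d.symm`
  (`R.face d.symm = R.rot d`); so `c` is constant on the darts leaving a vertex (`rot_trans`), and the darts `d`, `d.symm`
  connect adjacent vertices.
-/

set_option autoImplicit false

namespace Pool.Agent.PlCov

open Pool.Agent.TFP Pool.Agent.Lib.CookLevin Equiv.Perm

variable {V : Type}

/-- the faces -/
abbrev Fc {G : SimpleGraph V} (R : RotationSystem G) : Type := Quotient (SameCycle.setoid R.face)

open Classical in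
/-- the boundary of a face -/
noncomputable def fbd [Fintype V] {G : SimpleGraph V} (R : RotationSystem G) (q : Fc R) :
    Sym2 V → ZMod 2 := fun e =>
  ((Finset.univ.filter fun d : G.Dart => (Quotient.mk (SameCycle.setoid R.face) d : Fc R) = q ∧
    d.edge = e).card : ZMod 2)

/-- the face of a dart -/
private abbrev fk {G : SimpleGraph V} (R : RotationSystem G) (d : G.Dart) : Fc R :=
  Quotient.mk (SameCycle.setoid R.face) d

private lemma fk_face {G : SimpleGraph V} (R : RotationSystem G) (d : G.Dart) :
    fk R (R.face d) = fk R d := by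
  refine Quotient.sound ?_
  change R.face.SameCycle (R.face d) d
  simp [SameCycle.refl]

private lemma fk_edge {G : SimpleGraph V} {d : G.Dart} {v u : V} :
    d.edge = s(v, u) ↔ (d.fst = v ∧ d.snd = u) ∨ (d.fst = u ∧ d.snd = v) := by
  have h : d.edge = s(d.fst, d.snd) := rfl
  rw [h, Sym2.eq_iff]

theorem fbd_mem [Fintype V] {G : SimpleGraph V} (R : RotationSystem G) (q : Fc R) :
    fbd R q ∈ cycleSpace G := by
  classical
  refine ⟨?_, ?_⟩
  · intro e he
    by_contra h
    apply he
    unfold fbd
    rw [Finset.filter_eq_empty_iff.2, Finset.card_empty, Nat.cast_zero]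
    rintro d - ⟨-, h1⟩
    apply h
    rw [← h1]
    exact d.edge_mem
  · intro v
    have h1 : ∀ u, fbd R q s(v, u) =
        ∑ d : G.Dart, if fk R d = q ∧ d.edge = s(v, u) then (1 : ZMod 2) else 0 := by
      intro u
      unfold fbd
      rw [Finset.card_filter, Nat.cast_sum]
      refine Finset.sum_congr rfl fun d _ => ?_
      split_ifs <;> simp
    simp only [h1]
    rw [Finset.sum_comm]
    have h2 : ∀ d : G.Dart, ∑ u, (if fk R d = q ∧ d.edge = s(v, u) then (1 : ZMod 2) else 0) =
        (if fk R d = q ∧ d.fst = v then 1 else 0) + (if fk R d = q ∧ d.snd = v then 1 else 0) := by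
      intro d
      by_cases hq : fk R d = q
      · simp only [hq, true_and]
        by_cases hf : d.fst = v
        · have hs : d.snd ≠ v := fun hs => d.adj.ne (hf.trans hs.symm)
          rw [if_pos hf, if_neg hs, add_zero]
          rw [Finset.sum_eq_single d.snd]
          · rw [if_pos (fk_edge.2 (Or.inl ⟨hf, rfl⟩))]
          · intro u _ hu
            rw [if_neg]
            intro h3
            rcases fk_edge.1 h3 with h4 | h4
            · exact hu h4.2.symm
            · exact hs h4.2
          · intro h; exact absurd (Finset.mem_univ _) h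
        · rw [if_neg hf]
          by_cases hs : d.snd = v
          · rw [if_pos hs, zero_add]
            rw [Finset.sum_eq_single d.fst]
            · rw [if_pos (fk_edge.2 (Or.inr ⟨rfl, hs⟩))]
            · intro u _ hu
              rw [if_neg]
              intro h3
              rcases fk_edge.1 h3 with h4 | h4
              · exact hf h4.1
              · exact hu h4.1.symm
            · intro h; exact absurd (Finset.mem_univ _) h
          · rw [if_neg hs, add_zero]
            refine Finset.sum_eq_zero fun u _ => ?_
            rw [if_neg]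
            intro h3
            rcases fk_edge.1 h3 with h4 | h4
            · exact hf h4.1
            · exact hs h4.2
      · simp [hq]
    rw [Finset.sum_congr rfl fun d _ => h2 d, Finset.sum_add_distrib]
    have h3 : ∑ d : G.Dart, (if fk R d = q ∧ d.snd = v then (1 : ZMod 2) else 0) =
        ∑ d : G.Dart, (if fk R d = q ∧ d.fst = v then (1 : ZMod 2) else 0) := by
      refine Fintype.sum_equiv R.face _ _ fun d => ?_
      rw [fk_face, R.face_fst]
    rw [h3]
    exact CharTwo.add_self_eq_zero _

open Classical in
private lemma fk_card_le [Fintype V] {G : SimpleGraph V} (e : Sym2 V) :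
    (Finset.univ.filter fun d : G.Dart => d.edge = e).card ≤ 2 := by
  induction e with
  | _ a b =>
  by_cases h : G.Adj a b
  · have h1 : (Finset.univ.filter fun d : G.Dart => d.edge = s(a, b)) ⊆
        {(⟨(a, b), h⟩ : G.Dart), ⟨(b, a), h.symm⟩} := by
      intro d hd
      rw [Finset.mem_filter] at hd
      rw [Finset.mem_insert, Finset.mem_singleton]
      rcases fk_edge.1 hd.2 with h4 | h4
      · left
        exact SimpleGraph.Dart.ext _ _ (Prod.ext h4.1 h4.2)
      · right
        exact SimpleGraph.Dart.ext _ _ (Prod.ext h4.1 h4.2)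
    exact (Finset.card_le_card h1).trans Finset.card_le_two
  · rw [Finset.filter_eq_empty_iff.2, Finset.card_empty]
    · exact Nat.zero_le _
    · intro d _ hd
      apply h
      have h1 : s(a, b) ∈ G.edgeSet := by
        rw [← hd]
        exact d.edge_mem
      exact h1

open Classical in
theorem fbd_two [Fintype V] {G : SimpleGraph V} (R : RotationSystem G) [Fintype (Fc R)]
    (e : Sym2 V) : (Finset.univ.filter fun q : Fc R => fbd R q e ≠ 0).card ≤ 2 := by
  refine le_trans ?_ (fk_card_le (G := G) e)
  have h : (Finset.univ.filter fun q : Fc R => fbd R q e ≠ 0) ⊆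
      (Finset.univ.filter fun d : G.Dart => d.edge = e).image (fk R) := by
    intro q hq
    rw [Finset.mem_filter] at hq
    rw [Finset.mem_image]
    by_contra hcon
    apply hq.2
    unfold fbd
    rw [Finset.filter_eq_empty_iff.2, Finset.card_empty, Nat.cast_zero]
    rintro d - ⟨h1, h2⟩
    exact hcon ⟨d, Finset.mem_filter.2 ⟨Finset.mem_univ _, h2⟩, h1⟩
  exact (Finset.card_le_card h).trans Finset.card_image_le

private lemma fk_eval [Fintype V] {G : SimpleGraph V} (R : RotationSystem G) [Fintype (Fc R)]
    (c : Fc R → ZMod 2) (hc : ∑ q, c q • fbd R q = 0) (d : G.Dart) :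
    c (fk R d) = c (fk R d.symm) := by
  classical
  have h0 : (∑ q, c q • fbd R q) d.edge = 0 := by rw [hc]; rfl
  rw [Finset.sum_apply] at h0
  have h1 : ∀ q, (c q • fbd R q) d.edge =
      ∑ d' : G.Dart, if fk R d' = q ∧ d'.edge = d.edge then c q else 0 := by
    intro q
    rw [Pi.smul_apply, smul_eq_mul]
    unfold fbd
    rw [Finset.card_filter, Nat.cast_sum, Finset.mul_sum]
    refine Finset.sum_congr rfl fun d' _ => ?_
    split_ifs <;> simp
  rw [Finset.sum_congr rfl fun q _ => h1 q, Finset.sum_comm] at h0
  have h2 : ∀ d' : G.Dart, ∑ q, (if fk R d' = q ∧ d'.edge = d.edge then c q else 0) =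
      if d'.edge = d.edge then c (fk R d') else 0 := by
    intro d'
    rw [Finset.sum_eq_single (fk R d')]
    · simp
    · intro q _ hq
      rw [if_neg]
      rintro ⟨h3, _⟩
      exact hq h3.symm
    · intro h; exact absurd (Finset.mem_univ _) h
  rw [Finset.sum_congr rfl fun d' _ => h2 d', ← Finset.sum_filter] at h0
  have h3 : (Finset.univ.filter fun d' : G.Dart => d'.edge = d.edge) = {d, d.symm} := by
    ext d'
    rw [Finset.mem_filter, Finset.mem_insert, Finset.mem_singleton]
    constructor
    · rintro ⟨-, h4⟩
      have h5 : d'.edge = s(d.fst, d.snd) := h4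
      rcases fk_edge.1 h5 with h6 | h6
      · left
        exact SimpleGraph.Dart.ext _ _ (Prod.ext h6.1 h6.2)
      · right
        exact SimpleGraph.Dart.ext _ _ (Prod.ext h6.1 h6.2)
    · rintro (rfl | rfl)
      · exact ⟨Finset.mem_univ _, rfl⟩
      · exact ⟨Finset.mem_univ _, d.edge_symm⟩
  have h4 : d ≠ d.symm := by
    intro h
    have h5 : d.fst = d.symm.fst := congrArg (fun x : G.Dart => x.fst) h
    exact d.adj.ne h5
  rw [h3, Finset.sum_pair h4] at h0
  revert h0
  generalize c (fk R d) = x
  generalize c (fk R d.symm) = y
  revert x y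
  decide

theorem fbd_ker [Fintype V] {G : SimpleGraph V} (R : RotationSystem G) [Fintype (Fc R)]
    (c : Fc R → ZMod 2) (hc : ∑ q, c q • fbd R q = 0) (d d' : G.Dart)
    (h : G.Reachable d.fst d'.fst) :
    c (Quotient.mk (SameCycle.setoid R.face) d) = c (Quotient.mk (SameCycle.setoid R.face) d') := by
  classical
  have hrot : ∀ x : G.Dart, c (fk R (R.rot x)) = c (fk R x) := by
    intro x
    have h1 : R.face x.symm = R.rot x := by
      rw [R.face_apply, SimpleGraph.Dart.symm_symm]
    rw [← h1, fk_face, ← fk_eval R c hc]
  have hvert : ∀ x y : G.Dart, x.fst = y.fst → c (fk R x) = c (fk R y) := by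
    intro x y hxy
    obtain ⟨k, hk⟩ := (R.rot_trans x y hxy).exists_nat_pow_eq
    rw [← hk]
    clear hk
    induction k with
    | zero => rfl
    | succ k ih => rw [pow_succ', Equiv.Perm.mul_apply, hrot, ih]
  have key : ∀ u v : V, Relation.ReflTransGen G.Adj u v → ∀ x : G.Dart, x.fst = u →
      ∀ y : G.Dart, y.fst = v → c (fk R x) = c (fk R y) := by
    intro u v huv
    induction huv with
    | refl =>
      intro x hx y hy
      exact hvert x y (hx.trans hy.symm)
    | @tail b w hab hbc ih =>
      intro x hx y hy
      have h1 := ih x hx ⟨(b, w), hbc⟩ rfl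
      rw [h1, fk_eval R c hc]
      exact hvert _ _ (by rw [hy]; rfl)
  rw [SimpleGraph.reachable_iff_reflTransGen] at h
  exact key _ _ h d rfl d' rfl

end Pool.Agent.PlCov
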