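import Pool.Agent.Lib.PlCov.Rainbow
import Pool.Agent.Lib.OOD.Encode

/-!
# Chunk CD: the gadget graph of a list of triples as a graph on `Fin n`

Vertices are coded by triples `(type, slot, g)`: `hub t k = (0, t, k)`, `w s k = (1, s, k)`, `u s g = (2, s, g)`,
`v s g = (3, s, g)`, `m s g c = (4 + c, s, g)`. `gnames T` lists the codes without repetition, `gedges T` the edges,
in both directions. `gIso`: the bijection `Fin (gnames T).length ≃ GV ..` by `gcode` (injective, its range is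
the list `gnames T`).
-/

set_option autoImplicit false

namespace Pool.Agent.PlCov

open Pool.Agent.PolyTime Pool.Agent.OOD

/-- code of a vertex -/
def gcode {M K : ℕ} : GV (Fin M) (Fin K) → ℕ × ℕ × ℕ
  | .hub t k => (0, t.val, k.val)
  | .w s k => (1, s.val, k.val)
  | .u s g => (2, s.val, g.val)
  | .v s g => (3, s.val, g.val)
  | .m s g c => (4 + c.val, s.val, g.val)

/-- the codes of the vertices -/
def gnames (T : List (ℕ × ℕ × ℕ)) : List (ℕ × ℕ × ℕ) :=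
  ((List.range T.length ×ˢ List.range 4).map fun p => (0, p.1, p.2)) ++
  (((List.range (vars T).length ×ˢ List.range 4).map fun p => (1, p.1, p.2)) ++
  (List.range 8).flatMap fun a => (List.range (vars T).length ×ˢ List.range 8).map fun p =>
    (a + 2, p.1, p.2))

/-- addition of a constant `a < 8` (as triples of bits) -/
def xr (a g : ℕ) : ℕ :=
  if a = 6 then [6, 7, 4, 5, 2, 3, 0, 1].getD g 0
  else if a = 3 then [3, 2, 1, 0, 7, 6, 5, 4].getD g 0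
  else [5, 4, 7, 6, 1, 0, 3, 2].getD g 0

/-- the edges in one direction -/
def gedges1 (T : List (ℕ × ℕ × ℕ)) : List ((ℕ × ℕ × ℕ) × (ℕ × ℕ × ℕ)) :=
  ((List.range (vars T).length ×ˢ List.range 4).flatMap fun p =>
    [((0, p.1 / 3, p.2), (1, p.1, p.2)), ((1, p.1, p.2), (2, p.1, p.2)),
     ((1, p.1, p.2), (2, p.1, 7 - p.2))]) ++
  (List.range (vars T).length ×ˢ List.range 8).flatMap fun p =>
    [((2, p.1, p.2), (3, p.1, p.2)), ((2, p.1, p.2), (4, p.1, p.2)),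
     ((2, p.1, p.2), (5, p.1, p.2)), ((2, p.1, p.2), (7, p.1, p.2)),
     ((5, p.1, p.2), (6, p.1, p.2)), ((7, p.1, p.2), (8, p.1, p.2)),
     ((8, p.1, p.2), (9, p.1, p.2)), ((4, p.1, p.2), (3, p.1, xr 6 p.2)),
     ((6, p.1, p.2), (3, p.1, xr 3 p.2)),
     ((9, p.1, p.2), (3, (if p.2 = 0 then nxt (vars T) p.1 else p.1), xr 5 p.2))]

/-- the edges in both directions -/
def gedges (T : List (ℕ × ℕ × ℕ)) : List ((ℕ × ℕ × ℕ) × (ℕ × ℕ × ℕ)) :=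
  gedges1 T ++ (gedges1 T).map fun e => (e.2, e.1)

/-- `gedges1` has no loops -/
theorem gedges1_ne (T : List (ℕ × ℕ × ℕ)) : ∀ e ∈ gedges1 T, e.1 ≠ e.2 := by
  intro e he h
  have h1 := congrArg Prod.fst h
  unfold gedges1 at he
  simp only [List.mem_append, List.mem_flatMap, List.mem_cons, List.not_mem_nil, or_false] at he
  rcases he with ⟨p, -, rfl | rfl | rfl⟩ | ⟨p, -, rfl | rfl | rfl | rfl | rfl | rfl | rfl | rfl |
    rfl | rfl⟩ <;> simp at h1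

/-- the graph -/
def gG (T : List (ℕ × ℕ × ℕ)) : Σ n, SimpleGraph (Fin n) :=
  ⟨(gnames T).length,
    { Adj := fun a b => ((gnames T)[a], (gnames T)[b]) ∈ gedges T
      symm := ⟨by
        intro a b h
        unfold gedges at h ⊢
        rw [List.mem_append, List.mem_map] at h ⊢
        rcases h with h | ⟨e, he, h⟩
        · exact Or.inr ⟨_, h, rfl⟩
        · refine Or.inl ?_
          have h1 := congrArg Prod.fst h
          have h2 := congrArg Prod.snd h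
          simp only at h1 h2
          rw [← h1, ← h2]
          exact he⟩
      loopless := ⟨by
        intro a h
        unfold gedges at h
        rw [List.mem_append, List.mem_map] at h
        rcases h with h | ⟨e, he, h⟩
        · exact gedges1_ne T _ h rfl
        · refine gedges1_ne T e he ?_
          have h1 := congrArg Prod.fst h
          have h2 := congrArg Prod.snd h
          simp only at h1 h2
          rw [h1, h2]⟩ }⟩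

theorem gcode_inv0 {M K : ℕ} {y : GV (Fin M) (Fin K)} {a b : ℕ} (h : gcode y = (0, a, b)) :
    ∃ (ha : a < K) (hb : b < 4), y = .hub ⟨a, ha⟩ ⟨b, hb⟩ := by
  rcases y with ⟨t, k⟩ | ⟨s, k⟩ | ⟨s, g⟩ | ⟨s, g⟩ | ⟨s, g, c⟩ <;>
    simp only [gcode, Prod.mk.injEq] at h
  · obtain ⟨-, rfl, rfl⟩ := h
    exact ⟨t.2, k.2, rfl⟩
  all_goals omega

theorem gcode_inv1 {M K : ℕ} {y : GV (Fin M) (Fin K)} {a b : ℕ} (h : gcode y = (1, a, b)) :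
    ∃ (ha : a < M) (hb : b < 4), y = .w ⟨a, ha⟩ ⟨b, hb⟩ := by
  rcases y with ⟨t, k⟩ | ⟨s, k⟩ | ⟨s, g⟩ | ⟨s, g⟩ | ⟨s, g, c⟩ <;>
    simp only [gcode, Prod.mk.injEq] at h
  · omega
  · obtain ⟨-, rfl, rfl⟩ := h
    exact ⟨s.2, k.2, rfl⟩
  all_goals omega

theorem gcode_inv2 {M K : ℕ} {y : GV (Fin M) (Fin K)} {a b : ℕ} (h : gcode y = (2, a, b)) :
    ∃ (ha : a < M) (hb : b < 8), y = .u ⟨a, ha⟩ ⟨b, hb⟩ := by
  rcases y with ⟨t, k⟩ | ⟨s, k⟩ | ⟨s, g⟩ | ⟨s, g⟩ | ⟨s, g, c⟩ <;>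
    simp only [gcode, Prod.mk.injEq] at h
  · omega
  · omega
  · obtain ⟨-, rfl, rfl⟩ := h
    exact ⟨s.2, g.2, rfl⟩
  all_goals omega

theorem gcode_inv3 {M K : ℕ} {y : GV (Fin M) (Fin K)} {a b : ℕ} (h : gcode y = (3, a, b)) :
    ∃ (ha : a < M) (hb : b < 8), y = .v ⟨a, ha⟩ ⟨b, hb⟩ := by
  rcases y with ⟨t, k⟩ | ⟨s, k⟩ | ⟨s, g⟩ | ⟨s, g⟩ | ⟨s, g, c⟩ <;>
    simp only [gcode, Prod.mk.injEq] at h
  · omega
  · omega
  · omega
  · obtain ⟨-, rfl, rfl⟩ := h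
    exact ⟨s.2, g.2, rfl⟩
  · omega

theorem gcode_inv4 {M K : ℕ} {y : GV (Fin M) (Fin K)} {c a b : ℕ} (hc : c < 6)
    (h : gcode y = (4 + c, a, b)) :
    ∃ (ha : a < M) (hb : b < 8), y = .m ⟨a, ha⟩ ⟨b, hb⟩ ⟨c, hc⟩ := by
  rcases y with ⟨t, k⟩ | ⟨s, k⟩ | ⟨s, g⟩ | ⟨s, g⟩ | ⟨s, g, c'⟩ <;>
    simp only [gcode, Prod.mk.injEq] at h
  · omega
  · omega
  · omega
  · omega
  · obtain ⟨h1, rfl, rfl⟩ := h
    refine ⟨s.2, g.2, ?_⟩
    have h2 : c' = ⟨c, hc⟩ := Fin.ext (by simp only; omega)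
    rw [h2]

theorem gcode_inj {M K : ℕ} {y z : GV (Fin M) (Fin K)} (h : gcode y = gcode z) : y = z := by
  rcases z with ⟨t, k⟩ | ⟨s, k⟩ | ⟨s, g⟩ | ⟨s, g⟩ | ⟨s, g, c⟩
  · obtain ⟨_, _, h1⟩ := gcode_inv0 h
    exact h1
  · obtain ⟨_, _, h1⟩ := gcode_inv1 h
    exact h1
  · obtain ⟨_, _, h1⟩ := gcode_inv2 h
    exact h1
  · obtain ⟨_, _, h1⟩ := gcode_inv3 h
    exact h1
  · obtain ⟨_, _, h1⟩ := gcode_inv4 c.2 h
    exact h1

theorem xr_eq : ∀ g : Fin 8, xr 6 g.val = (g ^^^ 6).val ∧ xr 3 g.val = (g ^^^ 3).val ∧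
    xr 5 g.val = (g ^^^ 5).val := by decide

theorem ofNat8 (k : ℕ) (h : k < 8) : (⟨k, h⟩ : Fin 8) = Fin.ofNat 8 k :=
  Fin.ext (by simp [Nat.mod_eq_of_lt h])

theorem mem_gnames {T : List (ℕ × ℕ × ℕ)} {x : ℕ × ℕ × ℕ} :
    x ∈ gnames T ↔ ∃ y : GV (Fin (vars T).length) (Fin T.length), gcode y = x := by
  obtain ⟨a, s, g⟩ := x
  unfold gnames
  simp only [List.mem_append, List.mem_map, List.mem_flatMap, List.mem_product, List.mem_range,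
    Prod.exists, Prod.mk.injEq]
  constructor
  · rintro (⟨t, k, ⟨h1, h2⟩, rfl, rfl, rfl⟩ | ⟨t, k, ⟨h1, h2⟩, rfl, rfl, rfl⟩ |
      ⟨b, hb, t, k, ⟨h1, h2⟩, rfl, rfl, rfl⟩)
    · exact ⟨.hub ⟨t, h1⟩ ⟨k, h2⟩, rfl⟩
    · exact ⟨.w ⟨t, h1⟩ ⟨k, h2⟩, rfl⟩
    · rcases b with _ | _ | c
      · exact ⟨.u ⟨t, h1⟩ ⟨k, h2⟩, rfl⟩
      · exact ⟨.v ⟨t, h1⟩ ⟨k, h2⟩, rfl⟩
      · refine ⟨.m ⟨t, h1⟩ ⟨k, h2⟩ ⟨c, by omega⟩, ?_⟩
        simp only [gcode, Prod.mk.injEq, and_true]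
        omega
  · rintro ⟨y, hy⟩
    rcases y with ⟨t, k⟩ | ⟨s', k⟩ | ⟨s', g'⟩ | ⟨s', g'⟩ | ⟨s', g', c⟩ <;>
      simp only [gcode, Prod.mk.injEq] at hy <;> obtain ⟨rfl, rfl, rfl⟩ := hy
    · exact Or.inl ⟨t, k, ⟨t.2, k.2⟩, rfl, rfl, rfl⟩
    · exact Or.inr (Or.inl ⟨s', k, ⟨s'.2, k.2⟩, rfl, rfl, rfl⟩)
    · exact Or.inr (Or.inr ⟨0, by omega, s', g', ⟨s'.2, g'.2⟩, rfl, rfl, rfl⟩)
    · exact Or.inr (Or.inr ⟨1, by omega, s', g', ⟨s'.2, g'.2⟩, rfl, rfl, rfl⟩)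
    · exact Or.inr (Or.inr ⟨c + 2, by omega, s', g', ⟨s'.2, g'.2⟩, by omega, rfl, rfl⟩)

theorem nodup_gnames (T : List (ℕ × ℕ × ℕ)) : (gnames T).Nodup := by
  unfold gnames
  have hp : ∀ n m : ℕ, (List.range n ×ˢ List.range m).Nodup := fun n m =>
    List.nodup_range.product List.nodup_range
  have hinj : ∀ a : ℕ, Function.Injective fun p : ℕ × ℕ => (a, p.1, p.2) := by
    rintro a ⟨x, y⟩ ⟨x', y'⟩ h
    simpa using h
  refine List.Nodup.append ((hp _ _).map (hinj 0)) (List.Nodup.append ((hp _ _).map (hinj 1)) ?_ ?_) ?_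
  · rw [List.nodup_flatMap]
    refine ⟨fun a _ => (hp _ _).map (hinj (a + 2)), ?_⟩
    refine List.nodup_range.pairwise_of_forall_ne ?_
    intro a _ b _ hab x hx hx'
    obtain ⟨p, -, rfl⟩ := List.mem_map.1 hx
    obtain ⟨q, -, hq⟩ := List.mem_map.1 hx'
    have h1 := congrArg Prod.fst hq
    simp only at h1
    omega
  · intro x hx hx'
    obtain ⟨p, -, rfl⟩ := List.mem_map.1 hx
    obtain ⟨b, -, hb⟩ := List.mem_flatMap.1 hx'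
    obtain ⟨q, -, hq⟩ := List.mem_map.1 hb
    have h1 := congrArg Prod.fst hq
    simp only at h1
    omega
  · intro x hx hx'
    obtain ⟨p, -, rfl⟩ := List.mem_map.1 hx
    rcases List.mem_append.1 hx' with hx' | hx'
    · obtain ⟨q, -, hq⟩ := List.mem_map.1 hx'
      have h1 := congrArg Prod.fst hq
      simp only at h1
      omega
    · obtain ⟨b, -, hb⟩ := List.mem_flatMap.1 hx'
      obtain ⟨q, -, hq⟩ := List.mem_map.1 hb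
      have h1 := congrArg Prod.fst hq
      simp only at h1
      omega

theorem grel_of_mem {T : List (ℕ × ℕ × ℕ)} {y z : GV (Fin (vars T).length) (Fin T.length)}
    (h : (gcode y, gcode z) ∈ gedges1 T) : GRel (nxtPerm (vars T)) (hbT T) y z := by
  unfold gedges1 at h
  simp only [List.mem_append, List.mem_flatMap, List.mem_cons, List.not_mem_nil, or_false,
    Prod.mk.injEq, Prod.exists, List.mem_product, List.mem_range] at h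
  rcases h with ⟨s, k, ⟨hs, hk⟩, ⟨h1, h2⟩ | ⟨h1, h2⟩ | ⟨h1, h2⟩⟩ |
    ⟨s, g, ⟨hs, hg⟩, ⟨h1, h2⟩ | ⟨h1, h2⟩ | ⟨h1, h2⟩ | ⟨h1, h2⟩ | ⟨h1, h2⟩ | ⟨h1, h2⟩ |
      ⟨h1, h2⟩ | ⟨h1, h2⟩ | ⟨h1, h2⟩ | ⟨h1, h2⟩⟩
  · obtain ⟨_, _, rfl⟩ := gcode_inv0 h1
    obtain ⟨_, _, rfl⟩ := gcode_inv1 h2
    exact GRel.hw (π := nxtPerm (vars T)) (hb := hbT T) ⟨s, hs⟩ ⟨k, hk⟩
  · obtain ⟨_, _, rfl⟩ := gcode_inv1 h1
    obtain ⟨_, _, rfl⟩ := gcode_inv2 h2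
    rw [ofNat8]
    exact GRel.wu (π := nxtPerm (vars T)) (hb := hbT T) ⟨s, hs⟩ ⟨k, hk⟩
  · obtain ⟨_, _, rfl⟩ := gcode_inv1 h1
    obtain ⟨_, _, rfl⟩ := gcode_inv2 h2
    rw [ofNat8]
    exact GRel.wu' (π := nxtPerm (vars T)) (hb := hbT T) ⟨s, hs⟩ ⟨k, hk⟩
  · obtain ⟨_, _, rfl⟩ := gcode_inv2 h1
    obtain ⟨_, _, rfl⟩ := gcode_inv3 h2
    exact GRel.uv (π := nxtPerm (vars T)) (hb := hbT T) ⟨s, hs⟩ ⟨g, hg⟩
  · obtain ⟨_, _, rfl⟩ := gcode_inv2 h1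
    obtain ⟨_, _, rfl⟩ := gcode_inv4 (c := 0) (by omega) h2
    exact GRel.um (π := nxtPerm (vars T)) (hb := hbT T) ⟨s, hs⟩ ⟨g, hg⟩ 0 (by simp)
  · obtain ⟨_, _, rfl⟩ := gcode_inv2 h1
    obtain ⟨_, _, rfl⟩ := gcode_inv4 (c := 1) (by omega) h2
    exact GRel.um (π := nxtPerm (vars T)) (hb := hbT T) ⟨s, hs⟩ ⟨g, hg⟩ 1 (by simp)
  · obtain ⟨_, _, rfl⟩ := gcode_inv2 h1
    obtain ⟨_, _, rfl⟩ := gcode_inv4 (c := 3) (by omega) h2
    exact GRel.um (π := nxtPerm (vars T)) (hb := hbT T) ⟨s, hs⟩ ⟨g, hg⟩ 3 (by simp)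
  · obtain ⟨_, _, rfl⟩ := gcode_inv4 (c := 1) (by omega) h1
    obtain ⟨_, _, rfl⟩ := gcode_inv4 (c := 2) (by omega) h2
    exact GRel.mm (π := nxtPerm (vars T)) (hb := hbT T) ⟨s, hs⟩ ⟨g, hg⟩ 1 (by simp)
  · obtain ⟨_, _, rfl⟩ := gcode_inv4 (c := 3) (by omega) h1
    obtain ⟨_, _, rfl⟩ := gcode_inv4 (c := 4) (by omega) h2
    exact GRel.mm (π := nxtPerm (vars T)) (hb := hbT T) ⟨s, hs⟩ ⟨g, hg⟩ 3 (by simp)
  · obtain ⟨_, _, rfl⟩ := gcode_inv4 (c := 4) (by omega) h1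
    obtain ⟨_, _, rfl⟩ := gcode_inv4 (c := 5) (by omega) h2
    exact GRel.mm (π := nxtPerm (vars T)) (hb := hbT T) ⟨s, hs⟩ ⟨g, hg⟩ 4 (by simp)
  · obtain ⟨_, _, rfl⟩ := gcode_inv4 (c := 0) (by omega) h1
    obtain ⟨_, _, rfl⟩ := gcode_inv3 h2
    have e : ∀ h8, (⟨xr 6 g, h8⟩ : Fin 8) = (⟨g, hg⟩ : Fin 8) ^^^ 6 := fun h8 =>
      Fin.ext (xr_eq ⟨g, hg⟩).1
    rw [e]
    exact GRel.mv0 (π := nxtPerm (vars T)) (hb := hbT T) ⟨s, hs⟩ ⟨g, hg⟩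
  · obtain ⟨_, _, rfl⟩ := gcode_inv4 (c := 2) (by omega) h1
    obtain ⟨_, _, rfl⟩ := gcode_inv3 h2
    have e : ∀ h8, (⟨xr 3 g, h8⟩ : Fin 8) = (⟨g, hg⟩ : Fin 8) ^^^ 3 := fun h8 =>
      Fin.ext (xr_eq ⟨g, hg⟩).2.1
    rw [e]
    exact GRel.mv2 (π := nxtPerm (vars T)) (hb := hbT T) ⟨s, hs⟩ ⟨g, hg⟩
  · obtain ⟨_, _, rfl⟩ := gcode_inv4 (c := 5) (by omega) h1
    by_cases h0 : g = 0
    · subst h0
      rw [if_pos rfl] at h2
      obtain ⟨_, _, rfl⟩ := gcode_inv3 h2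
      exact GRel.mvπ (π := nxtPerm (vars T)) (hb := hbT T) ⟨s, hs⟩
    · rw [if_neg h0] at h2
      obtain ⟨_, _, rfl⟩ := gcode_inv3 h2
      have e : ∀ h8, (⟨xr 5 g, h8⟩ : Fin 8) = (⟨g, hg⟩ : Fin 8) ^^^ 5 := fun h8 =>
        Fin.ext (xr_eq ⟨g, hg⟩).2.2
      rw [e]
      refine GRel.mv5 (π := nxtPerm (vars T)) (hb := hbT T) ⟨s, hs⟩ ⟨g, hg⟩ ?_
      intro h
      exact h0 (congrArg Fin.val h)

theorem mem_of_grel {T : List (ℕ × ℕ × ℕ)} {y z : GV (Fin (vars T).length) (Fin T.length)}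
    (h : GRel (nxtPerm (vars T)) (hbT T) y z) : (gcode y, gcode z) ∈ gedges1 T := by
  unfold gedges1
  simp only [List.mem_append, List.mem_flatMap, List.mem_cons, List.not_mem_nil, or_false,
    Prod.mk.injEq, Prod.exists, List.mem_product, List.mem_range]
  cases h with
  | hw s k => exact Or.inl ⟨s, k, ⟨s.2, k.2⟩, Or.inl ⟨rfl, rfl⟩⟩
  | wu s k =>
    refine Or.inl ⟨s, k, ⟨s.2, k.2⟩, Or.inr (Or.inl ⟨rfl, ?_⟩)⟩
    rw [← ofNat8 _ (by omega)]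
    rfl
  | wu' s k =>
    refine Or.inl ⟨s, k, ⟨s.2, k.2⟩, Or.inr (Or.inr ⟨rfl, ?_⟩)⟩
    rw [← ofNat8 _ (by omega)]
    rfl
  | uv s g => exact Or.inr ⟨s, g, ⟨s.2, g.2⟩, Or.inl ⟨rfl, rfl⟩⟩
  | um s g c hc =>
    refine Or.inr ⟨s, g, ⟨s.2, g.2⟩, ?_⟩
    rcases hc with rfl | rfl | rfl
    · exact Or.inr (Or.inl ⟨rfl, rfl⟩)
    · exact Or.inr (Or.inr (Or.inl ⟨rfl, rfl⟩))
    · exact Or.inr (Or.inr (Or.inr (Or.inl ⟨rfl, rfl⟩)))
  | mm s g c hc =>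
    refine Or.inr ⟨s, g, ⟨s.2, g.2⟩, ?_⟩
    rcases hc with rfl | rfl | rfl
    · exact Or.inr (Or.inr (Or.inr (Or.inr (Or.inl ⟨rfl, rfl⟩))))
    · exact Or.inr (Or.inr (Or.inr (Or.inr (Or.inr (Or.inl ⟨rfl, rfl⟩)))))
    · exact Or.inr (Or.inr (Or.inr (Or.inr (Or.inr (Or.inr (Or.inl ⟨rfl, rfl⟩))))))
  | mv0 s g =>
    refine Or.inr ⟨s, g, ⟨s.2, g.2⟩, Or.inr (Or.inr (Or.inr (Or.inr (Or.inr (Or.inr (Or.inr
      (Or.inl ⟨rfl, ?_⟩)))))))⟩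
    simp only [gcode, (xr_eq g).1]
  | mv2 s g =>
    refine Or.inr ⟨s, g, ⟨s.2, g.2⟩, Or.inr (Or.inr (Or.inr (Or.inr (Or.inr (Or.inr (Or.inr
      (Or.inr (Or.inl ⟨rfl, ?_⟩))))))))⟩
    simp only [gcode, (xr_eq g).2.1]
  | mv5 s g hg =>
    refine Or.inr ⟨s, g, ⟨s.2, g.2⟩, Or.inr (Or.inr (Or.inr (Or.inr (Or.inr (Or.inr (Or.inr
      (Or.inr (Or.inr ⟨rfl, ?_⟩))))))))⟩
    have h0 : ¬ g.val = 0 := fun h => hg (Fin.ext h)
    simp only [gcode, (xr_eq g).2.2, if_neg h0]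
  | mvπ s =>
    exact Or.inr ⟨s, 0, ⟨s.2, by omega⟩, Or.inr (Or.inr (Or.inr (Or.inr (Or.inr (Or.inr (Or.inr
      (Or.inr (Or.inr ⟨rfl, rfl⟩))))))))⟩

theorem mem_gedges {T : List (ℕ × ℕ × ℕ)} {y z : GV (Fin (vars T).length) (Fin T.length)} :
    (gcode y, gcode z) ∈ gedges T ↔ (GG (nxtPerm (vars T)) (hbT T)).Adj y z := by
  unfold gedges
  rw [List.mem_append, List.mem_map]
  constructor
  · rintro (h | ⟨e, he, h⟩)
    · exact Or.inl (grel_of_mem h)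
    · refine Or.inr (grel_of_mem ?_)
      have h1 := congrArg Prod.fst h
      have h2 := congrArg Prod.snd h
      simp only at h1 h2
      rw [← h1, ← h2]
      exact he
  · rintro (h | h)
    · exact Or.inl (mem_of_grel h)
    · exact Or.inr ⟨_, mem_of_grel h, rfl⟩

theorem gIso (T : List (ℕ × ℕ × ℕ)) :
    Nonempty ((gG T).2 ≃g GG (nxtPerm (vars T)) (hbT T)) := by
  have hmem : ∀ y : GV (Fin (vars T).length) (Fin T.length), gcode y ∈ gnames T :=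
    fun y => mem_gnames.2 ⟨y, rfl⟩
  let f : GV (Fin (vars T).length) (Fin T.length) → Fin (gnames T).length := fun y =>
    ⟨(gnames T).idxOf (gcode y), List.idxOf_lt_length_iff.2 (hmem y)⟩
  have hf : ∀ y, (gnames T)[f y] = gcode y := fun y => List.getElem_idxOf _
  have hb : Function.Bijective f := by
    constructor
    · intro y z h
      apply gcode_inj
      rw [← hf y, ← hf z, h]
    · intro a
      obtain ⟨y, hy⟩ := mem_gnames.1 (List.getElem_mem a.2)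
      refine ⟨y, Fin.ext ?_⟩
      show (gnames T).idxOf (gcode y) = a.val
      rw [hy]
      exact (nodup_gnames T).idxOf_getElem _ _
  refine ⟨RelIso.symm ⟨Equiv.ofBijective f hb, ?_⟩⟩
  intro y z
  rw [← mem_gedges, ← hf y, ← hf z]
  rfl

end Pool.Agent.PlCov
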