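import Pool.Agent.Lib.PlCov.Gadget

/-!
# Chunk GG: the types of the gadget graph are good

For each vertex `x` and type `t < 10` the set of neighbours of type `t` is explicit: empty, `{a}`, `{a, b}`, or (hub)
`{w s k | hb s = t}` with three elements (`h3`). `nbL x` is the list of the neighbours of a vertex which is not a hub.
-/

set_option autoImplicit false
set_option maxRecDepth 10000

namespace Pool.Agent.PlCov

variable {S T : Type}

/-- the vertex of type w next to `u s g` -/
def kk (g : Fin 8) : Fin 4 := if g.val < 4 then Fin.ofNat 4 g.val else Fin.ofNat 4 (7 - g.val)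

/-- the neighbours (not for hubs) -/
def nbL (π : Equiv.Perm S) (hb : S → T) : GV S T → List (GV S T)
  | .hub _ _ => []
  | .w s k => [.hub (hb s) k, .u s (Fin.ofNat 8 k.val), .u s (Fin.ofNat 8 (7 - k.val))]
  | .u s g => [.w s (kk g), .v s g, .m s g 0, .m s g 1, .m s g 3]
  | .v s g => [.u s g, .m s (g ^^^ 6) 0, .m s (g ^^^ 3) 2,
      if g = 5 then .m (π.symm s) 0 5 else .m s (g ^^^ 5) 5]
  | .m s g c =>
    if c = 0 then [.u s g, .v s (g ^^^ 6)] else if c = 1 then [.u s g, .m s g 2]
    else if c = 2 then [.m s g 1, .v s (g ^^^ 3)] else if c = 3 then [.u s g, .m s g 4]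
    else if c = 4 then [.m s g 3, .m s g 5]
    else [.m s g 4, if g = 0 then .v (π s) 5 else .v s (g ^^^ 5)]

theorem gg_kk : ∀ k : Fin 4, kk (Fin.ofNat 8 k.val) = k ∧ kk (Fin.ofNat 8 (7 - k.val)) = k := by
  decide

theorem gg_kk' : ∀ g : Fin 8, Fin.ofNat 8 (kk g).val = g ∨ Fin.ofNat 8 (7 - (kk g).val) = g := by
  decide

theorem gg_x : ∀ g : Fin 8, g ^^^ 6 ^^^ 6 = g ∧ g ^^^ 3 ^^^ 3 = g ∧ g ^^^ 5 ^^^ 5 = g ∧
    (g ≠ 0 → g ^^^ 5 ≠ 5) ∧ (g ≠ 5 → g ^^^ 5 ≠ 0) := by decide

theorem gg_mem {π : Equiv.Perm S} {hb : S → T} {x y : GV S T} (hx : gty x ≠ 0)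
    (h : (GG π hb).Adj x y) : y ∈ nbL π hb x := by
  rcases h with h | h
  · cases h with
    | hw s k => exact absurd rfl hx
    | wu s k => simp [nbL]
    | wu' s k => simp [nbL]
    | uv s g => simp [nbL]
    | um s g c hc => rcases hc with rfl | rfl | rfl <;> simp [nbL]
    | mm s g c hc => rcases hc with rfl | rfl | rfl <;> simp [nbL]
    | mv0 s g => simp [nbL]
    | mv2 s g => simp [nbL]
    | mv5 s g hg => simp [nbL, hg]
    | mvπ s => simp [nbL]
  · cases h with
    | hw s k => simp [nbL]
    | wu s k => simp only [nbL, (gg_kk k).1]; simp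
    | wu' s k => simp only [nbL, (gg_kk k).2]; simp
    | uv s g => simp [nbL]
    | um s g c hc => rcases hc with rfl | rfl | rfl <;> simp [nbL]
    | mm s g c hc => rcases hc with rfl | rfl | rfl <;> simp [nbL]
    | mv0 s g => simp only [nbL, (gg_x g).1]; simp
    | mv2 s g => simp only [nbL, (gg_x g).2.1]; simp
    | mv5 s g hg =>
      simp only [nbL, (gg_x g).2.2.1, if_neg ((gg_x g).2.2.2.1 hg)]
      simp
    | mvπ s => simp [nbL]

theorem gg_adj {π : Equiv.Perm S} {hb : S → T} {x y : GV S T} (h : y ∈ nbL π hb x) :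
    (GG π hb).Adj x y := by
  rcases x with ⟨t, k⟩ | ⟨s, k⟩ | ⟨s, g⟩ | ⟨s, g⟩ | ⟨s, g, c⟩
  · simp [nbL] at h
  · simp only [nbL, List.mem_cons, List.not_mem_nil, or_false] at h
    rcases h with rfl | rfl | rfl
    · exact Or.inr (.hw s k)
    · exact Or.inl (.wu s k)
    · exact Or.inl (.wu' s k)
  · simp only [nbL, List.mem_cons, List.not_mem_nil, or_false] at h
    rcases h with rfl | rfl | rfl | rfl | rfl
    · rcases gg_kk' g with hg | hg
      · have h1 := GRel.wu (π := π) (hb := hb) s (kk g)
        rw [hg] at h1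
        exact Or.inr h1
      · have h1 := GRel.wu' (π := π) (hb := hb) s (kk g)
        rw [hg] at h1
        exact Or.inr h1
    · exact Or.inl (.uv s g)
    · exact Or.inl (.um s g 0 (by simp))
    · exact Or.inl (.um s g 1 (by simp))
    · exact Or.inl (.um s g 3 (by simp))
  · simp only [nbL, List.mem_cons, List.not_mem_nil, or_false] at h
    rcases h with rfl | rfl | rfl | h
    · exact Or.inr (.uv s g)
    · have h1 := GRel.mv0 (π := π) (hb := hb) s (g ^^^ 6)
      rw [(gg_x g).1] at h1
      exact Or.inr h1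
    · have h1 := GRel.mv2 (π := π) (hb := hb) s (g ^^^ 3)
      rw [(gg_x g).2.1] at h1
      exact Or.inr h1
    · split_ifs at h with hg
      · subst h
        subst hg
        have h1 := GRel.mvπ (π := π) (hb := hb) (π.symm s)
        rw [Equiv.apply_symm_apply] at h1
        exact Or.inr h1
      · subst h
        have h1 := GRel.mv5 (π := π) (hb := hb) s (g ^^^ 5) ((gg_x g).2.2.2.2 hg)
        rw [(gg_x g).2.2.1] at h1
        exact Or.inr h1
  · have hc : c = 0 ∨ c = 1 ∨ c = 2 ∨ c = 3 ∨ c = 4 ∨ c = 5 := by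
      clear h
      revert c
      decide
    rcases hc with rfl | rfl | rfl | rfl | rfl | rfl
    · simp only [nbL, if_true, List.mem_cons, List.not_mem_nil, or_false] at h
      rcases h with rfl | rfl
      · exact Or.inr (.um s g 0 (by simp))
      · exact Or.inl (.mv0 s g)
    · have h' : y = .u s g ∨ y = .m s g 2 := by simpa [nbL] using h
      rcases h' with rfl | rfl
      · exact Or.inr (.um s g 1 (by simp))
      · exact Or.inl (.mm s g 1 (by simp))
    · have h' : y = .m s g 1 ∨ y = .v s (g ^^^ 3) := by simpa [nbL] using h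
      rcases h' with rfl | rfl
      · exact Or.inr (.mm s g 1 (by simp))
      · exact Or.inl (.mv2 s g)
    · have h' : y = .u s g ∨ y = .m s g 4 := by simpa [nbL] using h
      rcases h' with rfl | rfl
      · exact Or.inr (.um s g 3 (by simp))
      · exact Or.inl (.mm s g 3 (by simp))
    · have h' : y = .m s g 3 ∨ y = .m s g 5 := by simpa [nbL] using h
      rcases h' with rfl | rfl
      · exact Or.inr (.mm s g 3 (by simp))
      · exact Or.inl (.mm s g 4 (by simp))
    · have h' : y = .m s g 4 ∨ y = (if g = 0 then .v (π s) 5 else .v s (g ^^^ 5)) := by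
        simpa [nbL] using h
      rcases h' with rfl | h'
      · exact Or.inr (.mm s g 4 (by simp))
      · split_ifs at h' with hg
        · subst h'
          subst hg
          exact Or.inl (.mvπ s)
        · subst h'
          exact Or.inl (.mv5 s g hg)

theorem gg_ncard {α : Type} (l : List α) (hl : l.Nodup) (f : α → ℕ) (t : ℕ) :
    Set.ncard {y | y ∈ l ∧ f y = t} = (l.map f).count t := by
  classical
  have h1 : {y | y ∈ l ∧ f y = t} = ((l.filter fun y => decide (f y = t)).toFinset : Set α) := by
    ext y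
    simp
  rw [h1, Set.ncard_coe_finset, List.toFinset_card_of_nodup (hl.filter _), List.count,
    List.countP_map, List.countP_eq_length_filter]
  rfl

theorem gg_map (π : Equiv.Perm S) (hb : S → T) (x : GV S T) (t : ℕ) (ht : t < 10)
    (hx : gty x ≠ 0) : ((nbL π hb x).map gty).count t = mat (gty x) t := by
  rcases x with ⟨u, k⟩ | ⟨s, k⟩ | ⟨s, g⟩ | ⟨s, g⟩ | ⟨s, g, c⟩
  · exact absurd rfl hx
  · show ([0, 2, 2] : List ℕ).count t = mat 1 t
    clear hx
    revert t
    decide
  · show ([1, 3, 4, 5, 7] : List ℕ).count t = mat 2 t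
    clear hx
    revert t
    decide
  · have h1 : (nbL π hb (.v s g : GV S T)).map gty = [2, 4, 6, 9] := by
      by_cases hg : g = 5
      · simp only [nbL, if_pos hg]
        rfl
      · simp only [nbL, if_neg hg]
        rfl
    rw [h1]
    show _ = mat 3 t
    clear h1 hx
    revert t
    decide
  · have hc : c = 0 ∨ c = 1 ∨ c = 2 ∨ c = 3 ∨ c = 4 ∨ c = 5 := by
      clear hx
      revert c
      decide
    rcases hc with rfl | rfl | rfl | rfl | rfl | rfl
    · show ([2, 3] : List ℕ).count t = mat 4 t
      clear hx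
      revert t
      decide
    · show ([2, 6] : List ℕ).count t = mat 5 t
      clear hx
      revert t
      decide
    · show ([5, 3] : List ℕ).count t = mat 6 t
      clear hx
      revert t
      decide
    · show ([2, 8] : List ℕ).count t = mat 7 t
      clear hx
      revert t
      decide
    · show ([7, 9] : List ℕ).count t = mat 8 t
      clear hx
      revert t
      decide
    · have h1 : (nbL π hb (.m s g 5 : GV S T)).map gty = [8, 3] := by
        by_cases hg : g = 0
        · subst hg
          rfl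
        · show [_, gty (if g = 0 then _ else _)] = _
          rw [if_neg hg]
          rfl
      rw [h1]
      show _ = mat 9 t
      clear h1 hx
      revert t
      decide

theorem gg_nodup (π : Equiv.Perm S) (hb : S → T) (x : GV S T) : (nbL π hb x).Nodup := by
  by_cases hx : gty x = 0
  · rcases x with ⟨u, k⟩ | ⟨s, k⟩ | ⟨s, g⟩ | ⟨s, g⟩ | ⟨s, g, c⟩
    · exact List.nodup_nil
    · exact absurd hx (by simp [gty])
    · exact absurd hx (by simp [gty])
    · exact absurd hx (by simp [gty])
    · exact absurd hx (by simp only [gty]; omega)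
  · by_cases hx1 : gty x = 1
    · rcases x with ⟨u, k⟩ | ⟨s, k⟩ | ⟨s, g⟩ | ⟨s, g⟩ | ⟨s, g, c⟩
      · exact absurd hx1 (by simp [gty])
      · have h1 : ∀ k : Fin 4, (Fin.ofNat 8 k.val : Fin 8) ≠ Fin.ofNat 8 (7 - k.val) := by decide
        have h2 : (GV.u s (Fin.ofNat 8 k.val) : GV S T) ≠ .u s (Fin.ofNat 8 (7 - k.val)) := by
          intro h
          injection h with _ h
          exact h1 k h
        simp only [nbL, List.nodup_cons, List.mem_cons, List.not_mem_nil, or_false,
          reduceCtorEq, not_false_eq_true, List.nodup_nil, and_true, true_and]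
        exact h2
      · exact absurd hx1 (by simp [gty])
      · exact absurd hx1 (by simp [gty])
      · exact absurd hx1 (by simp only [gty]; omega)
    · have h1 : ∀ a < 10, a ≠ 0 → a ≠ 1 → ∀ t < 10, mat a t ≤ 1 := by decide
      have h2 : gty x < 10 := by
        rcases x with ⟨u, k⟩ | ⟨s, k⟩ | ⟨s, g⟩ | ⟨s, g⟩ | ⟨s, g, c⟩ <;> simp only [gty] <;> omega
      refine List.Nodup.of_map gty ?_
      rw [List.nodup_iff_count_le_one]
      intro t
      by_cases ht : t < 10
      · rw [gg_map π hb x t ht hx]
        exact h1 _ h2 hx hx1 t ht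
      · rw [List.count_eq_zero_of_not_mem]
        · omega
        · rw [List.mem_map]
          rintro ⟨y, _, rfl⟩
          apply ht
          rcases y with ⟨u, k⟩ | ⟨s, k⟩ | ⟨s, g⟩ | ⟨s, g⟩ | ⟨s, g, c⟩ <;> simp only [gty] <;> omega

theorem good_GG [Finite S] [Finite T] (π : Equiv.Perm S) (hb : S → T)
    (h3 : ∀ t, Set.ncard {s | hb s = t} = 3) : Good (GG π hb) gty := by
  refine ⟨?_, ?_⟩
  · intro x
    rcases x with ⟨u, k⟩ | ⟨s, k⟩ | ⟨s, g⟩ | ⟨s, g⟩ | ⟨s, g, c⟩ <;> simp only [gty] <;> omega
  · intro x t ht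
    by_cases hx : gty x = 0
    · rcases x with ⟨u, k⟩ | ⟨s, k⟩ | ⟨s, g⟩ | ⟨s, g⟩ | ⟨s, g, c⟩
      · have key : ∀ y, (GG π hb).Adj (.hub u k) y ↔ ∃ s, hb s = u ∧ y = .w s k := by
          intro y
          constructor
          · rintro (h | h)
            · cases h with
              | hw s k => exact ⟨s, rfl, rfl⟩
            · cases h
          · rintro ⟨s, rfl, rfl⟩
            exact Or.inl (.hw s k)
        by_cases h1 : t = 1
        · subst h1
          have e : {y | (GG π hb).Adj (.hub u k) y ∧ gty y = 1} =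
              (fun s => (GV.w s k : GV S T)) '' {s | hb s = u} := by
            ext y
            constructor
            · rintro ⟨h, -⟩
              obtain ⟨s, hs, rfl⟩ := (key y).1 h
              exact ⟨s, hs, rfl⟩
            · rintro ⟨s, hs, rfl⟩
              exact ⟨(key _).2 ⟨s, hs, rfl⟩, rfl⟩
          rw [e, Set.ncard_image_of_injective _ (fun a b h => by simpa using h), h3]
          rfl
        · have e : {y | (GG π hb).Adj (.hub u k) y ∧ gty y = t} = ∅ := by
            rw [Set.eq_empty_iff_forall_notMem]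
            rintro y ⟨h, h2⟩
            obtain ⟨s, hs, rfl⟩ := (key y).1 h
            exact h1 h2.symm
          rw [e, Set.ncard_empty]
          show 0 = mat 0 t
          revert h1
          clear e hx
          revert t
          decide
      · exact absurd hx (by simp [gty])
      · exact absurd hx (by simp [gty])
      · exact absurd hx (by simp [gty])
      · exact absurd hx (by simp only [gty]; omega)
    · rw [← gg_map π hb x t ht hx, ← gg_ncard _ (gg_nodup π hb x)]
      congr 1
      ext y
      constructor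
      · rintro ⟨h1, h2⟩
        exact ⟨gg_mem hx h1, h2⟩
      · rintro ⟨h1, h2⟩
        exact ⟨gg_adj h1, h2⟩

end Pool.Agent.PlCov
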