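import Pool.Agent.Lib.PlCov.Gadget

/-!
# Chunk GC1: sectors and signs of the gadget graph

Sector of the vertices of a slot `s` = `c s`; sign = bit number `c s` of `g`.
`sgn`: `Nat.testBit (g ^^^ 6).val i = xor (Nat.testBit g i) (nu i 1)` etc. (`decide` over `g : Fin 8`, `i : Fin 3`).
`sec`, `sgn`, `wsg`, `hub` by cases on `GRel` (both directions).
-/

set_option autoImplicit false

namespace Pool.Agent.PlCov

variable {S T : Type}

/-- sectors -/
def gse (c : S → Fin 3) : GV S T → Fin 3
  | .hub _ _ => 0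
  | .w s _ => c s
  | .u s _ => c s
  | .v s _ => c s
  | .m s _ _ => c s

/-- signs -/
def gsi (c : S → Fin 3) : GV S T → Bool
  | .hub _ _ => false
  | .w _ _ => false
  | .u s g => Nat.testBit g.val (c s).val
  | .v s g => Nat.testBit g.val (c s).val
  | .m s g _ => Nat.testBit g.val (c s).val

theorem gc_bits : ∀ (i : Fin 3) (g : Fin 8),
    Nat.testBit (g ^^^ 6).val i.val = xor (Nat.testBit g.val i.val) (dl i.val 4 3) ∧
    Nat.testBit (g ^^^ 3).val i.val = xor (Nat.testBit g.val i.val) (dl i.val 6 3) ∧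
    Nat.testBit (g ^^^ 5).val i.val = xor (Nat.testBit g.val i.val) (dl i.val 9 3) := by decide

theorem gc_bit5 : ∀ i : Fin 3, Nat.testBit (5 : Fin 8).val i.val =
    xor (Nat.testBit (0 : Fin 8).val i.val) (dl i.val 9 3) := by decide

theorem gc_um : ∀ (i : Fin 3) (c : Fin 6), (c = 0 ∨ c = 1 ∨ c = 3) →
    dl i.val 2 (4 + c.val) = false := by decide

theorem gc_mm : ∀ (i : Fin 3) (c : Fin 6), (c = 1 ∨ c = 3 ∨ c = 4) →
    dl i.val (4 + c.val) (4 + (c + 1).val) = false := by decide

theorem gc_wu : ∀ (i : Fin 3) (k : Fin 4), Nat.testBit (Fin.ofNat 8 k.val).val i.val ≠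
    Nat.testBit (Fin.ofNat 8 (7 - k.val)).val i.val := by decide

theorem dl_symm (i a b : ℕ) : dl i a b = dl i b a := by
  unfold dl
  simp only [or_comm, and_comm]

theorem gse_eq {π : Equiv.Perm S} {hb : S → T} {c : S → Fin 3} (hc : ∀ s, c (π s) = c s)
    {x y : GV S T} (h : GRel π hb x y) (hx : gty x ≠ 0) : gse c x = gse c y := by
  cases h with
  | hw s k => exact absurd rfl hx
  | wu s k => rfl
  | wu' s k => rfl
  | uv s g => rfl
  | um s g c hc => rfl
  | mm s g c hc => rfl
  | mv0 s g => rfl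
  | mv2 s g => rfl
  | mv5 s g hg => rfl
  | mvπ s => exact (hc s).symm

theorem gsi_eq {π : Equiv.Perm S} {hb : S → T} {c : S → Fin 3} (hc : ∀ s, c (π s) = c s)
    {x y : GV S T} (h : GRel π hb x y) (hx : 2 ≤ gty x) :
    gsi c y = xor (gsi c x) (dl (gse c x) (gty x) (gty y)) := by
  cases h with
  | hw s k => exact absurd hx (by simp [gty])
  | wu s k => exact absurd hx (by simp [gty])
  | wu' s k => exact absurd hx (by simp [gty])
  | uv s g => simp [gsi, gty, dl]
  | um s g c' hc' =>
    show _ = xor _ (dl _ 2 (4 + c'.val))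
    rw [gc_um _ _ hc', Bool.xor_false]
    rfl
  | mm s g c' hc' =>
    show _ = xor _ (dl _ (4 + c'.val) (4 + (c' + 1).val))
    rw [gc_mm _ _ hc', Bool.xor_false]
    rfl
  | mv0 s g => exact (gc_bits _ g).1
  | mv2 s g => exact (gc_bits _ g).2.1
  | mv5 s g hg => exact (gc_bits _ g).2.2
  | mvπ s =>
    show Nat.testBit _ (c (π s)).val = _
    rw [hc s]
    exact gc_bit5 _

theorem sec_GG (π : Equiv.Perm S) (hb : S → T) (c : S → Fin 3) (hc : ∀ s, c (π s) = c s)
    (hr : ∀ s s', hb s = hb s' → s ≠ s' → c s ≠ c s') :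
    Sec (GG π hb) gty (gse c) (gsi c) := by
  refine ⟨?_, ?_, ?_, ?_⟩
  · rintro x y (h | h) hx hy
    · exact gse_eq hc h hx
    · exact (gse_eq hc h hy).symm
  · rintro x y (h | h) hx hy
    · exact gsi_eq hc h hx
    · have h1 := gsi_eq hc h hy
      have h2 := gse_eq hc h (by omega)
      rw [h1, dl_symm _ (gty x), h2, Bool.xor_assoc, Bool.xor_self, Bool.xor_false]
  · rintro x y z hx hxy hxz hy hz hne
    have key : ∀ {s : S} {k : Fin 4} {y : GV S T}, (GG π hb).Adj (.w s k) y → gty y = 2 →
        y = .u s (Fin.ofNat 8 k.val) ∨ y = .u s (Fin.ofNat 8 (7 - k.val)) := by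
      rintro s k y (h | h) hy
      · cases h with
        | wu s k => exact Or.inl rfl
        | wu' s k => exact Or.inr rfl
      · cases h with
        | hw s k => exact absurd hy (by simp [gty])
    rcases x with _ | ⟨s, k⟩ | _ | _ | ⟨_, _, c⟩
    · exact absurd hx (by simp [gty])
    · rcases key hxy hy with rfl | rfl <;> rcases key hxz hz with rfl | rfl
      · exact absurd rfl hne
      · exact gc_wu _ _
      · exact (gc_wu _ _).symm
      · exact absurd rfl hne
    · exact absurd hx (by simp [gty])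
    · exact absurd hx (by simp [gty])
    · exact absurd hx (by simp only [gty]; omega)
  · rintro x y z hx hxy hxz hne
    have key : ∀ {t : T} {k : Fin 4} {y : GV S T}, (GG π hb).Adj (.hub t k) y →
        ∃ s, hb s = t ∧ y = .w s k := by
      rintro t k y (h | h)
      · cases h with
        | hw s k => exact ⟨s, rfl, rfl⟩
      · cases h
    rcases x with ⟨t, k⟩ | _ | _ | _ | ⟨_, _, c⟩
    · obtain ⟨s, hs, rfl⟩ := key hxy
      obtain ⟨s', hs', rfl⟩ := key hxz
      refine hr s s' (hs.trans hs'.symm) ?_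
      rintro rfl
      exact hne rfl
    · exact absurd hx (by simp [gty])
    · exact absurd hx (by simp [gty])
    · exact absurd hx (by simp [gty])
    · exact absurd hx (by simp only [gty]; omega)

end Pool.Agent.PlCov
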