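import Pool.Agent.Lib.PlCov.Lift
import Pool.Agent.Lib.PlCov.GadGood
import Pool.Agent.Lib.PlCov.GadSec

/-!
# Chunk GC2: colourings and covers of the gadget graph

* `covers_GG`: by `locBij_of`.
* `colour_of_covers`: let `f` be locally bijective, `τ x = ty (f x)`: good by `good_of_locBij`, so
  `ty (f x) = gty x` (`typeOf_eq` twice). By `sec_of_locBij` the sector `se (f x)` is equal for adjacent vertices
  other than hubs. So it is constant on the vertices of a slot: `u s g` is connected to `v s g`, through `m s g 0` to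
  `v s (g ^^^ 6)`, through `m s g 1, m s g 2` to `v s (g ^^^ 3)`, and through `w s k` to `u s (7 - g)`; and `u s 0` is
  connected through `m s 0 3, m s 0 4, m s 0 5` to `v (π s) 5`. Let `c s = se (f (u s 0))`. The hub `hub t 0` gives
  the second property.
-/

set_option autoImplicit false

namespace Pool.Agent.PlCov

variable {S T : Type}

theorem covers_GG [Finite S] [Finite T] (π : Equiv.Perm S) (hb : S → T)
    (h3 : ∀ t, Set.ncard {s | hb s = t} = 3) (c : S → Fin 3) (hc : ∀ s, c (π s) = c s)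
    (hr : ∀ s s', hb s = hb s' → s ≠ s' → c s ≠ c s') : Covers (GG π hb) H :=
  ⟨_, locBij_of (good_GG π hb h3) (sec_GG π hb c hc hr)⟩

theorem colour_of_covers [Finite S] [Finite T] (π : Equiv.Perm S) (hb : S → T)
    (h3 : ∀ t, Set.ncard {s | hb s = t} = 3) (h : Covers (GG π hb) H) :
    ∃ c : S → Fin 3, (∀ s, c (π s) = c s) ∧ ∀ s s', hb s = hb s' → s ≠ s' → c s ≠ c s' := by
  obtain ⟨f, hf⟩ := h
  have hg := good_of_locBij hf
  have hs := sec_of_locBij hf
  have hty : ∀ x, ty (f x) = gty x := fun x =>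
    (typeOf_eq hg x).symm.trans (typeOf_eq (good_GG π hb h3) x)
  have hse : ∀ x y, GRel π hb x y → gty x ≠ 0 → gty y ≠ 0 → se (f x) = se (f y) := by
    intro x y hxy hx hy
    exact hs.sec x y (Or.inl hxy) (by simp only [hty]; exact hx) (by simp only [hty]; exact hy)
  have huv : ∀ s g, se (f (.u s g)) = se (f (.v s g)) := fun s g =>
    hse _ _ (.uv s g) (by simp [gty]) (by simp [gty])
  have h6 : ∀ s g, se (f (.u s g)) = se (f (.u s (g ^^^ 6))) := by
    intro s g
    rw [hse _ _ (.um s g 0 (by simp)) (by simp [gty]) (by simp [gty]),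
      hse _ _ (.mv0 s g) (by simp [gty]) (by simp [gty]), huv]
  have h3' : ∀ s g, se (f (.u s g)) = se (f (.u s (g ^^^ 3))) := by
    intro s g
    rw [hse _ _ (.um s g 1 (by simp)) (by simp [gty]) (by simp [gty]),
      hse _ _ (.mm s g 1 (by simp)) (by simp [gty]) (by simp [gty])]
    have e : (1 + 1 : Fin 6) = 2 := rfl
    rw [e, hse _ _ (.mv2 s g) (by simp [gty]) (by simp [gty]), huv]
  have hw : ∀ s (k : Fin 4), se (f (.w s k)) = se (f (.u s (Fin.ofNat 8 k.val))) := fun s k =>
    hse _ _ (.wu s k) (by simp [gty]) (by simp [gty])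
  have h5 : ∀ s, se (f (.u s 5)) = se (f (.u s 0)) := by
    intro s
    have e1 := h6 s 5
    have e2 := h3' s 3
    have e3 : (5 ^^^ 6 : Fin 8) = 3 := rfl
    have e4 : (3 ^^^ 3 : Fin 8) = 0 := rfl
    rw [e3] at e1
    rw [e4] at e2
    exact e1.trans e2
  have h50 : ∀ s, se (f (.u s 0)) = se (f (.u (π s) 5)) := by
    intro s
    have e1 : (3 + 1 : Fin 6) = 4 := rfl
    have e2 : (4 + 1 : Fin 6) = 5 := rfl
    rw [hse _ _ (.um s 0 3 (by simp)) (by simp [gty]) (by simp [gty]),
      hse _ _ (.mm s 0 3 (by simp)) (by simp [gty]) (by simp [gty]), e1,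
      hse _ _ (.mm s 0 4 (by simp)) (by simp [gty]) (by simp [gty]), e2,
      hse _ _ (.mvπ s) (by simp [gty]) (by simp [gty]), huv]
  refine ⟨fun s => se (f (.u s 0)), fun s => ?_, fun s s' hss hne => ?_⟩
  · exact ((h50 s).trans (h5 _)).symm
  · have e1 := hs.hub (.hub (hb s) 0) (.w s 0) (.w s' 0) (by simp only [hty]; rfl)
      (Or.inl (.hw s 0)) (by rw [hss]; exact Or.inl (.hw s' 0)) (by
        intro h
        injection h with h
        exact hne h)

    rw [hw s 0, hw s' 0] at e1
    exact e1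

end Pool.Agent.PlCov
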