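import Pool.Agent.Lib.PlCov.GadCode
import Pool.Agent.Lib.OOD.GraphPT

/-!
# Chunk CP: the reduction runs in polynomial time

`PT_encodeGraph` in `OOD.GraphPT`; `PT.divmod` in `PolyTime.More` for `/ 3`; `PT.find?`, `PT.getD`, `PT.take`,
`PT.drop`, `PT.product`, `PT.flatMap`, `PT.rangeLength`.
-/

set_option autoImplicit false

namespace Pool.Agent.PlCov

open Pool.Agent.PolyTime Pool.Agent.OOD

theorem PT_vars : PT vars :=
  PT.flatMap (f := fun (_ : List (ℕ × ℕ × ℕ)) (t : ℕ × ℕ × ℕ) => [t.1, t.2.1, t.2.2])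
    (by fun_prop) PT.id

theorem PT_nxt {α : Type} [Enc α] {L : α → List ℕ} {s : α → ℕ} (hL : PT L) (hs : PT s) :
    PT fun a => nxt (L a) (s a) := by
  unfold nxt
  refine PT.optGetD ?_ hs
  refine PT.find? (f := fun (a : α) (r : ℕ) => decide ((L a).getD r 0 = (L a).getD (s a) 0)) ?_ ?_
  · have h1 : PT fun p : α × ℕ => L p.1 := hL.comp PT.fst'
    have h2 : PT fun p : α × ℕ => s p.1 := hs.comp PT.fst'
    exact PT.decide_eq (by fun_prop) (by fun_prop)
  · fun_prop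

theorem PT_xr {α : Type} [Enc α] {g : α → ℕ} (a : ℕ) (hg : PT g) : PT fun x => xr a (g x) := by
  unfold xr
  by_cases h6 : a = 6
  · simp only [h6, if_true]
    fun_prop
  · by_cases h3 : a = 3
    · simp only [h3]
      norm_num
      fun_prop
    · simp only [h6, h3, if_false]
      fun_prop

theorem PT_gnames : PT gnames := by
  unfold gnames
  have hv := PT_vars
  have hr : PT fun T : List (ℕ × ℕ × ℕ) => List.range (vars T).length := by fun_prop
  refine PT.append ?_ (PT.append ?_ ?_)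
  · exact PT.map (f := fun (_ : List (ℕ × ℕ × ℕ)) (p : ℕ × ℕ) => (0, p.1, p.2)) (by fun_prop)
      (PT.product (by fun_prop) (by fun_prop))
  · exact PT.map (f := fun (_ : List (ℕ × ℕ × ℕ)) (p : ℕ × ℕ) => (1, p.1, p.2)) (by fun_prop)
      (PT.product (by fun_prop) (by fun_prop))
  · refine PT.flatMap (f := fun (T : List (ℕ × ℕ × ℕ)) (a : ℕ) =>
      (List.range (vars T).length ×ˢ List.range 8).map fun p => (a + 2, p.1, p.2)) ?_ (PT.const _)
    refine PT.map (f := fun (q : List (ℕ × ℕ × ℕ) × ℕ) (p : ℕ × ℕ) => (q.2 + 2, p.1, p.2))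
      (by fun_prop) (PT.product ?_ (PT.const _))
    exact hr.comp PT.fst'

theorem PT_gedges1 : PT gedges1 := by
  unfold gedges1
  have hv := PT_vars
  have hr : PT fun T : List (ℕ × ℕ × ℕ) => List.range (vars T).length := by fun_prop
  refine PT.append ?_ ?_
  · exact PT.flatMap (f := fun (_ : List (ℕ × ℕ × ℕ)) (p : ℕ × ℕ) =>
      [((0, p.1 / 3, p.2), (1, p.1, p.2)), ((1, p.1, p.2), (2, p.1, p.2)),
      ((1, p.1, p.2), (2, p.1, 7 - p.2))]) (by fun_prop) (PT.product hr (PT.const _))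
  · refine PT.flatMap (f := fun (T : List (ℕ × ℕ × ℕ)) (p : ℕ × ℕ) =>
      [((2, p.1, p.2), (3, p.1, p.2)), ((2, p.1, p.2), (4, p.1, p.2)),
       ((2, p.1, p.2), (5, p.1, p.2)), ((2, p.1, p.2), (7, p.1, p.2)),
       ((5, p.1, p.2), (6, p.1, p.2)), ((7, p.1, p.2), (8, p.1, p.2)),
       ((8, p.1, p.2), (9, p.1, p.2)), ((4, p.1, p.2), (3, p.1, xr 6 p.2)),
       ((6, p.1, p.2), (3, p.1, xr 3 p.2)),
       ((9, p.1, p.2), (3, (if p.2 = 0 then nxt (vars T) p.1 else p.1), xr 5 p.2))]) ?_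
      (PT.product hr (PT.const _))
    have h6 : PT fun q : List (ℕ × ℕ × ℕ) × ℕ × ℕ => xr 6 q.2.2 := PT_xr 6 (by fun_prop)
    have h3 : PT fun q : List (ℕ × ℕ × ℕ) × ℕ × ℕ => xr 3 q.2.2 := PT_xr 3 (by fun_prop)
    have h5 : PT fun q : List (ℕ × ℕ × ℕ) × ℕ × ℕ => xr 5 q.2.2 := PT_xr 5 (by fun_prop)
    have hn : PT fun q : List (ℕ × ℕ × ℕ) × ℕ × ℕ => nxt (vars q.1) q.2.1 :=
      PT_nxt (hv.comp PT.fst') (by fun_prop)
    have hi : PT fun q : List (ℕ × ℕ × ℕ) × ℕ × ℕ =>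
        if q.2.2 = 0 then nxt (vars q.1) q.2.1 else q.2.1 :=
      PT.ite (PT.decide_eq (by fun_prop) (by fun_prop)) hn (by fun_prop)
    fun_prop

theorem PT_gedges : PT gedges := by
  unfold gedges
  exact PT.append PT_gedges1 (PT.map (f := fun (_ : List (ℕ × ℕ × ℕ))
    (e : (ℕ × ℕ × ℕ) × (ℕ × ℕ × ℕ)) => (e.2, e.1)) (by fun_prop) PT_gedges1)

theorem PT_gG : PT fun T => encodeGraph (gG T) :=
  PT_encodeGraph PT_gnames PT_gedges (fun T => (gG T).2) (fun _ _ _ => Iff.rfl)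

end Pool.Agent.PlCov
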