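import Pool.Agent.Lib.PlCov.Base

/-!
# The gadget graph: definitions

`S` = the set of slots, `T` = the set of constraints, `hb : S → T` the constraint of a slot, `π` a permutation of the
slots (the slots of the same variable form a cycle).
`g : Fin 8` is a triple of bits; the bit `i` is the sign in the sector `i`. The label `j` adds `6, 3, 5` for
`j = 1, 2, 3` (`0` for `j = 0`): the bit `i` of these numbers is `nu i j`.
-/

set_option autoImplicit false

namespace Pool.Agent.PlCov

/-- vertices of the gadget graph -/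
inductive GV (S T : Type) : Type
  | hub (t : T) (k : Fin 4) : GV S T
  | w (s : S) (k : Fin 4) : GV S T
  | u (s : S) (g : Fin 8) : GV S T
  | v (s : S) (g : Fin 8) : GV S T
  | m (s : S) (g : Fin 8) (c : Fin 6) : GV S T
  deriving DecidableEq, Fintype

variable {S T : Type}

instance [Finite S] [Finite T] : Finite (GV S T) := by
  classical
  have := Fintype.ofFinite S
  have := Fintype.ofFinite T
  infer_instance

/-- the edges, each in one direction -/
inductive GRel (π : Equiv.Perm S) (hb : S → T) : GV S T → GV S T → Prop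
  | hw (s : S) (k : Fin 4) : GRel π hb (.hub (hb s) k) (.w s k)
  | wu (s : S) (k : Fin 4) : GRel π hb (.w s k) (.u s (Fin.ofNat 8 k.val))
  | wu' (s : S) (k : Fin 4) : GRel π hb (.w s k) (.u s (Fin.ofNat 8 (7 - k.val)))
  | uv (s : S) (g : Fin 8) : GRel π hb (.u s g) (.v s g)
  | um (s : S) (g : Fin 8) (c : Fin 6) (hc : c = 0 ∨ c = 1 ∨ c = 3) : GRel π hb (.u s g) (.m s g c)
  | mm (s : S) (g : Fin 8) (c : Fin 6) (hc : c = 1 ∨ c = 3 ∨ c = 4) :
      GRel π hb (.m s g c) (.m s g (c + 1))
  | mv0 (s : S) (g : Fin 8) : GRel π hb (.m s g 0) (.v s (g ^^^ 6))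
  | mv2 (s : S) (g : Fin 8) : GRel π hb (.m s g 2) (.v s (g ^^^ 3))
  | mv5 (s : S) (g : Fin 8) (hg : g ≠ 0) : GRel π hb (.m s g 5) (.v s (g ^^^ 5))
  | mvπ (s : S) : GRel π hb (.m s 0 5) (.v (π s) 5)

/-- types of the vertices of the gadget graph -/
def gty : GV S T → ℕ
  | .hub _ _ => 0
  | .w _ _ => 1
  | .u _ _ => 2
  | .v _ _ => 3
  | .m _ _ c => 4 + c.val

lemma GRel.gty_ne {π : Equiv.Perm S} {hb : S → T} {x y : GV S T} (h : GRel π hb x y) :
    gty x ≠ gty y := by
  cases h with
  | hw s k => simp [gty]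
  | wu s k => simp [gty]
  | wu' s k => simp [gty]
  | uv s g => simp [gty]
  | um s g c hc => simp only [gty]; omega
  | mm s g c hc =>
    simp only [gty]
    revert hc
    revert c
    decide
  | mv0 s g => simp [gty]
  | mv2 s g => simp [gty]
  | mv5 s g hg => simp [gty]
  | mvπ s => simp [gty]

/-- the gadget graph -/
def GG (π : Equiv.Perm S) (hb : S → T) : SimpleGraph (GV S T) where
  Adj x y := GRel π hb x y ∨ GRel π hb y x
  symm := ⟨fun _ _ h => h.symm⟩
  loopless := ⟨fun _ h => h.elim (fun h => h.gty_ne rfl) fun h => h.gty_ne rfl⟩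

end Pool.Agent.PlCov
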