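import Pool.Agent.Lib.PlCov.Defs
import Pool.Agent.Lib.OOD.GraphParse

/-!
# Chunk NP: COVER(K) is in NP for every finite graph `K`

Certificate for a map `f : Fin n → K` (number the vertices of `K` by `Fin m`): a word of length `n m`, the bit
`u m + h` says `f u = h`; value read: the first `h` with this bit (`List.find?` on `List.range m`, default 0).
Test: adjacent vertices have adjacent values (table of `K` as a constant list), different neighbours of a
vertex have different values, and for each `u < n` and each neighbour `h` of `f u` some neighbour of `u` has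
value `h`. This is equivalent to `LocBij` (the closed
neighbourhoods: `K` has no loops). If `K` has no vertices: then `n = 0` is the only cover (treated separately).
-/

set_option autoImplicit false

namespace Pool.Agent.PlCov

open Pool.Agent.PolyTime Pool.Agent.OOD Pool.Agent.Lib.CookLevin

/-- the value at `u` given by a certificate -/
def npv (m : ℕ) (y : List Bool) (u : ℕ) : ℕ :=
  ((List.range m).find? fun h => bit y (u * m + h)).getD 0

lemma npv_lt {m : ℕ} (hm : 0 < m) (y : List Bool) (u : ℕ) : npv m y u < m := by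
  unfold npv
  cases h : (List.range m).find? fun h => bit y (u * m + h) with
  | none => simpa using hm
  | some a =>
    rw [List.find?_range_eq_some] at h
    simpa using List.mem_range.1 h.2.1

lemma PT_npv (m : ℕ) {α : Type*} [Enc α] {y : α → List Bool} {u : α → ℕ} (hy : PT y)
    (hu : PT u) : PT fun a => npv m (y a) (u a) := by
  refine PT.optGetD (PT.find? (f := fun (a : α) (h : ℕ) => bit (y a) (u a * m + h)) ?_
    (PT.const (List.range m))) (PT.const 0)
  exact PT.bit (hy.comp PT.fst') (PT.add (PT.mul (hu.comp PT.fst') (PT.const m)) PT.snd')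

/-- the test: homomorphism -/
def npHom (m : ℕ) (E : List (ℕ × ℕ)) (p : List Bool × List Bool) : Bool :=
  (gpairs p.1).all fun e => !gadj p.1 e.1 e.2 || decide ((npv m p.2 e.1, npv m p.2 e.2) ∈ E)

/-- the test: locally injective -/
def npInj (m : ℕ) (p : List Bool × List Bool) : Bool :=
  (List.range (gn p.1)).all fun u => (gpairs p.1).all fun e =>
    !(gadj p.1 u e.1 && (gadj p.1 u e.2 && decide (npv m p.2 e.1 = npv m p.2 e.2))) ||
      decide (e.1 = e.2)

/-- the test: locally surjective -/
def npSur (m : ℕ) (E : List (ℕ × ℕ)) (p : List Bool × List Bool) : Bool :=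
  (List.range (gn p.1)).all fun u => E.all fun e => !decide (e.1 = npv m p.2 u) ||
    (List.range (gn p.1)).any fun v => gadj p.1 u v && decide (npv m p.2 v = e.2)

/-- the verifier -/
def npVerify (m : ℕ) (E : List (ℕ × ℕ)) (p : List Bool × List Bool) : Bool :=
  isGraph p.1 && (npHom m E p && (npInj m p && npSur m E p))

lemma PT_npHom (m : ℕ) (E : List (ℕ × ℕ)) : PT (npHom m E) := by
  refine PT.all (f := fun (p : List Bool × List Bool) (e : ℕ × ℕ) =>
    !gadj p.1 e.1 e.2 || decide ((npv m p.2 e.1, npv m p.2 e.2) ∈ E)) ?_ (PT_gpairs PT.fst')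
  refine PT.or (PT.not (PT_gadj (by fun_prop) (by fun_prop) (by fun_prop))) ((PT.mem
    (f := fun q : (List Bool × List Bool) × ℕ × ℕ => (npv m q.1.2 q.2.1, npv m q.1.2 q.2.2))
    ?_ (PT.const E)).congr fun q => decide_eq_decide.2 Iff.rfl)
  exact PT.pair (PT_npv m (by fun_prop) (by fun_prop)) (PT_npv m (by fun_prop) (by fun_prop))

lemma PT_npInj (m : ℕ) : PT (npInj m) := by
  refine PT.all (f := fun (p : List Bool × List Bool) (u : ℕ) => (gpairs p.1).all fun e =>
    !(gadj p.1 u e.1 && (gadj p.1 u e.2 && decide (npv m p.2 e.1 = npv m p.2 e.2))) ||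
      decide (e.1 = e.2)) ?_ (PT_grange PT.fst')
  refine PT.all (f := fun (q : (List Bool × List Bool) × ℕ) (e : ℕ × ℕ) =>
    !(gadj q.1.1 q.2 e.1 && (gadj q.1.1 q.2 e.2 &&
      decide (npv m q.1.2 e.1 = npv m q.1.2 e.2))) ||
      decide (e.1 = e.2)) ?_ (PT_gpairs (by fun_prop))
  refine PT.or (PT.not (PT.and (PT_gadj (by fun_prop) (by fun_prop) (by fun_prop)) (PT.and
    (PT_gadj (by fun_prop) (by fun_prop) (by fun_prop)) (PT.decide_eq
      (PT_npv m (by fun_prop) (by fun_prop)) (PT_npv m (by fun_prop) (by fun_prop))))))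
    (PT.decide_eq (by fun_prop) (by fun_prop))

lemma PT_npSur (m : ℕ) (E : List (ℕ × ℕ)) : PT (npSur m E) := by
  refine PT.all (f := fun (p : List Bool × List Bool) (u : ℕ) => E.all fun e =>
    !decide (e.1 = npv m p.2 u) ||
    (List.range (gn p.1)).any fun v => gadj p.1 u v && decide (npv m p.2 v = e.2)) ?_
    (PT_grange PT.fst')
  refine PT.all (f := fun (q : (List Bool × List Bool) × ℕ) (e : ℕ × ℕ) =>
    !decide (e.1 = npv m q.1.2 q.2) ||
    (List.range (gn q.1.1)).any fun v => gadj q.1.1 q.2 v && decide (npv m q.1.2 v = e.2)) ?_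
    (PT.const E)
  refine PT.or (PT.not (PT.decide_eq (by fun_prop) (PT_npv m (by fun_prop) (by fun_prop)))) ?_
  refine PT.any (f := fun (q : ((List Bool × List Bool) × ℕ) × ℕ × ℕ) (v : ℕ) =>
    gadj q.1.1.1 q.1.2 v && decide (npv m q.1.1.2 v = q.2.2)) ?_ (PT_grange (by fun_prop))
  exact PT.and (PT_gadj (by fun_prop) (by fun_prop) (by fun_prop))
    (PT.decide_eq (PT_npv m (by fun_prop) (by fun_prop)) (by fun_prop))

lemma PT_npVerify (m : ℕ) (E : List (ℕ × ℕ)) : PT (npVerify m E) :=
  PT.and (PT_isGraph.comp PT.fst') (PT.and (PT_npHom m E) (PT.and (PT_npInj m) (PT_npSur m E)))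

section

variable {W : Type} {m : ℕ}

open Classical in
/-- the table of the edges of `K` -/
noncomputable def npE (K : SimpleGraph W) (e : W ≃ Fin m) : List (ℕ × ℕ) :=
  ((List.finRange m ×ˢ List.finRange m).filter
    fun p => decide (K.Adj (e.symm p.1) (e.symm p.2))).map fun p => (p.1.1, p.2.1)

lemma mem_npE (K : SimpleGraph W) (e : W ≃ Fin m) (a b : ℕ) :
    (a, b) ∈ npE K e ↔ ∃ (ha : a < m) (hb : b < m), K.Adj (e.symm ⟨a, ha⟩) (e.symm ⟨b, hb⟩) := by
  unfold npE
  simp only [List.mem_map, List.mem_filter, List.mem_product, List.mem_finRange, true_and,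
    decide_eq_true_eq, Prod.mk.injEq, Prod.exists]
  constructor
  · rintro ⟨x, y, h, rfl, rfl⟩
    exact ⟨x.2, y.2, h⟩
  · rintro ⟨ha, hb, h⟩
    exact ⟨⟨a, ha⟩, ⟨b, hb⟩, h, rfl, rfl⟩

/-- the map given by a certificate -/
def npMap (e : W ≃ Fin m) (hm : 0 < m) (n : ℕ) (y : List Bool) (u : Fin n) : W :=
  e.symm ⟨npv m y u, npv_lt hm y u⟩

lemma npMap_eq_iff (e : W ≃ Fin m) (hm : 0 < m) (n : ℕ) (y : List Bool) (u v : Fin n) :
    npMap e hm n y u = npMap e hm n y v ↔ npv m y u = npv m y v := by
  unfold npMap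
  rw [e.symm.injective.eq_iff, Fin.mk.injEq]

/-- reformulation of `LocBij` -/
lemma locBij_iff {V : Type} (G : SimpleGraph V) (K : SimpleGraph W) (f : V → W) :
    LocBij G K f ↔ (∀ x y, G.Adj x y → K.Adj (f x) (f y)) ∧
      (∀ x y z, G.Adj x y → G.Adj x z → f y = f z → y = z) ∧
      ∀ x k, K.Adj (f x) k → ∃ y, G.Adj x y ∧ f y = k := by
  constructor
  · rintro ⟨h1, h2⟩
    refine ⟨h1, ?_, ?_⟩
    · intro x y z hy hz h
      exact (h2 x).injOn (Set.mem_insert_of_mem _ hy) (Set.mem_insert_of_mem _ hz) h
    · intro x k hk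
      obtain ⟨y, hy, rfl⟩ := (h2 x).surjOn (Set.mem_insert_of_mem _ hk)
      rcases hy with rfl | hy
      · exact absurd hk (K.loopless.irrefl _)
      · exact ⟨y, hy, rfl⟩
  · rintro ⟨h1, h2, h3⟩
    refine ⟨h1, fun x => ⟨?_, ?_, ?_⟩⟩
    · rintro y (rfl | hy)
      · exact Set.mem_insert _ _
      · exact Set.mem_insert_of_mem _ (h1 x y hy)
    · rintro y hy z hz h
      rcases hy with rfl | hy
      · rcases hz with rfl | hz
        · rfl
        · exact absurd h (h1 _ _ hz).ne
      · rcases hz with rfl | hz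
        · exact absurd h.symm (h1 _ _ hy).ne
        · exact h2 x y z hy hz h
    · rintro k (rfl | hk)
      · exact ⟨x, Set.mem_insert _ _, rfl⟩
      · obtain ⟨y, hy, rfl⟩ := h3 x k hk
        exact ⟨y, Set.mem_insert_of_mem _ hy, rfl⟩

/-- The verifier accepts if and only if the certificate gives a cover. -/
lemma npVerify_iff (K : SimpleGraph W) (e : W ≃ Fin m) (hm : 0 < m)
    (G : Σ n, SimpleGraph (Fin n)) (y : List Bool) :
    npVerify m (npE K e) (encodeGraph G, y) = true ↔ LocBij G.2 K (npMap e hm G.1 y) := by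
  classical
  have hadj : ∀ (u v : ℕ) (hu : u < G.1) (hv : v < G.1),
      gadj (encodeGraph G) u v = decide (G.2.Adj ⟨u, hu⟩ ⟨v, hv⟩) := fun u v hu hv =>
    gadj_encodeGraph G ⟨u, hu⟩ ⟨v, hv⟩
  rw [locBij_iff, npVerify, Bool.and_eq_true, Bool.and_eq_true, Bool.and_eq_true]
  simp only [isGraph_encodeGraph, true_and]
  refine and_congr ?_ (and_congr ?_ ?_)
  · rw [npHom, List.all_eq_true]
    simp only [gpairs, gn_encodeGraph]
    constructor
    · intro h a b hab
      have h1 := h (a.1, b.1) (by
        rw [List.mem_product, List.mem_range, List.mem_range]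
        exact ⟨a.2, b.2⟩)
      rw [gadj_encodeGraph] at h1
      simp only [hab, decide_true, Bool.not_true, Bool.false_or, decide_eq_true_eq] at h1
      rw [mem_npE] at h1
      obtain ⟨_, _, h2⟩ := h1
      exact h2
    · rintro h ⟨a, b⟩ hab
      rw [List.mem_product, List.mem_range, List.mem_range] at hab
      simp only [hadj a b hab.1 hab.2, Bool.or_eq_true, Bool.not_eq_true', decide_eq_false_iff_not,
        decide_eq_true_eq]
      by_cases h5 : G.2.Adj ⟨a, hab.1⟩ ⟨b, hab.2⟩
      · right
        rw [mem_npE]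
        exact ⟨_, _, h _ _ h5⟩
      · exact Or.inl h5
  · rw [npInj, List.all_eq_true]
    simp only [List.all_eq_true, gpairs, gn_encodeGraph, npMap_eq_iff]
    constructor
    · intro h x y' z hy hz hyz
      have h1 := h x.1 (List.mem_range.2 x.2) (y'.1, z.1) (by
        rw [List.mem_product, List.mem_range, List.mem_range]
        exact ⟨y'.2, z.2⟩)
      rw [gadj_encodeGraph, gadj_encodeGraph] at h1
      simp only [hy, hz, hyz, decide_true, Bool.and_true, Bool.not_true, Bool.false_or,
        decide_eq_true_eq] at h1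
      exact Fin.ext h1
    · rintro h x hx ⟨a, b⟩ hab
      rw [List.mem_range] at hx
      rw [List.mem_product, List.mem_range, List.mem_range] at hab
      simp only [hadj x a hx hab.1, hadj x b hx hab.2, Bool.or_eq_true, Bool.not_eq_true',
        Bool.and_eq_false_iff, decide_eq_false_iff_not, decide_eq_true_eq]
      by_cases h1 : G.2.Adj ⟨x, hx⟩ ⟨a, hab.1⟩
      · by_cases h2 : G.2.Adj ⟨x, hx⟩ ⟨b, hab.2⟩
        · by_cases h3 : npv m y a = npv m y b
          · right
            have h4 := h _ _ _ h1 h2 h3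
            simpa using h4
          · exact Or.inl (Or.inr (Or.inr h3))
        · exact Or.inl (Or.inr (Or.inl h2))
      · exact Or.inl (Or.inl h1)
  · rw [npSur, List.all_eq_true]
    simp only [List.all_eq_true, gn_encodeGraph]
    constructor
    · intro h x k hk
      have h1 := h x.1 (List.mem_range.2 x.2) (npv m y x, (e k).1) (by
        rw [mem_npE]
        refine ⟨npv_lt hm y x, (e k).2, ?_⟩
        rw [Fin.eta, e.symm_apply_apply]
        exact hk)
      simp only [decide_true, Bool.not_true, Bool.false_or, List.any_eq_true, Bool.and_eq_true,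
        decide_eq_true_eq, List.mem_range] at h1
      obtain ⟨v, hv, h2, h3⟩ := h1
      rw [hadj x.1 v x.2 hv, decide_eq_true_eq] at h2
      refine ⟨⟨v, hv⟩, h2, ?_⟩
      unfold npMap
      have h4 : (⟨npv m y v, npv_lt hm y v⟩ : Fin m) = e k := Fin.ext h3
      show e.symm ⟨npv m y v, npv_lt hm y v⟩ = k
      rw [h4, e.symm_apply_apply]
    · rintro h x hx ⟨a, b⟩ hab
      rw [List.mem_range] at hx
      rw [mem_npE] at hab
      obtain ⟨ha, hb, hab⟩ := hab
      simp only [Bool.or_eq_true, Bool.not_eq_true', decide_eq_false_iff_not, List.any_eq_true,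
        Bool.and_eq_true, decide_eq_true_eq, List.mem_range]
      by_cases h1 : a = npv m y x
      · right
        subst h1
        obtain ⟨v, hv, h2⟩ := h ⟨x, hx⟩ _ hab
        refine ⟨v.1, v.2, ?_, ?_⟩
        · rw [hadj x v.1 hx v.2, decide_eq_true_eq]
          exact hv
        · unfold npMap at h2
          have h3 := e.symm.injective h2
          exact congrArg Fin.val h3
      · exact Or.inl h1

/-- the certificate of a map -/
def npCert {n : ℕ} (f : Fin n → Fin m) : List Bool :=
  List.ofFn fun i : Fin (n * m) => decide ((f i.divNat).1 = i.modNat.1)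

lemma npv_npCert {n : ℕ} (f : Fin n → Fin m) (u : Fin n) : npv m (npCert f) u = (f u).1 := by
  have hbit : ∀ h < m, bit (npCert f) (u.1 * m + h) = decide ((f u).1 = h) := by
    intro h hh
    have hlt : u.1 * m + h < n * m := by
      calc u.1 * m + h < u.1 * m + m := by omega
        _ = (u.1 + 1) * m := by ring
        _ ≤ n * m := Nat.mul_le_mul_right m u.2
    rw [bit_eq_getElem (by rw [npCert, List.length_ofFn]; exact hlt)]
    simp only [npCert, List.getElem_ofFn]
    have h1 : (⟨u.1 * m + h, hlt⟩ : Fin (n * m)).divNat = u := by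
      apply Fin.ext
      rw [Fin.coe_divNat]
      show (u.1 * m + h) / m = u.1
      rw [mul_comm, Nat.mul_add_div (by omega), Nat.div_eq_of_lt hh, add_zero]
    have h2 : (⟨u.1 * m + h, hlt⟩ : Fin (n * m)).modNat.1 = h := by
      rw [Fin.coe_modNat]
      show (u.1 * m + h) % m = h
      rw [mul_comm, Nat.mul_add_mod, Nat.mod_eq_of_lt hh]
    rw [h1, h2]
  have h1 : ((List.range m).find? fun h => bit (npCert f) (u.1 * m + h)) = some (f u).1 := by
    rw [List.find?_range_eq_some]
    refine ⟨?_, List.mem_range.2 (f u).2, ?_⟩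
    · rw [hbit _ (f u).2]
      simp
    · intro j hj
      rw [hbit j (by have := (f u).2; omega)]
      have h2 : ¬ (f u).1 = j := by omega
      simp [h2]
  rw [npv, h1]
  rfl

end

/-- the case of the empty graph -/
lemma inNP_coverLang_empty {W : Type} [IsEmpty W] (K : SimpleGraph W) : InNP (CoverLang K) := by
  refine ⟨0, fun p => isGraph p.1 && decide (gn p.1 = 0), PT.tmPair
    (PT.and (PT_isGraph.comp PT.fst') (PT.decide_eq (PT_gn.comp PT.fst') (PT.const 0))),
    fun w => ?_⟩
  constructor
  · rintro ⟨G, rfl, f, hf⟩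
    refine ⟨[], by simp, ?_⟩
    simp only [isGraph_encodeGraph, gn_encodeGraph, Bool.true_and, decide_eq_true_eq]
    by_contra h
    exact IsEmpty.false (f ⟨0, Nat.pos_of_ne_zero h⟩)
  · rintro ⟨y, _, hy⟩
    simp only [Bool.and_eq_true, decide_eq_true_eq] at hy
    have h2 := encodeGraph_graphOf w hy.1
    have : IsEmpty (Fin (gn w)) := by
      rw [hy.2]
      infer_instance
    refine ⟨⟨gn w, graphOf w hy.1⟩, h2.symm, fun u => isEmptyElim u, ?_⟩
    exact ⟨fun x => isEmptyElim x, fun x => isEmptyElim x⟩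

theorem inNP_coverLang {W : Type} [Finite W] (K : SimpleGraph W) : InNP (CoverLang K) := by
  rcases isEmpty_or_nonempty W with hW | hW
  · exact inNP_coverLang_empty K
  obtain ⟨m, ⟨e⟩⟩ := Finite.exists_equiv_fin W
  have hm : 0 < m := by
    obtain ⟨x⟩ := hW
    exact lt_of_le_of_lt (Nat.zero_le _) (e x).2
  refine ⟨Polynomial.C m * Polynomial.X, npVerify m (npE K e), PT.tmPair (PT_npVerify m _),
    fun w => ?_⟩
  constructor
  · rintro ⟨G, rfl, f, hf⟩
    refine ⟨npCert fun u => e (f u), ?_, ?_⟩
    · have h1 : G.1 ≤ (encodeGraph G).length := by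
        rw [encodeGraph, List.length_append, List.length_replicate]
        omega
      simp only [npCert, List.length_ofFn, Polynomial.eval_mul, Polynomial.eval_C,
        Polynomial.eval_X]
      rw [mul_comm]
      exact Nat.mul_le_mul_left m h1
    · rw [npVerify_iff K e hm]
      have h2 : npMap e hm G.1 (npCert fun u => e (f u)) = f := by
        funext u
        unfold npMap
        have h3 : (⟨npv m (npCert fun u => e (f u)) u, npv_lt hm _ _⟩ : Fin m) = e (f u) :=
          Fin.ext (npv_npCert (fun u => e (f u)) u)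
        rw [h3, e.symm_apply_apply]
      rw [h2]
      exact hf
  · rintro ⟨y, _, hy⟩
    have h1 : isGraph w = true := by
      rw [npVerify, Bool.and_eq_true] at hy
      exact hy.1
    have h2 := encodeGraph_graphOf w h1
    refine ⟨⟨gn w, graphOf w h1⟩, h2.symm, npMap e hm (gn w) y, ?_⟩
    rw [← h2] at hy
    exact (npVerify_iff K e hm _ _).1 hy

end Pool.Agent.PlCov
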