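import Pool.Agent.Lib.PlCov.Defs
import Pool.Agent.Lib.OOD.GraphParse

/-!
# Chunk IS: isomorphic graphs

Covers and planarity are invariant under isomorphisms; graphs with the same word are equal
(`encodeGraph_injective`: copy the proof from `Results/MP_107624_lc/MaximalPlanarHard.lean`).
`isPlanar_iso`: transport the rotation system: `G.Dart ≃ G'.Dart`, the face permutations are conjugate, and all
the cardinalities agree (`Nat.card_congr`).
-/

set_option autoImplicit false

namespace Pool.Agent.PlCov

open Pool.Agent.Lib.CookLevin Pool.Agent.OOD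

theorem covers_iso {V V' W : Type} {G : SimpleGraph V} {G' : SimpleGraph V'} (e : G ≃g G')
    {K : SimpleGraph W} (h : Covers G' K) : Covers G K := by
  obtain ⟨f, h1, h2⟩ := h
  refine ⟨fun x => f (e x), fun x y hxy => h1 _ _ (e.map_adj_iff.2 hxy), fun x => ?_⟩
  have h3 : Set.BijOn e (insert x (G.neighborSet x)) (insert (e x) (G'.neighborSet (e x))) := by
    refine ⟨?_, e.injective.injOn, ?_⟩
    · intro y hy
      rcases hy with rfl | hy
      · exact Set.mem_insert _ _
      · exact Set.mem_insert_of_mem _ (e.map_adj_iff.2 hy)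
    · intro y hy
      rcases hy with rfl | hy
      · exact ⟨x, Set.mem_insert _ _, rfl⟩
      · refine ⟨e.symm y, Set.mem_insert_of_mem _ ?_, e.apply_symm_apply y⟩
        have h4 : G'.Adj (e x) (e (e.symm y)) := by
          rw [e.apply_symm_apply]
          exact hy
        exact e.map_adj_iff.1 h4
  exact (h2 (e x)).comp h3

theorem covers_self {W : Type} (K : SimpleGraph W) : Covers K K :=
  ⟨fun x => x, fun _ _ h => h, fun x => Set.bijOn_id _⟩

/-- the darts of isomorphic graphs -/
private def isDart {V V' : Type} {G : SimpleGraph V} {G' : SimpleGraph V'} (e : G ≃g G') :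
    G.Dart ≃ G'.Dart where
  toFun d := ⟨(e d.fst, e d.snd), e.map_adj_iff.2 d.adj⟩
  invFun d := ⟨(e.symm d.fst, e.symm d.snd), e.symm.map_adj_iff.2 d.adj⟩
  left_inv d := by
    apply SimpleGraph.Dart.ext
    exact Prod.ext (e.symm_apply_apply d.fst) (e.symm_apply_apply d.snd)
  right_inv d := by
    apply SimpleGraph.Dart.ext
    exact Prod.ext (e.apply_symm_apply d.fst) (e.apply_symm_apply d.snd)

private theorem is_fst {V V' : Type} {G : SimpleGraph V} {G' : SimpleGraph V'} (e : G ≃g G')
    (d : G.Dart) : (isDart e d).fst = e d.fst := rfl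

private theorem is_symm {V V' : Type} {G : SimpleGraph V} {G' : SimpleGraph V'} (e : G ≃g G')
    (d : G.Dart) : (isDart e d).symm = isDart e d.symm := rfl

private theorem is_conj {A B : Type} (D : A ≃ B) (s : Equiv.Perm A) (k : ℤ) (a : A) :
    ((D.permCongr s) ^ k) (D a) = D ((s ^ k) a) := by
  have h1 : (D.permCongrHom s) ^ k = D.permCongrHom (s ^ k) := (map_zpow _ _ _).symm
  have h2 : D.permCongrHom s = D.permCongr s := by rw [Equiv.permCongrHom_coe]
  rw [← h2, h1, Equiv.permCongrHom_coe, Equiv.permCongr_apply, Equiv.symm_apply_apply]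

private theorem is_same {A B : Type} (D : A ≃ B) (s : Equiv.Perm A) (a b : A) :
    (D.permCongr s).SameCycle (D a) (D b) ↔ s.SameCycle a b := by
  constructor
  · rintro ⟨k, hk⟩
    rw [is_conj] at hk
    exact ⟨k, D.injective hk⟩
  · rintro ⟨k, hk⟩
    exact ⟨k, by rw [is_conj, hk]⟩

theorem isPlanar_iso {V V' : Type} {G : SimpleGraph V} {G' : SimpleGraph V'} (e : G ≃g G')
    (h : IsPlanar G) : IsPlanar G' := by
  obtain ⟨R, hR⟩ := h
  let D := isDart e
  let R' : RotationSystem G' :=
    { rot := D.permCongr R.rot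
      rot_fst := by
        intro d
        obtain ⟨d, rfl⟩ := D.surjective d
        rw [Equiv.permCongr_apply, Equiv.symm_apply_apply]
        show e (R.rot d).fst = e d.fst
        rw [R.rot_fst]
      rot_trans := by
        intro d d' h
        obtain ⟨d, rfl⟩ := D.surjective d
        obtain ⟨d', rfl⟩ := D.surjective d'
        rw [is_same]
        exact R.rot_trans d d' (e.injective h) }
  have hface : R'.face = D.permCongr R.face := by
    ext1 d
    obtain ⟨d, rfl⟩ := D.surjective d
    rw [Equiv.permCongr_apply, Equiv.symm_apply_apply, R'.face_apply, R.face_apply]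
    show D.permCongr R.rot (D d).symm = _
    have h1 : (D d).symm = D d.symm := is_symm e d
    rw [h1, Equiv.permCongr_apply, Equiv.symm_apply_apply]
  refine ⟨R', ?_⟩
  have c1 : Nat.card V = Nat.card V' := Nat.card_congr e.toEquiv
  have c2 : R.numFaces = R'.numFaces := by
    unfold RotationSystem.numFaces
    refine Nat.card_congr (Quotient.congr D ?_)
    intro a b
    show R.face.SameCycle a b ↔ R'.face.SameCycle (D a) (D b)
    rw [hface, is_same]
  have c3 : Nat.card {v : V // ∀ w, ¬ G.Adj v w} = Nat.card {v : V' // ∀ w, ¬ G'.Adj v w} := by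
    refine Nat.card_congr (e.toEquiv.subtypeEquiv ?_)
    intro v
    constructor
    · intro h w hw
      refine h (e.symm w) ?_
      have h4 : G'.Adj (e v) (e (e.symm w)) := by
        rw [e.apply_symm_apply]
        exact hw
      exact e.map_adj_iff.1 h4
    · intro h w hw
      exact h (e w) (e.map_adj_iff.2 hw)
  have c4 : Nat.card G.edgeSet = Nat.card G'.edgeSet := Nat.card_congr e.mapEdgeSet
  have c5 : Nat.card G.ConnectedComponent = Nat.card G'.ConnectedComponent :=
    Nat.card_congr e.connectedComponentEquiv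
  rw [← c1, ← c2, ← c3, ← c4, ← c5]
  exact hR

theorem encodeGraph_injective {G K : Σ n, SimpleGraph (Fin n)}
    (h : encodeGraph G = encodeGraph K) : G = K := by
  obtain ⟨n, G⟩ := G
  obtain ⟨m, H⟩ := K
  have h1 := gn_encodeGraph ⟨n, G⟩
  rw [h, gn_encodeGraph ⟨m, H⟩] at h1
  simp only at h1
  subst h1
  congr 1
  ext u v
  have h2 := gadj_encodeGraph ⟨m, G⟩ u v
  rw [h, gadj_encodeGraph ⟨m, H⟩] at h2
  simpa using h2.symm

end Pool.Agent.PlCov
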