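import Pool.Agent.Lib.PlCov.Types

/-!
# Chunk LI: locally bijective maps = types + sectors + signs

* `locBij_of`: `f x = mkH (τ x) (α x) (σ x)` is locally bijective if `τ` is good and `Sec G τ α σ`.
* `sec_of_locBij`: conversely. `sgn`: cases on the edges of `H`; `wsg`, `hub`: injectivity of `f` on the closed
  neighbourhood.
-/

set_option autoImplicit false
set_option maxRecDepth 100000

namespace Pool.Agent.PlCov

variable {V : Type}

theorem ty_mkH : ∀ t < 10, ∀ (i : Fin 3) (s : Bool), ty (mkH t i s) = t := by decide +kernel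

theorem se_mkH : ∀ t < 10, t ≠ 0 → ∀ (i : Fin 3) (s : Bool), se (mkH t i s) = i := by
  decide +kernel

theorem si_mkH : ∀ t < 10, 2 ≤ t → ∀ (i : Fin 3) (s : Bool), si (mkH t i s) = s := by
  decide +kernel

theorem adj_mkH' : ∀ (a b : Fin 10) (i j : Fin 3) (s t : Bool), 0 < mat a.val b.val →
    (a.val = 0 ∨ b.val = 0 ∨ i = j) → (a.val < 2 ∨ b.val < 2 ∨ t = xor s (dl i a.val b.val)) →
    H.Adj (mkH a.val i s) (mkH b.val j t) := by decide +kernel

theorem adj_mkH (a : ℕ) (ha : a < 10) (b : ℕ) (hb : b < 10) (hm : 0 < mat a b) (i j : Fin 3)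
    (s t : Bool) (h1 : a ≠ 0 → b ≠ 0 → i = j) (h2 : 2 ≤ a → 2 ≤ b → t = xor s (dl i a b)) :
    H.Adj (mkH a i s) (mkH b j t) := by
  refine adj_mkH' ⟨a, ha⟩ ⟨b, hb⟩ i j s t hm ?_ ?_
  · by_cases h3 : a = 0
    · exact Or.inl h3
    · by_cases h4 : b = 0
      · exact Or.inr (Or.inl h4)
      · exact Or.inr (Or.inr (h1 h3 h4))
  · by_cases h3 : a < 2
    · exact Or.inl h3
    · by_cases h4 : b < 2
      · exact Or.inr (Or.inl h4)
      · exact Or.inr (Or.inr (h2 (by omega) (by omega)))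

theorem mat_two : ∀ a < 10, ∀ b < 10, 1 < mat a b → (a = 0 ∧ b = 1) ∨ (a = 1 ∧ b = 2) := by
  decide

theorem mkH_eta : ∀ p : HV, mkH (ty p) (se p) (si p) = p := by decide +kernel

theorem adj_se : ∀ p q : HV, H.Adj p q → ty p ≠ 0 → ty q ≠ 0 → se p = se q := by decide +kernel

theorem adj_si : ∀ p q : HV, H.Adj p q → 2 ≤ ty p → 2 ≤ ty q →
    si q = xor (si p) (dl (se p) (ty p) (ty q)) := by decide +kernel

theorem adj_P : ∀ p q : HV, H.Adj p q → ty p = 0 → ty q = 1 ∧ si q = false := by decide +kernel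

theorem locBij_of [Finite V] {G : SimpleGraph V} {τ : V → ℕ} {α : V → Fin 3} {σ : V → Bool}
    (h : Good G τ) (hs : Sec G τ α σ) : LocBij G H fun x => mkH (τ x) (α x) (σ x) := by
  classical
  have hhom : ∀ x y, G.Adj x y → H.Adj (mkH (τ x) (α x) (σ x)) (mkH (τ y) (α y) (σ y)) := by
    intro x y hxy
    exact adj_mkH _ (h.lt x) _ (h.lt y) (h.mat_pos hxy) _ _ _ _ (hs.sec x y hxy)
      (hs.sgn x y hxy)
  have hinj : ∀ x, Set.InjOn (fun x => mkH (τ x) (α x) (σ x)) (G.neighborSet x) := by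
    intro x y hy z hz hyz
    by_contra hne
    have ht : τ y = τ z := by
      have h1 := congrArg ty hyz
      simp only at h1
      rwa [ty_mkH _ (h.lt y), ty_mkH _ (h.lt z)] at h1
    have h2 : 1 < mat (τ x) (τ y) := by
      rw [← h.card x (τ y) (h.lt y), Set.one_lt_ncard]
      exact ⟨y, ⟨hy, rfl⟩, z, ⟨hz, ht.symm⟩, hne⟩
    rcases mat_two _ (h.lt x) _ (h.lt y) h2 with ⟨hx, hy'⟩ | ⟨hx, hy'⟩
    · refine hs.hub x y z hx hy hz hne ?_
      have h1 := congrArg se hyz
      simp only at h1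
      rwa [se_mkH _ (h.lt y) (by omega), se_mkH _ (h.lt z) (by omega)] at h1
    · refine hs.wsg x y z hx hy hz hy' (ht.symm.trans hy') hne ?_
      have h1 := congrArg si hyz
      simp only at h1
      rwa [si_mkH _ (h.lt y) (by omega), si_mkH _ (h.lt z) (by omega)] at h1
  have himg : ∀ x, (fun x => mkH (τ x) (α x) (σ x)) '' (G.neighborSet x) =
      H.neighborSet (mkH (τ x) (α x) (σ x)) := by
    intro x
    refine Set.eq_of_subset_of_ncard_le ?_ ?_ (Set.toFinite _)
    · rintro _ ⟨y, hy, rfl⟩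
      exact hhom x y hy
    · rw [(hinj x).ncard_image, h.degree, good_ty_H.degree, ty_mkH _ (h.lt x)]
  refine ⟨hhom, fun x => ⟨?_, ?_, ?_⟩⟩
  · rintro y (rfl | hy)
    · exact Set.mem_insert _ _
    · exact Set.mem_insert_of_mem _ (hhom x y hy)
  · rintro y (rfl | hy) z (rfl | hz) hyz
    · rfl
    · exfalso
      have h1 := hhom y z hz
      simp only at hyz
      rw [hyz] at h1
      exact H.irrefl h1
    · exfalso
      have h1 := hhom z y hy
      simp only at hyz
      rw [hyz] at h1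
      exact H.irrefl h1
    · exact hinj x hy hz hyz
  · rintro p (rfl | hp)
    · exact ⟨x, Set.mem_insert _ _, rfl⟩
    · have h1 : p ∈ H.neighborSet (mkH (τ x) (α x) (σ x)) := hp
      rw [← himg x] at h1
      obtain ⟨y, hy, hyp⟩ := h1
      exact ⟨y, Set.mem_insert_of_mem _ hy, hyp⟩

theorem sec_of_locBij [Finite V] {G : SimpleGraph V} {f : V → HV} (h : LocBij G H f) :
    Sec G (fun x => ty (f x)) (fun x => se (f x)) fun x => si (f x) := by
  obtain ⟨h1, h2⟩ := h
  refine ⟨fun x y hxy hx hy => adj_se _ _ (h1 x y hxy) hx hy,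
    fun x y hxy hx hy => adj_si _ _ (h1 x y hxy) hx hy, ?_, ?_⟩
  · intro x y z hx hxy hxz hy hz hne hsi
    refine hne ((h2 x).injOn (Set.mem_insert_of_mem _ hxy) (Set.mem_insert_of_mem _ hxz) ?_)
    have e1 : se (f x) = se (f y) := adj_se _ _ (h1 x y hxy) (by omega) (by omega)
    have e2 : se (f x) = se (f z) := adj_se _ _ (h1 x z hxz) (by omega) (by omega)
    rw [← mkH_eta (f y), ← mkH_eta (f z), hy, hz, ← e1, ← e2, hsi]
  · intro x y z hx hxy hxz hne hse
    refine hne ((h2 x).injOn (Set.mem_insert_of_mem _ hxy) (Set.mem_insert_of_mem _ hxz) ?_)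
    have e1 := adj_P _ _ (h1 x y hxy) hx
    have e2 := adj_P _ _ (h1 x z hxz) hx
    rw [← mkH_eta (f y), ← mkH_eta (f z), e1.1, e1.2, e2.1, e2.2, hse]

end Pool.Agent.PlCov
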