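import Pool.Agent.Lib.PlCov.CycDim
import Pool.Agent.Lib.PlCov.FaceKer

/-!
# Chunk M3: a rotation system of genus zero gives a MacLane basis

Let `β : (Fc R → ZMod 2) → cycleSpace G`, `c ↦ ∑ c q • fbd R q`. By `fbd_ker` an element of the kernel is determined by
its values on one face for each component which is not an isolated vertex; so the kernel has dimension
at most `c - iso` (`c` = number of components, `iso` = number of isolated vertices) and the range has
dimension at least `F - (c - iso)`. By Euler's formula (`IsPlanar`) `F - (c - iso) = E - V + c`, which is at least the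
dimension of the cycle space (`finrank_cycleSpace_le`). So `β` is onto. `mPlanar_of_fintype` (`TFP.Euler`) with
`fbd_mem`, `fbd_two`. (`Nat.card G.edgeSet = edgesIn G univ`: `edgesIn_univ`.)
-/

set_option autoImplicit false

namespace Pool.Agent.PlCov

open Pool.Agent.TFP Pool.Agent.Lib.CookLevin

theorem mPlanar_of_isPlanar {V : Type} [Fintype V] {G : SimpleGraph V} (h : IsPlanar G) :
    MPlanar G := by
  classical
  obtain ⟨R, hR⟩ := h
  have hF1 : Finite (Fc R) := inferInstance
  have hF2 : Fintype (Fc R) := Fintype.ofFinite _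
  have hC : Fintype G.ConnectedComponent := Fintype.ofFinite _
  -- the boundary map
  let β : (Fc R → ZMod 2) →ₗ[ZMod 2] (Sym2 V → ZMod 2) :=
    { toFun := fun c => ∑ q, c q • fbd R q
      map_add' := by
        intro a b
        simp only [Pi.add_apply, add_smul, Finset.sum_add_distrib]
      map_smul' := by
        intro a b
        simp only [Pi.smul_apply, smul_eq_mul, mul_smul, Finset.smul_sum, RingHom.id_apply] }
  have hβ : ∀ c, β c = ∑ q, c q • fbd R q := fun c => rfl
  have hrange : LinearMap.range β ≤ cycleSpace G := by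
    rintro _ ⟨c, rfl⟩
    rw [hβ]
    exact Submodule.sum_mem _ fun q _ => Submodule.smul_mem _ _ (fbd_mem R q)
  -- the components with an edge
  let N : Type := {C : G.ConnectedComponent // ∃ d : G.Dart, G.connectedComponentMk d.fst = C}
  let pick : N → G.Dart := fun C => C.2.choose
  have hpick : ∀ C : N, G.connectedComponentMk (pick C).fst = C.1 := fun C => C.2.choose_spec
  let γ : (Fc R → ZMod 2) →ₗ[ZMod 2] (N → ZMod 2) :=
    { toFun := fun c C => c (Quotient.mk (Equiv.Perm.SameCycle.setoid R.face) (pick C))
      map_add' := fun _ _ => rfl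
      map_smul' := fun _ _ => rfl }
  have hinj : Function.Injective (γ.comp (LinearMap.ker β).subtype) := by
    rw [← LinearMap.ker_eq_bot, LinearMap.ker_eq_bot']
    rintro ⟨c, hc⟩ h0
    have hc' : ∑ q, c q • fbd R q = 0 := hc
    apply Subtype.ext
    funext q
    obtain ⟨d, rfl⟩ := Quotient.exists_rep q
    have h1 := congrFun h0 (⟨G.connectedComponentMk d.fst, d, rfl⟩ : N)
    have h2 : c (Quotient.mk (Equiv.Perm.SameCycle.setoid R.face)
        (pick ⟨G.connectedComponentMk d.fst, d, rfl⟩)) = 0 := h1
    have h3 := hpick ⟨G.connectedComponentMk d.fst, d, rfl⟩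
    have h4 := fbd_ker R c hc' d (pick ⟨G.connectedComponentMk d.fst, d, rfl⟩)
      (SimpleGraph.ConnectedComponent.exact h3.symm)
    show c (Quotient.mk (Equiv.Perm.SameCycle.setoid R.face) d) = 0
    rw [h4, h2]
  have hker : Module.finrank (ZMod 2) (LinearMap.ker β) ≤ Nat.card N := by
    have h1 := LinearMap.finrank_le_finrank_of_injective hinj
    rwa [Module.finrank_fintype_fun_eq_card, ← Nat.card_eq_fintype_card] at h1
  -- isolated vertices
  have hNI : Nat.card N + Nat.card {v : V // ∀ w, ¬ G.Adj v w} ≤ Nat.card G.ConnectedComponent := by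
    rw [← Nat.card_sum]
    refine Nat.card_le_card_of_injective
      (Sum.elim (fun C : N => C.1)
        (fun v : {v : V // ∀ w, ¬ G.Adj v w} => G.connectedComponentMk v.1)) ?_
    have hiso : ∀ v : {v : V // ∀ w, ¬ G.Adj v w}, ∀ w, G.Reachable v.1 w → v.1 = w := by
      intro v w hvw
      rw [SimpleGraph.reachable_iff_reflTransGen] at hvw
      rcases Relation.ReflTransGen.cases_head hvw with h | ⟨c, hc, _⟩
      · exact h
      · exact absurd hc (v.2 c)
    have hNI' : ∀ (C : N) (v : {v : V // ∀ w, ¬ G.Adj v w}),
        C.1 ≠ G.connectedComponentMk v.1 := by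
      rintro ⟨C, d, hd⟩ v h
      have h1 : G.Reachable v.1 d.fst :=
        SimpleGraph.ConnectedComponent.exact (h.symm.trans hd.symm)
      have h2 := hiso v _ h1
      exact v.2 d.snd (h2 ▸ d.adj)
    rintro (C | v) (C' | v') h
    · exact congrArg Sum.inl (Subtype.ext h)
    · exact absurd h (hNI' C v')
    · exact absurd h.symm (hNI' C' v)
    · have h1 := hiso v v'.1 (SimpleGraph.ConnectedComponent.exact h)
      exact congrArg Sum.inr (Subtype.ext h1)
  -- dimensions
  have hd1 := LinearMap.finrank_range_add_finrank_ker β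
  rw [Module.finrank_fintype_fun_eq_card, ← Nat.card_eq_fintype_card] at hd1
  have hd2 := finrank_cycleSpace_le G
  have hE : Nat.card G.edgeSet = edgesIn G Finset.univ := by
    rw [edgesIn_univ, Nat.card_eq_fintype_card, ← Fintype.card_subtype]
  rw [hE, Nat.card_eq_fintype_card (α := V)] at hR
  unfold RotationSystem.numFaces at hR
  have hle : Module.finrank (ZMod 2) (cycleSpace G) ≤
      Module.finrank (ZMod 2) (LinearMap.range β) := by
    have hd1' : Module.finrank (ZMod 2) (LinearMap.range β) +
        Module.finrank (ZMod 2) (LinearMap.ker β) =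
        Nat.card (Quotient (Equiv.Perm.SameCycle.setoid R.face)) := hd1
    omega
  have heq : LinearMap.range β = cycleSpace G := Submodule.eq_of_le_of_finrank_le hrange hle
  refine mPlanar_of_fintype (fbd R) (fbd_mem R) ?_ ?_
  · intro e
    exact fbd_two R e
  · rw [← heq]
    rintro _ ⟨c, rfl⟩
    rw [hβ]
    exact Submodule.sum_mem _ fun q _ => Submodule.smul_mem _ _ (Submodule.subset_span ⟨q, rfl⟩)

end Pool.Agent.PlCov
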