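import Pool.Agent.Lib.PFire.PlanarLists

/-!
# Chunk T2: plane rotation lists for all the components give a planar graph

Choose a representative `r u` of the component of `u` (`Quot.out` of the connected component). The rotation
system of `G`: the dart `(u, v)` is followed by `(u, nextIn (nbrs (R (r u)) u) v)` (`nextIn_inj`, `nextIn_orbit` in
`PFire.RawFacts`). Its face permutation is given by `phi (R s)` on the darts of the component of `s = r u`
(`d ↦ rot d.symm`: from `(u, v)` to `(v, nextIn (nbrs v) u)`). The number of its orbits is the sum over the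
components with an edge of `(faces (R s) s).length` (`faceOf_orbit`, `faceOf_phi`, `mem_faces`), the number of
vertices is the sum of `(comp (R s) s).length` and twice the number of edges is the sum of
`(darts (R s) s).length`; an isolated vertex contributes `1 + 1 = 0 + 2`. This is the converse of
`exists_rot_of_planar`.
-/

set_option autoImplicit false

namespace Pool.Agent.PlCov

open Pool.Agent.PFire Pool.Agent.Lib.CookLevin

/-! ### One component -/

section One

variable {n : ℕ} {G : SimpleGraph (Fin n)} {Q : Rot} {t : Fin n}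

/-- `Q` describes the component of `t` of the graph `G`. -/
structure t2_Rep (G : SimpleGraph (Fin n)) (Q : Rot) (t : Fin n) : Prop where
  valid : RotValid Q t.val
  len : Q.length = n
  adj : ∀ u v : Fin n, u.val ∈ comp Q t.val → (v.val ∈ nbrs Q u.val ↔ G.Adj u v)

lemma t2_mem_comp (h : t2_Rep G Q t) (k : ℕ) :
    k ∈ comp Q t.1 ↔ ∃ v : Fin n, v.val = k ∧ G.Reachable t v := by
  constructor
  · intro hk
    rw [mem_comp h.valid] at hk
    induction hk with
    | refl => exact ⟨t, rfl, SimpleGraph.Reachable.refl _⟩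
    | tail hab hbc ih =>
      obtain ⟨v, rfl, hr⟩ := ih
      have h1 : v.val ∈ comp Q t.1 := (mem_comp h.valid).2 hab
      have h2 := h.valid.lt _ _ hbc
      rw [h.len] at h2
      exact ⟨⟨_, h2⟩, rfl, hr.trans ((h.adj v ⟨_, h2⟩ h1).1 hbc).reachable⟩
  · rintro ⟨v, rfl, hr⟩
    rw [SimpleGraph.reachable_iff_reflTransGen] at hr
    induction hr with
    | refl => exact s_mem_comp h.valid
    | tail _ hbc ih =>
      rw [mem_comp h.valid] at ih ⊢
      exact Relation.ReflTransGen.tail ih ((h.adj _ _ ((mem_comp h.valid).2 ih)).2 hbc)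

lemma t2_mem_darts (h : t2_Rep G Q t) (x : Nd) :
    x ∈ darts Q t.1 ↔ ∃ d : G.Dart, G.Reachable t d.fst ∧ plD d = x := by
  rw [mem_darts h.valid, t2_mem_comp h]
  constructor
  · rintro ⟨⟨v, hv, hr⟩, hx⟩
    have h1 : v.val ∈ comp Q t.1 := (t2_mem_comp h _).2 ⟨v, rfl, hr⟩
    rw [← hv] at hx
    have h2 := h.valid.lt _ _ hx
    rw [h.len] at h2
    exact ⟨⟨(v, ⟨x.2, h2⟩), (h.adj v ⟨x.2, h2⟩ h1).1 hx⟩, hr, Prod.ext hv rfl⟩
  · rintro ⟨d, hr, rfl⟩
    refine ⟨⟨d.fst, rfl, hr⟩, ?_⟩
    exact (h.adj d.fst d.snd ((t2_mem_comp h _).2 ⟨d.fst, rfl, hr⟩)).2 d.adj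

lemma t2_card_comp (h : t2_Rep G Q t) :
    (comp Q t.1).length =
      Nat.card {v : Fin n // G.connectedComponentMk v = G.connectedComponentMk t} := by
  classical
  rw [← card_VV, ← Nat.card_eq_fintype_card]
  symm
  refine Nat.card_congr (Equiv.ofBijective (fun v => ⟨v.1.val, ?_⟩) ⟨?_, ?_⟩)
  · rw [t2_mem_comp h]
    exact ⟨v.1, rfl, (SimpleGraph.ConnectedComponent.exact v.2).symm⟩
  · rintro ⟨v, hv⟩ ⟨w, hw⟩ h
    have h1 : v.val = w.val := congrArg Subtype.val h
    exact Subtype.ext (Fin.ext h1)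
  · rintro ⟨k, hk⟩
    obtain ⟨v, hv, hr⟩ := (t2_mem_comp h k).1 hk
    exact ⟨⟨v, SimpleGraph.ConnectedComponent.sound hr.symm⟩, Subtype.ext hv⟩

lemma t2_card_darts (h : t2_Rep G Q t) :
    (darts Q t.1).length =
      Nat.card {d : G.Dart // G.connectedComponentMk d.fst = G.connectedComponentMk t} := by
  classical
  rw [← card_DD h.valid, ← Nat.card_eq_fintype_card]
  symm
  refine Nat.card_congr (Equiv.ofBijective (fun d => ⟨plD d.1, ?_⟩) ⟨?_, ?_⟩)
  · rw [t2_mem_darts h]
    exact ⟨d.1, (SimpleGraph.ConnectedComponent.exact d.2).symm, rfl⟩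
  · rintro ⟨v, hv⟩ ⟨w, hw⟩ h
    exact Subtype.ext (plD_inj (congrArg Subtype.val h))
  · rintro ⟨k, hk⟩
    obtain ⟨d, hr, hd⟩ := (t2_mem_darts h k).1 hk
    exact ⟨⟨d, SimpleGraph.ConnectedComponent.sound hr.symm⟩, Subtype.ext hd⟩

variable {R : RotationSystem G}

lemma t2_iter (h : t2_Rep G Q t)
    (hphi : ∀ d : G.Dart, G.Reachable t d.fst → phi Q (plD d) = plD (R.face d))
    {d : G.Dart} (hd : G.Reachable t d.fst) (k : ℕ) :
    (phi Q)^[k] (plD d) = plD (R.face^[k] d) ∧ G.Reachable t (R.face^[k] d).fst ∧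
      faceOf Q t.1 (plD (R.face^[k] d)) = faceOf Q t.1 (plD d) := by
  induction k with
  | zero => exact ⟨rfl, hd, rfl⟩
  | succ k ih =>
    obtain ⟨h1, h2, h3⟩ := ih
    rw [Function.iterate_succ_apply', Function.iterate_succ_apply', h1]
    refine ⟨hphi _ h2, ?_, ?_⟩
    · rw [R.face_fst]
      exact h2.trans (R.face^[k] d).adj.reachable
    · rw [← hphi _ h2, faceOf_phi h.valid ((t2_mem_darts h _).2 ⟨_, h2, rfl⟩)]
      exact h3

lemma t2_card_faces (h : t2_Rep G Q t)
    (hphi : ∀ d : G.Dart, G.Reachable t d.fst → phi Q (plD d) = plD (R.face d)) :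
    (faces Q t.1).length =
      Nat.card {q : Quotient (Equiv.Perm.SameCycle.setoid R.face) //
        plFC R q = G.connectedComponentMk t} := by
  classical
  have hv := h.valid
  rw [← card_FF hv, ← Nat.card_eq_fintype_card]
  symm
  have hout : ∀ q : {q : Quotient (Equiv.Perm.SameCycle.setoid R.face) //
        plFC R q = G.connectedComponentMk t}, G.Reachable t (Quotient.out q.1).fst := by
    intro q
    have h1 : plFC R (Quotient.mk _ (Quotient.out q.1)) = G.connectedComponentMk t := by
      rw [Quotient.out_eq]; exact q.2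
    exact (SimpleGraph.ConnectedComponent.exact h1).symm
  refine Nat.card_congr (Equiv.ofBijective
    (fun q => ⟨faceOf Q t.1 (plD (Quotient.out q.1)), ?_⟩) ⟨?_, ?_⟩)
  · rw [mem_faces hv]
    exact ⟨_, (t2_mem_darts h _).2 ⟨_, hout q, rfl⟩, rfl⟩
  · rintro q q' hq
    have h1 : faceOf Q t.1 (plD (Quotient.out q.1)) =
        faceOf Q t.1 (plD (Quotient.out q'.1)) := congrArg Subtype.val hq
    obtain ⟨k, hk⟩ := faceOf_orbit hv ((t2_mem_darts h _).2 ⟨_, hout q, rfl⟩)
      ((t2_mem_darts h _).2 ⟨_, hout q', rfl⟩) h1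
    rw [(t2_iter h hphi (hout q) k).1] at hk
    have h2 := plD_inj hk
    apply Subtype.ext
    rw [← Quotient.out_eq q.1, ← Quotient.out_eq q'.1]
    apply Quotient.sound
    change R.face.SameCycle _ _
    refine ⟨(k : ℤ), ?_⟩
    rw [zpow_natCast, ← Equiv.Perm.iterate_eq_pow]
    exact h2
  · rintro ⟨k, hk⟩
    obtain ⟨x, hx, hxk⟩ := (mem_faces hv).1 hk
    obtain ⟨d, hr, rfl⟩ := (t2_mem_darts h x).1 hx
    refine ⟨⟨Quotient.mk _ d, SimpleGraph.ConnectedComponent.sound hr.symm⟩, ?_⟩
    apply Subtype.ext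
    change faceOf Q t.1 (plD (Quotient.out
      (Quotient.mk (Equiv.Perm.SameCycle.setoid R.face) d))) = k
    have h1 : R.face.SameCycle d (Quotient.out
        (Quotient.mk (Equiv.Perm.SameCycle.setoid R.face) d)) := by
      have h2 : (Quotient.mk (Equiv.Perm.SameCycle.setoid R.face) d) =
          Quotient.mk _ (Quotient.out (Quotient.mk (Equiv.Perm.SameCycle.setoid R.face) d)) :=
        (Quotient.out_eq _).symm
      exact Quotient.exact h2
    obtain ⟨j, hj⟩ := h1.exists_nat_pow_eq
    rw [← Equiv.Perm.iterate_eq_pow] at hj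
    rw [← hj, (t2_iter h hphi hr j).2.2, hxk]

end One

/-! ### The rotation system -/

section Sys

variable {n : ℕ} {G : SimpleGraph (Fin n)} {P : Fin n → List ℕ}

/-- the next dart -/
def t2_next (hP : ∀ u v : Fin n, v.val ∈ P u ↔ G.Adj u v) (hlt : ∀ u : Fin n, ∀ k ∈ P u, k < n)
    (d : G.Dart) : G.Dart :=
  ⟨(d.fst, ⟨nextIn (P d.fst) d.snd.val,
    hlt _ _ (nextIn_mem ((hP _ _).2 d.adj))⟩),
    (hP _ _).1 (nextIn_mem ((hP _ _).2 d.adj))⟩

lemma t2_next_iter (hP : ∀ u v : Fin n, v.val ∈ P u ↔ G.Adj u v)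
    (hlt : ∀ u : Fin n, ∀ k ∈ P u, k < n) (d : G.Dart) (k : ℕ) :
    ((t2_next hP hlt)^[k] d).fst = d.fst ∧
      (((t2_next hP hlt)^[k] d).snd : Fin n).val = (nextIn (P d.fst))^[k] d.snd.val := by
  induction k with
  | zero => exact ⟨rfl, rfl⟩
  | succ k ih =>
    rw [Function.iterate_succ_apply', Function.iterate_succ_apply']
    refine ⟨ih.1, ?_⟩
    change nextIn (P ((t2_next hP hlt)^[k] d).fst) _ = _
    rw [ih.1, ih.2]

lemma t2_system (hP : ∀ u v : Fin n, v.val ∈ P u ↔ G.Adj u v)
    (hlt : ∀ u : Fin n, ∀ k ∈ P u, k < n) (hnd : ∀ u : Fin n, (P u).Nodup) :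
    ∃ R : RotationSystem G, ∀ d : G.Dart, plD (R.rot d) = (d.fst.val, nextIn (P d.fst) d.snd.val) := by
  have hinj : Function.Injective (t2_next hP hlt) := by
    intro d d' h
    have h1 : d.fst = d'.fst := by
      have h0 : (t2_next hP hlt d).fst = (t2_next hP hlt d').fst := by rw [h]
      exact h0
    have h2 : nextIn (P d.fst) d.snd.val = nextIn (P d'.fst) d'.snd.val := by
      have h0 : ((t2_next hP hlt d).snd : Fin n).val = ((t2_next hP hlt d').snd : Fin n).val := by
        rw [h]
      exact h0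
    rw [← h1] at h2
    have h3 := nextIn_inj (hnd d.fst) ((hP _ _).2 d.adj)
      (by rw [h1]; exact (hP _ _).2 d'.adj) h2
    exact pl_dart_ext h1 h3
  let e : Equiv.Perm G.Dart := Equiv.ofBijective _ (Finite.injective_iff_bijective.1 hinj)
  have he : ∀ d, e d = t2_next hP hlt d := fun d => rfl
  refine ⟨⟨e, fun d => rfl, ?_⟩, fun d => rfl⟩
  intro d d' h
  obtain ⟨k, hk⟩ := nextIn_orbit (hnd d.fst) ((hP _ _).2 d.adj)
    (by rw [h]; exact (hP _ _).2 d'.adj : d'.snd.val ∈ P d.fst)
  refine ⟨(k : ℤ), ?_⟩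
  rw [zpow_natCast, ← Equiv.Perm.iterate_eq_pow]
  obtain ⟨h1, h2⟩ := t2_next_iter hP hlt d k
  have h3 : (e : G.Dart → G.Dart) = t2_next hP hlt := funext he
  rw [h3]
  exact pl_dart_ext (h1.trans h) (h2.trans hk)

end Sys

theorem isPlanar_of_rots {n : ℕ} (G : SimpleGraph (Fin n)) (R : Fin n → Rot)
    (hv : ∀ s : Fin n, RotValid (R s) s.val) (hlen : ∀ s, (R s).length = n)
    (hadj : ∀ s u v : Fin n, u.val ∈ comp (R s) s.val → (v.val ∈ nbrs (R s) u.val ↔ G.Adj u v))
    (hp : ∀ s : Fin n, darts (R s) s.val = [] ∨ RotPlane (R s) s.val) : IsPlanar G := by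
  classical
  have hrep : ∀ s, t2_Rep G (R s) s := fun s => ⟨hv s, hlen s, hadj s⟩
  -- representatives
  let r : Fin n → Fin n := fun u => (G.connectedComponentMk u).out
  have hr : ∀ u, G.connectedComponentMk (r u) = G.connectedComponentMk u := fun u => Quot.out_eq _
  have hr1 : ∀ u, G.Reachable (r u) u := fun u => SimpleGraph.ConnectedComponent.exact (hr u)
  have hr2 : ∀ u v, G.Reachable u v → r u = r v := by
    intro u v h
    change (G.connectedComponentMk u).out = (G.connectedComponentMk v).out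
    rw [SimpleGraph.ConnectedComponent.sound h]
  have hcomp : ∀ u : Fin n, u.val ∈ comp (R (r u)) (r u).val :=
    fun u => (t2_mem_comp (hrep _) _).2 ⟨u, rfl, hr1 u⟩
  -- the rotation system
  let P : Fin n → List ℕ := fun u => nbrs (R (r u)) u.val
  have hP : ∀ u v : Fin n, v.val ∈ P u ↔ G.Adj u v := fun u v => hadj (r u) u v (hcomp u)
  have hlt : ∀ u : Fin n, ∀ k ∈ P u, k < n := by
    intro u k hk
    have := (hv (r u)).lt _ _ hk
    rwa [hlen] at this
  obtain ⟨S, hS⟩ := t2_system hP hlt fun u => (hv (r u)).nodup _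
  have hphi : ∀ t : Fin n, r t = t → ∀ d : G.Dart, G.Reachable t d.fst →
      phi (R t) (plD d) = plD (S.face d) := by
    intro t ht d hd
    have h1 : r d.snd = t := by
      rw [← hr2 t d.snd (hd.trans d.adj.reachable), ht]
    have h2 : plD (S.face d) = (d.snd.val, nextIn (P d.snd) d.fst.val) := hS d.symm
    rw [h2]
    unfold phi plD
    change (d.snd.val, nextIn (nbrs (R t) d.snd.val) d.fst.val) =
      (d.snd.val, nextIn (nbrs (R (r d.snd)) d.snd.val) d.fst.val)
    rw [h1]
  refine ⟨S, ?_⟩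
  have hdart : Nat.card G.Dart = 2 * Nat.card G.edgeSet := card_dart G
  set I : Type := {v : Fin n // ∀ w, ¬ G.Adj v w} with hI
  let f1 : Fin n → G.ConnectedComponent := fun v => G.connectedComponentMk v
  let f2 : G.Dart → G.ConnectedComponent := fun d => G.connectedComponentMk d.fst
  let f3 : I → G.ConnectedComponent := fun v => G.connectedComponentMk v.1
  have : Fintype G.ConnectedComponent := Fintype.ofFinite _
  have e1 := pl_card_fib f1
  have e2 := pl_card_fib f2
  have e3 := pl_card_fib f3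
  have e4 := pl_card_fib (plFC S)
  have heq : ∀ c : G.ConnectedComponent,
      2 * (Nat.card {x // f1 x = c} + Nat.card {x // plFC S x = c} + Nat.card {x // f3 x = c}) =
        Nat.card {x // f2 x = c} + 4 := by
    intro c
    obtain ⟨t, ht, rfl⟩ : ∃ t : Fin n, r t = t ∧ G.connectedComponentMk t = c := by
      refine ⟨c.out, ?_, Quot.out_eq c⟩
      change (G.connectedComponentMk c.out).out = c.out
      rw [show G.connectedComponentMk c.out = c from Quot.out_eq c]
    have c1 := t2_card_comp (hrep t)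
    have c2 := t2_card_darts (hrep t)
    have c3 := t2_card_faces (hrep t) (hphi t ht)
    by_cases hD : darts (R t) t.1 = []
    · have hiso : ∀ w, ¬ G.Adj t w := by
        intro w hw
        have h1 : plD (⟨(t, w), hw⟩ : G.Dart) ∈ darts (R t) t.1 :=
          (t2_mem_darts (hrep t) _).2 ⟨_, SimpleGraph.Reachable.refl _, rfl⟩
        rw [hD] at h1
        exact absurd h1 (by simp)
      have hF : Nat.card {x // plFC S x = G.connectedComponentMk t} = 0 := by
        rw [← c3]
        unfold faces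
        rw [hD]
        rfl
      have hD2 : Nat.card {x // f2 x = G.connectedComponentMk t} = 0 := by
        change Nat.card {x : G.Dart // G.connectedComponentMk x.fst = G.connectedComponentMk t} = 0
        rw [← c2, hD]
        rfl
      have hV : Nat.card {x // f1 x = G.connectedComponentMk t} = 1 := by
        rw [Nat.card_eq_one_iff_unique]
        refine ⟨⟨?_⟩, ⟨⟨t, rfl⟩⟩⟩
        rintro ⟨v, hv⟩ ⟨w, hw⟩
        have h1 : t = v := pl_isolated hiso (SimpleGraph.ConnectedComponent.exact hv).symm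
        have h2 : t = w := pl_isolated hiso (SimpleGraph.ConnectedComponent.exact hw).symm
        exact Subtype.ext (h1.symm.trans h2)
      have hI1 : Nat.card {x // f3 x = G.connectedComponentMk t} = 1 := by
        rw [Nat.card_eq_one_iff_unique]
        refine ⟨⟨?_⟩, ⟨⟨⟨t, hiso⟩, rfl⟩⟩⟩
        rintro ⟨v, hv⟩ ⟨w, hw⟩
        have h1 : t = v.1 := pl_isolated hiso (SimpleGraph.ConnectedComponent.exact hv).symm
        have h2 : t = w.1 := pl_isolated hiso (SimpleGraph.ConnectedComponent.exact hw).symm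
        exact Subtype.ext (Subtype.ext (h1.symm.trans h2))
      rw [hF, hV, hI1, hD2]
    · have h1 : 2 * ((comp (R t) t.1).length + (faces (R t) t.1).length) =
          (darts (R t) t.1).length + 4 := (hp t).resolve_left hD
      have h2 : Nat.card {x // f3 x = G.connectedComponentMk t} = 0 := by
        have : IsEmpty {x // f3 x = G.connectedComponentMk t} := by
          refine ⟨?_⟩
          rintro ⟨⟨v, hv⟩, h⟩
          have hvt : G.Reachable v t := SimpleGraph.ConnectedComponent.exact h
          obtain ⟨x, hx⟩ := List.exists_mem_of_ne_nil _ hD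
          obtain ⟨d, hr, _⟩ := (t2_mem_darts (hrep t) x).1 hx
          have h1 : v = d.fst := pl_isolated hv (hvt.trans hr)
          exact hv d.snd (h1 ▸ d.adj)
        exact Nat.card_of_isEmpty
      rw [h2]
      change 2 * (Nat.card {x // G.connectedComponentMk x = G.connectedComponentMk t} +
        Nat.card {x // plFC S x = G.connectedComponentMk t} + 0) =
        Nat.card {x : G.Dart // G.connectedComponentMk x.fst = G.connectedComponentMk t} + 4
      rw [← c1, ← c2, ← c3]
      omega
  have hsum : ∑ c : G.ConnectedComponent,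
      2 * (Nat.card {x // f1 x = c} + Nat.card {x // plFC S x = c} + Nat.card {x // f3 x = c}) =
        ∑ c : G.ConnectedComponent, (Nat.card {x // f2 x = c} + 4) :=
    Finset.sum_congr rfl fun c _ => heq c
  rw [← Finset.mul_sum, Finset.sum_add_distrib, Finset.sum_add_distrib, Finset.sum_add_distrib,
    ← e1, ← e2, ← e3, ← e4, hdart, Finset.sum_const, Finset.card_univ,
    ← Nat.card_eq_fintype_card (α := G.ConnectedComponent), smul_eq_mul] at hsum
  unfold RotationSystem.numFaces
  omega

end Pool.Agent.PlCov
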