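import Pool.Agent.Lib.PlCov.PTest
import Pool.Agent.Lib.PlCov.PSound

/-!
# Chunk T3: the planarity test is correct

`→`: `isPlanar_of_rots` with `R s = embed (gl w) s` (`embed_valid`, `comp_embed`, `nbrs_embed`, `rotV_perm`,
`embed_length`, `darts_embed_perm` in `PFire.LrRot`; `gl w` is `RotValid`).
`←`: `exists_rot_of_planar` (`PFire.PlanarLists`) and `embed_plane` (`PFire.LrMain`).
-/

set_option autoImplicit false

namespace Pool.Agent.PlCov

open Pool.Agent.PolyTime Pool.Agent.OOD Pool.Agent.PFire Pool.Agent.Lib.CookLevin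

/-! ### Adjacency lists of a graph -/

section Lists

variable {n : ℕ} {G : SimpleGraph (Fin n)} {g : Rot}

/-- `g` consists of adjacency lists of the graph `G`. -/
structure t3_Lists (G : SimpleGraph (Fin n)) (g : Rot) : Prop where
  len : g.length = n
  nodup : ∀ u, (nbrs g u).Nodup
  mem : ∀ u v, v ∈ nbrs g u ↔ ∃ (hu : u < n) (hv : v < n), G.Adj ⟨u, hu⟩ ⟨v, hv⟩

lemma t3_Lists.valid (h : t3_Lists G g) (s : Fin n) : RotValid g s.1 := by
  refine ⟨by rw [h.len]; exact s.2, ?_, h.nodup, ?_, ?_⟩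
  · intro u v huv
    rw [h.len]
    obtain ⟨_, hv, _⟩ := (h.mem u v).1 huv
    exact hv
  · intro u v huv
    obtain ⟨hu, hv, hadj⟩ := (h.mem u v).1 huv
    exact (h.mem v u).2 ⟨hv, hu, hadj.symm⟩
  · intro u huu
    obtain ⟨hu, hv, hadj⟩ := (h.mem u u).1 huu
    exact hadj.ne rfl

/-- the embedding of a planar graph is plane -/
lemma t3_plane (h : t3_Lists G g) (hG : IsPlanar G) (s : Fin n) (hne : darts g s.1 ≠ []) :
    RotPlane (embed g s.1) s.1 := by
  obtain ⟨rot, hr, hlen, hadj, hp⟩ := exists_rot_of_planar G hG s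
  have hg := h.valid s
  have hadj' : ∀ u v, v ∈ nbrs rot u ↔ v ∈ nbrs g u := by
    intro u v
    rw [h.mem]
    constructor
    · intro h
      have hv : v < n := hlen ▸ hr.lt u v h
      have hu : u < n := hlen ▸ hr.lt v u (hr.symm u v h)
      exact ⟨hu, hv, (hadj ⟨u, hu⟩ ⟨v, hv⟩).1 h⟩
    · rintro ⟨hu, hv, h⟩
      exact (hadj ⟨u, hu⟩ ⟨v, hv⟩).2 h
  have hfun : (fun a b => b ∈ nbrs rot a) = fun a b => b ∈ nbrs g a := by
    funext a b; exact propext (hadj' a b)
  have hcomp : ∀ v, v ∈ comp rot s.1 ↔ v ∈ comp g s.1 := by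
    intro v
    rw [mem_comp hr, mem_comp hg, hfun]
  have hne2 : darts rot s.1 ≠ [] := by
    obtain ⟨d, hd⟩ := List.exists_mem_of_ne_nil _ hne
    have h2 := (mem_darts hg).1 hd
    exact List.ne_nil_of_mem (a := d) ((mem_darts hr).2 ⟨(hcomp _).2 h2.1, (hadj' _ _).2 h2.2⟩)
  exact embed_plane hg hr (hp hne2) hne2 (fun u _ v => hadj' u v) hne

lemma t3_adj (h : t3_Lists G g) (s u v : Fin n) (hu : u.1 ∈ comp (embed g s.1) s.1) :
    v.1 ∈ nbrs (embed g s.1) u.1 ↔ G.Adj u v := by
  have hg := h.valid s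
  rw [comp_embed hg] at hu
  rw [nbrs_embed hg hu, (rotV_perm hg hu).mem_iff, h.mem]
  constructor
  · rintro ⟨_, _, h⟩; exact h
  · intro h; exact ⟨u.2, v.2, h⟩

theorem t3_iff (h : t3_Lists G g) : (∀ s < n, planeAt g s = true) ↔ IsPlanar G := by
  have hpl : ∀ s : Fin n, planeAt g s.1 = true ↔ darts g s.1 = [] ∨
      RotPlane (embed g s.1) s.1 := by
    intro s
    unfold planeAt RotPlane
    rw [embedC_eq (h.valid s), Bool.or_eq_true, decide_eq_true_eq, decide_eq_true_eq]
  constructor
  · intro h1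
    refine isPlanar_of_rots G (fun s => embed g s.1) (fun s => embed_valid (h.valid s))
      (fun s => by rw [embed_length, h.len]) (fun s u v hu => t3_adj h s u v hu) fun s => ?_
    rcases (hpl s).1 (h1 s.1 s.2) with h2 | h2
    · left
      have h3 := (darts_embed_perm (h.valid s)).length_eq
      rw [h2] at h3
      exact List.length_eq_zero_iff.1 h3
    · exact Or.inr h2
  · intro hG s hs
    refine (hpl ⟨s, hs⟩).2 ?_
    by_cases h1 : darts g s = []
    · exact Or.inl h1
    · exact Or.inr (t3_plane h hG ⟨s, hs⟩ h1)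

end Lists

lemma t3_gl (G : Σ n, SimpleGraph (Fin n)) : t3_Lists G.2 (gl (encodeGraph G)) := by
  classical
  have hn : gn (encodeGraph G) = G.1 := gn_encodeGraph G
  have hlen : (gl (encodeGraph G)).length = G.1 := by
    unfold gl
    rw [List.length_map, List.length_range, hn]
  have hnb : ∀ u < G.1, nbrs (gl (encodeGraph G)) u =
      (List.range G.1).filter fun v => gadj (encodeGraph G) u v := by
    intro u hu
    unfold nbrs gl
    rw [List.getD_eq_getElem?_getD, List.getElem?_map, List.getElem?_range (by rw [hn]; exact hu),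
      hn]
    rfl
  have hnb' : ∀ u, ¬ u < G.1 → nbrs (gl (encodeGraph G)) u = [] := by
    intro u hu
    unfold nbrs
    exact List.getD_eq_default _ _ (by rw [hlen]; omega)
  refine ⟨hlen, ?_, ?_⟩
  · intro u
    by_cases hu : u < G.1
    · rw [hnb u hu]
      exact List.nodup_range.filter _
    · rw [hnb' u hu]
      exact List.nodup_nil
  · intro u v
    by_cases hu : u < G.1
    · rw [hnb u hu, List.mem_filter, List.mem_range]
      constructor
      · rintro ⟨hv, h⟩
        have h1 := gadj_encodeGraph G ⟨u, hu⟩ ⟨v, hv⟩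
        dsimp only at h1
        rw [h1, decide_eq_true_eq] at h
        exact ⟨hu, hv, h⟩
      · rintro ⟨_, hv, h⟩
        have h1 := gadj_encodeGraph G ⟨u, hu⟩ ⟨v, hv⟩
        dsimp only at h1
        refine ⟨hv, ?_⟩
        rw [h1, decide_eq_true_eq]
        exact h
    · rw [hnb' u hu]
      constructor
      · intro h
        exact absurd h List.not_mem_nil
      · rintro ⟨h, _⟩
        exact absurd h hu

theorem planarTest_encodeGraph (G : Σ n, SimpleGraph (Fin n)) :
    planarTest (encodeGraph G) = true ↔ IsPlanar G.2 := by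
  rw [← t3_iff (t3_gl G)]
  unfold planarTest
  rw [List.all_eq_true, gn_encodeGraph]
  simp only [List.mem_range]

end Pool.Agent.PlCov
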