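import Pool.Agent.Lib.PlCov.Defs

/-!
# Chunk PH: the graph `H` is planar

`V = 52`, `E = 69`, `F = 19`, connected: `52 + (19 + 0) = 69 + 2 * 1`.
Each sector is a 4-cycle `u 0, v a, u 1, v b` with doubled edges (as paths); the vertex `w i` is in the outer face and
joined to `u i 0`, `u i 1`; `P` is joined to the three `w i`. Faces of a sector: 4 (between the parallel paths),
the inner face of the 4-cycle, the face bounded by `w i`, `u i 0`, one of the `v`, `u i 1`; and the outer face is common to
all sectors: `3 * 6 + 1 = 19`.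
`rotH x` = neighbours of `x` in cyclic order; `labH x y` = number of the face of the dart `(x, y)`.
-/

set_option autoImplicit false
set_option maxRecDepth 100000

namespace Pool.Agent.PlCov

open Pool.Agent.Lib.CookLevin Equiv.Perm

/-- first vertex of the path with label `j` from `u i s` -/
def nbU (i : Fin 3) (s : Bool) (j : ℕ) : HV :=
  if j = 0 then .v i s else if j = 1 then .m i s 0 else if j = 2 then .m i s 1 else .m i s 3

/-- last vertex before `v i t` of the path with label `j` -/
def nbV (i : Fin 3) (t : Bool) (j : ℕ) : HV :=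
  if j = 0 then .u i t else if j = 1 then .m i (xor t (nu i 1)) 0
  else if j = 2 then .m i (xor t (nu i 2)) 2 else .m i (xor t (nu i 3)) 5

/-- the label `j ≠ 0` with `nu i j = false` -/
def la (i : Fin 3) : ℕ := [1, 3, 2].getD i.val 0
/-- the first label `j` with `nu i j = true` -/
def lb (i : Fin 3) : ℕ := [2, 1, 1].getD i.val 0
/-- the second label `j` with `nu i j = true` -/
def lc (i : Fin 3) : ℕ := [3, 2, 3].getD i.val 0

/-- the neighbours in cyclic order -/
def rotH : HV → List HV
  | .P => [.w 0, .w 1, .w 2]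
  | .w i => [.P, .u i true, .u i false]
  | .u i s => [.w i, nbU i s 0, nbU i s (la i), nbU i s (lb i), nbU i s (lc i)]
  | .v i false => [nbV i false 0, nbV i false (lc i), nbV i false (lb i), nbV i false (la i)]
  | .v i true => [nbV i true (lc i), nbV i true (lb i), nbV i true (la i), nbV i true 0]
  | .m i s c => if c = 0 then [.u i s, .v i (xor s (nu i 1))] else if c = 1 then [.u i s, .m i s 2]
    else if c = 2 then [.m i s 1, .v i (xor s (nu i 2))] else if c = 3 then [.u i s, .m i s 4]
    else if c = 4 then [.m i s 3, .m i s 5] else [.m i s 4, .v i (xor s (nu i 3))]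

/-- the number of a vertex -/
def codeH : HV → ℕ
  | .P => 0
  | .w i => 1 + i.val
  | .u i s => 4 + 2 * i.val + (bif s then 1 else 0)
  | .v i s => 10 + 2 * i.val + (bif s then 1 else 0)
  | .m i s c => 16 + 12 * i.val + (bif s then 6 else 0) + c.val

/-- the next neighbour -/
def nxH (x y : HV) : HV := (rotH x).getD (((rotH x).idxOf y + 1) % (rotH x).length) .P

/-- the previous neighbour -/
def pvH (x y : HV) : HV :=
  (rotH x).getD (((rotH x).idxOf y + (rotH x).length - 1) % (rotH x).length) .P

/-- the numbers of the faces of the darts at each vertex -/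
def labT : List (List ℕ) :=
  [[0, 0, 0], [0, 0, 1], [0, 0, 2], [0, 0, 3], [0, 1, 4, 5, 6], [1, 0, 7, 5, 8],
   [0, 2, 9, 10, 11], [2, 0, 12, 10, 13], [0, 3, 14, 15, 16], [3, 0, 17, 15, 18],
   [4, 1, 8, 5], [0, 6, 5, 7], [9, 2, 13, 10], [0, 11, 10, 12], [14, 3, 18, 15],
   [0, 16, 15, 17], [5, 4], [6, 5], [6, 5], [0, 6], [0, 6], [0, 6], [5, 7], [8, 5],
   [8, 5], [1, 8], [1, 8], [1, 8], [11, 10], [0, 11], [0, 11], [10, 9], [10, 9],
   [10, 9], [13, 10], [2, 13], [2, 13], [10, 12], [10, 12], [10, 12], [16, 15],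
   [15, 14], [15, 14], [0, 16], [0, 16], [0, 16], [18, 15], [15, 17], [15, 17],
   [3, 18], [3, 18], [3, 18]]

/-- the number of the face of a dart -/
def labH (x y : HV) : ℕ := (labT.getD (codeH x) []).getD ((rotH x).idxOf y) 0

/-- a dart of each face -/
def repT : List (HV × HV) :=
  [(.P, .w 0), (.w 0, .u 0 false), (.w 1, .u 1 false), (.w 2, .u 2 false),
   (.u 0 false, .m 0 false 0), (.u 0 false, .m 0 false 1), (.u 0 false, .m 0 false 3),
   (.u 0 true, .m 0 true 0), (.u 0 true, .m 0 true 3), (.u 1 false, .m 1 false 3),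
   (.u 1 false, .m 1 false 0), (.u 1 false, .m 1 false 1), (.u 1 true, .m 1 true 3),
   (.u 1 true, .m 1 true 1), (.u 2 false, .m 2 false 1), (.u 2 false, .m 2 false 0),
   (.u 2 false, .m 2 false 3), (.u 2 true, .m 2 true 1), (.u 2 true, .m 2 true 3)]

/-- a dart of a face -/
def repH (k : ℕ) : HV × HV := repT.getD k (.P, .P)

/-- one step along a face -/
def stepH (d : HV × HV) : HV × HV := (d.2, nxH d.2 d.1)

theorem adj_iff : ∀ x y : HV, H.Adj x y ↔ y ∈ rotH x := by decide +kernel

theorem nx_mem : ∀ x : HV, ∀ y ∈ rotH x, nxH x y ∈ rotH x ∧ pvH x y ∈ rotH x ∧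
    nxH x (pvH x y) = y ∧ pvH x (nxH x y) = y := by decide +kernel

theorem nx_iter : ∀ x : HV, ∀ y ∈ rotH x, ∃ k < 5, (nxH x)^[k] ((rotH x).headD .P) = y := by
  decide +kernel

theorem head_mem : ∀ x : HV, (rotH x).headD .P ∈ rotH x := by decide +kernel

theorem lab_step : ∀ x : HV, ∀ y ∈ rotH x, labH y (nxH y x) = labH x y ∧ labH x y < 19 := by
  decide +kernel

theorem lab_rep : ∀ x : HV, ∀ y ∈ rotH x, ∃ k < 26, stepH^[k] (repH (labH x y)) = (x, y) := by
  decide +kernel

theorem rep_mem : ∀ k < 19, (repH k).2 ∈ rotH (repH k).1 ∧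
    labH (repH k).1 (repH k).2 = k := by decide +kernel

/-! ### Connectedness -/

/-- the parent in a spanning tree with root `P` -/
def parH : HV → HV
  | .P => .P
  | .w _ => .P
  | .u i _ => .w i
  | .v i s => .u i s
  | .m i s c => if c = 2 then .m i s 1 else if c = 4 then .m i s 3 else if c = 5 then .m i s 4
    else .u i s

theorem par_adj : ∀ x : HV, H.Adj x (parH x) ∨ parH x = x := by decide +kernel

theorem par_iter : ∀ x : HV, parH (parH (parH (parH (parH x)))) = .P := by decide +kernel

theorem reach_par (x : HV) : H.Reachable x (parH x) := by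
  rcases par_adj x with h | h
  · exact h.reachable
  · rw [h]

theorem connected_H : H.Connected := by
  have h : ∀ x, H.Reachable x .P := by
    intro x
    have h1 := par_iter x
    rw [← h1]
    exact (reach_par x).trans ((reach_par _).trans ((reach_par _).trans
      ((reach_par _).trans (reach_par _))))
  have : Nonempty HV := ⟨.P⟩
  exact ⟨fun x y => (h x).trans (h y).symm⟩

/-! ### The rotation system -/

/-- the rotation -/
def rotP : Equiv.Perm H.Dart where
  toFun := fun d => ⟨(d.fst, nxH d.fst d.snd),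
    (adj_iff _ _).2 (nx_mem _ _ ((adj_iff _ _).1 d.adj)).1⟩
  invFun := fun d => ⟨(d.fst, pvH d.fst d.snd),
    (adj_iff _ _).2 (nx_mem _ _ ((adj_iff _ _).1 d.adj)).2.1⟩
  left_inv := by
    rintro ⟨⟨x, y⟩, h⟩
    apply SimpleGraph.Dart.ext
    exact Prod.ext rfl (nx_mem _ _ ((adj_iff _ _).1 h)).2.2.2
  right_inv := by
    rintro ⟨⟨x, y⟩, h⟩
    apply SimpleGraph.Dart.ext
    exact Prod.ext rfl (nx_mem _ _ ((adj_iff _ _).1 h)).2.2.1

theorem rotP_toProd (d : H.Dart) : (rotP d).toProd = (d.toProd.1, nxH d.toProd.1 d.toProd.2) := rfl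

/-- the first dart at `x` -/
def headD (x : HV) : H.Dart := ⟨(x, (rotH x).headD .P), (adj_iff _ _).2 (head_mem _)⟩

theorem rotP_pow (x : HV) (n : ℕ) :
    ((rotP ^ n) (headD x)).toProd = (x, (nxH x)^[n] ((rotH x).headD .P)) := by
  induction n with
  | zero => rfl
  | succ n ih =>
    rw [pow_succ', Equiv.Perm.mul_apply, Function.iterate_succ_apply', rotP_toProd, ih]

theorem sameCycle_head (d : H.Dart) : rotP.SameCycle (headD d.toProd.1) d := by
  obtain ⟨k, -, hk⟩ := nx_iter d.toProd.1 d.toProd.2 ((adj_iff _ _).1 d.adj)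
  refine ⟨(k : ℤ), ?_⟩
  rw [zpow_natCast]
  apply SimpleGraph.Dart.ext
  rw [rotP_pow, hk]

/-- the rotation system -/
def RH : RotationSystem H where
  rot := rotP
  rot_fst := fun _ => rfl
  rot_trans := by
    intro d d' h
    have h1 := sameCycle_head d
    have h2 := sameCycle_head d'
    rw [show d.toProd.1 = d'.toProd.1 from h] at h1
    exact h1.symm.trans h2

theorem face_toProd (d : H.Dart) : (RH.face d).toProd = stepH d.toProd := rfl

theorem face_pow (d : H.Dart) (n : ℕ) : ((RH.face ^ n) d).toProd = stepH^[n] d.toProd := by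
  induction n with
  | zero => rfl
  | succ n ih =>
    rw [pow_succ', Equiv.Perm.mul_apply, Function.iterate_succ_apply', face_toProd, ih]

/-- the face of a dart -/
def labD (d : H.Dart) : Fin 19 :=
  ⟨labH d.toProd.1 d.toProd.2, (lab_step _ _ ((adj_iff _ _).1 d.adj)).2⟩

theorem labD_face (d : H.Dart) : labD (RH.face d) = labD d :=
  Fin.ext (lab_step _ _ ((adj_iff _ _).1 d.adj)).1

theorem labD_sameCycle {d d' : H.Dart} (h : RH.face.SameCycle d d') : labD d = labD d' := by
  have key : ∀ (n : ℕ) (d : H.Dart), labD ((RH.face ^ n) d) = labD d := by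
    intro n
    induction n with
    | zero => intro d; rfl
    | succ n ih =>
      intro d
      rw [pow_succ', Equiv.Perm.mul_apply, labD_face, ih]
  obtain ⟨i, hi⟩ := h
  rcases Int.eq_nat_or_neg i with ⟨n, rfl | rfl⟩
  · rw [zpow_natCast] at hi
    rw [← hi, key]
  · rw [zpow_neg, zpow_natCast] at hi
    have h1 : d = (RH.face ^ n) d' := by
      rw [← hi, ← Equiv.Perm.mul_apply, mul_inv_cancel, Equiv.Perm.one_apply]
    rw [h1, key]

/-- the representative dart of a face -/
def repD (k : Fin 19) : H.Dart := ⟨repH k.val, (adj_iff _ _).2 (rep_mem k.val k.2).1⟩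

theorem labD_repD (k : Fin 19) : labD (repD k) = k := Fin.ext (rep_mem k.val k.2).2

theorem sameCycle_rep (d : H.Dart) : RH.face.SameCycle (repD (labD d)) d := by
  obtain ⟨k, -, hk⟩ := lab_rep d.toProd.1 d.toProd.2 ((adj_iff _ _).1 d.adj)
  refine ⟨(k : ℤ), ?_⟩
  rw [zpow_natCast]
  apply SimpleGraph.Dart.ext
  rw [face_pow]
  exact hk

theorem numFaces_RH : RH.numFaces = 19 := by
  let φ : Quotient (SameCycle.setoid RH.face) → Fin 19 :=
    Quotient.lift labD fun _ _ h => labD_sameCycle h
  have hφ : Function.Bijective φ := by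
    constructor
    · intro a b
      refine Quotient.inductionOn₂ a b fun d d' h => ?_
      apply Quotient.sound
      have h1 : labD d = labD d' := h
      have h2 := sameCycle_rep d
      rw [h1] at h2
      exact h2.symm.trans (sameCycle_rep d')
    · intro k
      exact ⟨Quotient.mk _ (repD k), labD_repD k⟩
  rw [RotationSystem.numFaces, Nat.card_congr (Equiv.ofBijective φ hφ), Nat.card_eq_fintype_card,
    Fintype.card_fin]

theorem card_HV : Fintype.card HV = 52 := by decide +kernel

theorem sum_degree_H : ∑ x : HV, H.degree x = 138 := by decide +kernel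

theorem isPlanar_H : IsPlanar H := by
  refine ⟨RH, ?_⟩
  have h1 : Nat.card HV = 52 := by rw [Nat.card_eq_fintype_card, card_HV]
  have h2 : Nat.card {v : HV // ∀ w, ¬ H.Adj v w} = 0 := by
    have : IsEmpty {v : HV // ∀ w, ¬ H.Adj v w} := ⟨fun v => v.2 _ (headD v.1).adj⟩
    exact Nat.card_of_isEmpty
  have h3 : Nat.card H.ConnectedComponent = 1 := by
    have := connected_H.preconnected.subsingleton_connectedComponent
    have : Nonempty H.ConnectedComponent := ⟨H.connectedComponentMk .P⟩
    exact Nat.card_unique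
  have h4 : Nat.card H.edgeSet = 69 := by
    have h5 := H.sum_degrees_eq_twice_card_edges
    rw [sum_degree_H] at h5
    rw [Nat.card_eq_fintype_card, ← SimpleGraph.edgeFinset_card]
    omega
  rw [h1, h2, h3, h4, numFaces_RH]

end Pool.Agent.PlCov
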