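import Pool.Agent.Lib.PlCov.Base

/-!
# Chunk SI: consistency and signs

* `cons_of_sec`: if there are sectors `α` and signs `σ` then the component at `x` is consistent for the sector
  `α x`. Invariant along `Link G τ i` from `(y, false)`: `α z = i` and `σ z = xor (σ y) t` at `(z, t)`
  (for an edge: `sec`, `sgn`; for `ww`: `sec` through the vertex of type w, `wsg`). So `(y, true)` is impossible.
* `sec_of_accept`: choose for a vertex `x` with `τ x ≠ 0` the least (or any) sector `α x` which is consistent for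
  its component, so that `α` is constant on components of the vertices of type `≠ 0`, and signs `σ` by
  reachability from a chosen root of the component.
  Suggested: `Link` (for each `i`) is symmetric (`xor` with the same `dl`; `dl` is symmetric in the types) and
  commutes with flipping both signs. Let `Con x y` = `x`, `y` connected in `G` through vertices of type `≠ 0`
  (an equivalence relation on `V`; choose representatives with `Quotient.out`). For `x` of type `≥ 2` and `y`
  connected to `x`, of type `≥ 2`: there is `t` with `(x, s) → (y, xor s t)` by links of any given sector `i`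
  (a walk passing through a vertex of type w enters and leaves by its two neighbours of type u: `Good` gives
  exactly two; a neighbour of a w vertex is of type 0 or 2). Hence `Bad` is constant on the component.
  Each vertex of type `≥ 2` is connected to a vertex of type u, which has a neighbour of type w (`Good`), and
  each vertex of type w has a neighbour of type u. So by the first part of `Accept` there is a sector for
  each component which is not `Bad`. Then `σ y := decide (root, false) →* (y, true)`.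
  `hub`: by the second part of `Accept`, since `Cons G τ (α x) x` for all `x` of type w (all neighbours of a
  vertex of type 0 are of type w).
-/

set_option autoImplicit false

namespace Pool.Agent.PlCov

variable {V : Type}

theorem cons_of_sec {G : SimpleGraph V} {τ : V → ℕ} {α : V → Fin 3} {σ : V → Bool}
    (h : Good G τ) (hs : Sec G τ α σ) (x : V) (hx : τ x = 1) : Cons G τ (α x) x := by
  intro y hxy hy hbad
  have hay : α x = α y := hs.sec x y hxy (by omega) (by omega)
  have inv : ∀ p : V × Bool, Relation.ReflTransGen (Link G τ (α x)) (y, false) p →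
      α p.1 = α x ∧ σ p.1 = xor (σ y) p.2 := by
    intro p hp
    induction hp with
    | refl => exact ⟨hay.symm, by simp⟩
    | tail _ hl ih =>
      cases hl with
      | edge u v s huv hu hv =>
        simp only at ih
        refine ⟨(hs.sec u v huv (by omega) (by omega)).symm.trans ih.1, ?_⟩
        show σ v = _
        rw [hs.sgn u v huv hu hv, ih.1, ih.2, Bool.xor_assoc]
      | ww u v w s hu hv hw tv tw hvw =>
        simp only at ih
        have e1 := hs.sec u v hv (by omega) (by omega)
        have e2 := hs.sec u w hw (by omega) (by omega)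
        refine ⟨e2.symm.trans (e1.trans ih.1), ?_⟩
        show σ w = _
        have hne := hs.wsg u v w hu hv hw tv tw hvw
        rw [ih.2] at hne
        revert hne
        cases σ w <;> cases σ y <;> cases s <;> simp
  have h1 := (inv _ hbad).2
  simp at h1

/-- the links without signs -/
private def SNx (G : SimpleGraph V) (τ : V → ℕ) (y z : V) : Prop :=
  (G.Adj y z ∧ 2 ≤ τ y ∧ 2 ≤ τ z) ∨
    ∃ x, τ x = 1 ∧ G.Adj x y ∧ G.Adj x z ∧ τ y = 2 ∧ τ z = 2 ∧ y ≠ z

private theorem si_symm {G : SimpleGraph V} {τ : V → ℕ} {y z : V} (h : SNx G τ y z) :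
    SNx G τ z y := by
  rcases h with ⟨h1, h2, h3⟩ | ⟨x, h1, h2, h3, h4, h5, h6⟩
  · exact Or.inl ⟨h1.symm, h3, h2⟩
  · exact Or.inr ⟨x, h1, h3, h2, h5, h4, h6.symm⟩

private def SRel (G : SimpleGraph V) (τ : V → ℕ) : V → V → Prop :=
  Relation.ReflTransGen (SNx G τ)

private theorem srel_symm {G : SimpleGraph V} {τ : V → ℕ} {y z : V} (h : SRel G τ y z) :
    SRel G τ z y := by
  induction h with
  | refl => exact Relation.ReflTransGen.refl
  | tail _ hl ih => exact Relation.ReflTransGen.head (si_symm hl) ih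

private theorem si_dl (i a b : ℕ) : dl i a b = dl i b a := by
  unfold dl
  have e1 : ((a = 4 ∧ b = 3) ∨ (a = 3 ∧ b = 4)) = ((b = 4 ∧ a = 3) ∨ (b = 3 ∧ a = 4)) :=
    propext ⟨fun h => by omega, fun h => by omega⟩
  have e2 : ((a = 6 ∧ b = 3) ∨ (a = 3 ∧ b = 6)) = ((b = 6 ∧ a = 3) ∨ (b = 3 ∧ a = 6)) :=
    propext ⟨fun h => by omega, fun h => by omega⟩
  have e3 : ((a = 9 ∧ b = 3) ∨ (a = 3 ∧ b = 9)) = ((b = 9 ∧ a = 3) ∨ (b = 3 ∧ a = 9)) :=
    propext ⟨fun h => by omega, fun h => by omega⟩
  simp only [e1, e2, e3]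

private theorem link_symm {G : SimpleGraph V} {τ : V → ℕ} {i : Fin 3} {p q : V × Bool}
    (h : Link G τ i p q) : Link G τ i q p := by
  cases h with
  | edge x y s hxy hx hy =>
    have h1 := Link.edge (i := i) y x (xor s (dl i (τ x) (τ y))) hxy.symm hy hx
    rw [si_dl i (τ y) (τ x), Bool.xor_assoc, Bool.xor_self, Bool.xor_false] at h1
    exact h1
  | ww x y z s hx hy hz ty tz hyz =>
    have h1 := Link.ww (i := i) x z y (!s) hx hz hy tz ty hyz.symm
    rw [Bool.not_not] at h1
    exact h1

private theorem link_flip {G : SimpleGraph V} {τ : V → ℕ} {i : Fin 3} {p q : V × Bool}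
    (h : Link G τ i p q) : Link G τ i (p.1, !p.2) (q.1, !q.2) := by
  cases h with
  | edge x y s hxy hx hy =>
    have h1 := Link.edge (i := i) x y (!s) hxy hx hy
    have e : xor (!s) (dl i (τ x) (τ y)) = !(xor s (dl i (τ x) (τ y))) := by
      cases s <;> simp
    rw [e] at h1
    exact h1
  | ww x y z s hx hy hz ty tz hyz =>
    exact Link.ww (i := i) x y z (!s) hx hy hz ty tz hyz

private theorem links_symm {G : SimpleGraph V} {τ : V → ℕ} {i : Fin 3} {p q : V × Bool}
    (h : Relation.ReflTransGen (Link G τ i) p q) : Relation.ReflTransGen (Link G τ i) q p := by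
  induction h with
  | refl => exact Relation.ReflTransGen.refl
  | tail _ hl ih => exact Relation.ReflTransGen.head (link_symm hl) ih

private theorem links_flip {G : SimpleGraph V} {τ : V → ℕ} {i : Fin 3} {p q : V × Bool}
    (h : Relation.ReflTransGen (Link G τ i) p q) :
    Relation.ReflTransGen (Link G τ i) (p.1, !p.2) (q.1, !q.2) := by
  induction h with
  | refl => exact Relation.ReflTransGen.refl
  | tail _ hl ih => exact Relation.ReflTransGen.tail ih (link_flip hl)

private theorem srel_lift {G : SimpleGraph V} {τ : V → ℕ} (i : Fin 3) {y z : V}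
    (h : SRel G τ y z) (s : Bool) :
    ∃ t, Relation.ReflTransGen (Link G τ i) (y, s) (z, t) := by
  induction h with
  | refl => exact ⟨s, Relation.ReflTransGen.refl⟩
  | tail _ hl ih =>
    obtain ⟨t, ht⟩ := ih
    rcases hl with ⟨h1, h2, h3⟩ | ⟨x, h1, h2, h3, h4, h5, h6⟩
    · exact ⟨_, ht.tail (Link.edge _ _ t h1 h2 h3)⟩
    · exact ⟨_, ht.tail (Link.ww x _ _ t h1 h2 h3 h4 h5 h6)⟩

private theorem bad_trans {G : SimpleGraph V} {τ : V → ℕ} {i : Fin 3} {y z : V}
    (h : SRel G τ y z) (hb : Bad G τ i y) : Bad G τ i z := by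
  obtain ⟨t, ht⟩ := srel_lift i (srel_symm h) false
  have h2 : Relation.ReflTransGen (Link G τ i) (y, t) (y, !t) := by
    cases t with
    | false => exact hb
    | true => exact links_flip hb
  have h3 := links_symm (links_flip ht)
  exact (ht.trans h2).trans h3

private theorem si_nb {G : SimpleGraph V} {τ : V → ℕ} (h : Good G τ) (x : V) (t : ℕ) (ht : t < 10)
    (hm : mat (τ x) t ≠ 0) : ∃ y, G.Adj x y ∧ τ y = t := by
  by_contra hc
  push Not at hc
  have h1 := h.card x t ht
  have h2 : ({y | G.Adj x y ∧ τ y = t} : Set V) = ∅ := by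
    ext y
    simp only [Set.mem_setOf_eq, Set.mem_empty_iff_false, iff_false]
    exact fun hy => hc y hy.1 hy.2
  rw [h2, Set.ncard_empty] at h1
  exact hm h1.symm

private theorem si_not [Finite V] {G : SimpleGraph V} {τ : V → ℕ} (h : Good G τ) {x y : V}
    (hxy : G.Adj x y) : mat (τ x) (τ y) ≠ 0 := by
  intro h0
  have h1 := h.card x (τ y) (h.lt y)
  rw [h0, Set.ncard_eq_zero (Set.toFinite _)] at h1
  have h2 : y ∈ ({z | G.Adj x z ∧ τ z = τ y} : Set V) := ⟨hxy, rfl⟩
  rw [h1] at h2
  exact h2

/-- each vertex of type at least 2 is related to a vertex of type 2 -/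
private theorem si_two {G : SimpleGraph V} {τ : V → ℕ} (h : Good G τ) {z : V} (hz : 2 ≤ τ z) :
    ∃ y, τ y = 2 ∧ SRel G τ y z := by
  have st : ∀ a b : ℕ, b < 10 → 2 ≤ b → 2 ≤ a → mat a b ≠ 0 → (∀ y : V, τ y = b → ∃ u, τ u = 2 ∧
      SRel G τ u y) → ∀ y : V, τ y = a → ∃ u, τ u = 2 ∧ SRel G τ u y := by
    intro a b hb hb2 ha2 hm ih y hy
    obtain ⟨v, hv, hvb⟩ := si_nb h y b hb (by rw [hy]; exact hm)
    obtain ⟨u, hu, huv⟩ := ih v hvb
    exact ⟨u, hu, huv.tail (Or.inl ⟨hv.symm, by omega, by omega⟩)⟩
  have t2 : ∀ y : V, τ y = 2 → ∃ u, τ u = 2 ∧ SRel G τ u y :=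
    fun y hy => ⟨y, hy, Relation.ReflTransGen.refl⟩
  have t3 := st 3 2 (by norm_num) (by norm_num) (by norm_num) (by decide) t2
  have t4 := st 4 2 (by norm_num) (by norm_num) (by norm_num) (by decide) t2
  have t5 := st 5 2 (by norm_num) (by norm_num) (by norm_num) (by decide) t2
  have t7 := st 7 2 (by norm_num) (by norm_num) (by norm_num) (by decide) t2
  have t6 := st 6 5 (by norm_num) (by norm_num) (by norm_num) (by decide) t5
  have t8 := st 8 7 (by norm_num) (by norm_num) (by norm_num) (by decide) t7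
  have t9 := st 9 8 (by norm_num) (by norm_num) (by norm_num) (by decide) t8
  have hlt := h.lt z
  have hc : τ z = 2 ∨ τ z = 3 ∨ τ z = 4 ∨ τ z = 5 ∨ τ z = 6 ∨ τ z = 7 ∨ τ z = 8 ∨ τ z = 9 := by
    omega
  rcases hc with hc | hc | hc | hc | hc | hc | hc | hc
  · exact t2 z hc
  · exact t3 z hc
  · exact t4 z hc
  · exact t5 z hc
  · exact t6 z hc
  · exact t7 z hc
  · exact t8 z hc
  · exact t9 z hc

theorem sec_of_accept [Finite V] {G : SimpleGraph V} {τ : V → ℕ} (h : Good G τ)
    (ha : Accept G τ) : ∃ (α : V → Fin 3) (σ : V → Bool), Sec G τ α σ := by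
  classical
  let S : Setoid V := ⟨SRel G τ, ⟨fun _ => Relation.ReflTransGen.refl, fun h => srel_symm h,
    fun h1 h2 => h1.trans h2⟩⟩
  let rep : V → V := fun x => (Quotient.mk S x).out
  have rep_rel : ∀ x, SRel G τ (rep x) x := fun x => Quotient.exact (Quotient.out_eq (Quotient.mk S x))
  have rep_eq : ∀ x y, SRel G τ x y → rep x = rep y := by
    intro x y hxy
    show (Quotient.mk S x).out = (Quotient.mk S y).out
    have : Quotient.mk S x = Quotient.mk S y := Quotient.sound hxy
    rw [this]
  let ci : V → Fin 3 := fun r => if hr : ∃ i, ¬ Bad G τ i r then hr.choose else 0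
  have hci : ∀ z, 2 ≤ τ z → ¬ Bad G τ (ci (rep z)) (rep z) := by
    intro z hz
    obtain ⟨y, hy, hyz⟩ := si_two h hz
    obtain ⟨x, hyx, hx⟩ := si_nb h y 1 (by norm_num) (by rw [hy]; decide)
    obtain ⟨i, hi⟩ := ha.1 x hx
    have hb := hi y hyx.symm hy
    have hr : ∃ i, ¬ Bad G τ i (rep z) :=
      ⟨i, fun hbad => hb (bad_trans ((rep_rel z).trans (srel_symm hyz)) hbad)⟩
    show ¬ Bad G τ (if hr : ∃ i, ¬ Bad G τ i (rep z) then hr.choose else 0) (rep z)
    rw [dif_pos hr]
    exact hr.choose_spec
  -- the neighbour of type 2 of a vertex of type 1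
  let n2 : V → V := fun x => if hx : ∃ y, G.Adj x y ∧ τ y = 2 then hx.choose else x
  have hn2 : ∀ x, τ x = 1 → G.Adj x (n2 x) ∧ τ (n2 x) = 2 := by
    intro x hx
    have h1 := si_nb h x 2 (by norm_num) (by rw [hx]; decide)
    show G.Adj x (if hx : ∃ y, G.Adj x y ∧ τ y = 2 then hx.choose else x) ∧
      τ (if hx : ∃ y, G.Adj x y ∧ τ y = 2 then hx.choose else x) = 2
    rw [dif_pos h1]
    exact h1.choose_spec
  have hn2' : ∀ x y, τ x = 1 → G.Adj x y → τ y = 2 → rep (n2 x) = rep y := by
    intro x y hx hxy hy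
    obtain ⟨h1, h2⟩ := hn2 x hx
    by_cases he : n2 x = y
    · rw [he]
    · exact rep_eq _ _ (Relation.ReflTransGen.single (Or.inr ⟨x, hx, h1, hxy, h2, hy, he⟩))
  let α : V → Fin 3 := fun x => if τ x = 1 then ci (rep (n2 x)) else ci (rep x)
  have hα1 : ∀ x, τ x = 1 → α x = ci (rep (n2 x)) := fun x hx => if_pos hx
  have hα2 : ∀ x, 2 ≤ τ x → α x = ci (rep x) := fun x hx => if_neg (by omega)
  let σ : V → Bool := fun z =>
    decide (Relation.ReflTransGen (Link G τ (ci (rep z))) (rep z, false) (z, true))
  have hσ1 : ∀ z t, 2 ≤ τ z → Relation.ReflTransGen (Link G τ (ci (rep z))) (rep z, false) (z, t) →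
      σ z = t := by
    intro z t hz ht
    cases t with
    | true => exact decide_eq_true ht
    | false =>
      refine decide_eq_false ?_
      intro ht2
      refine hci z hz ?_
      exact ht2.trans (links_symm (links_flip ht))
  have hσ2 : ∀ z, 2 ≤ τ z →
      Relation.ReflTransGen (Link G τ (ci (rep z))) (rep z, false) (z, σ z) := by
    intro z hz
    obtain ⟨t, ht⟩ := srel_lift (ci (rep z)) (rep_rel z) false
    rw [hσ1 z t hz ht]
    exact ht
  have hone : ∀ x y, G.Adj x y → τ x = 1 → τ y ≠ 0 → τ y = 2 := by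
    intro x y hxy hx hy
    have h1 := si_not h hxy
    rw [hx] at h1
    have hlt := h.lt y
    generalize τ y = b at *
    revert h1 hy
    interval_cases b <;> decide
  refine ⟨α, σ, ⟨?_, ?_, ?_, ?_⟩⟩
  · intro x y hxy hx hy
    by_cases h1 : τ x = 1
    · have h2 := hone x y hxy h1 hy
      rw [hα1 x h1, hα2 y (by omega), hn2' x y h1 hxy h2]
    · by_cases h3 : τ y = 1
      · have h2 := hone y x hxy.symm h3 hx
        rw [hα1 y h3, hα2 x (by omega), hn2' y x h3 hxy.symm h2]
      · rw [hα2 x (by omega), hα2 y (by omega), rep_eq x y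
          (Relation.ReflTransGen.single (Or.inl ⟨hxy, by omega, by omega⟩))]
  · intro x y hxy hx hy
    have hr : rep x = rep y := rep_eq x y (Relation.ReflTransGen.single (Or.inl ⟨hxy, hx, hy⟩))
    apply hσ1 y _ hy
    have h1 := (hσ2 x hx).tail (Link.edge x y (σ x) hxy hx hy)
    rw [hα2 x hx, ← hr]
    exact h1
  · intro x y z hx hxy hxz hy hz hyz
    have hr : rep y = rep z := rep_eq y z
      (Relation.ReflTransGen.single (Or.inr ⟨x, hx, hxy, hxz, hy, hz, hyz⟩))
    have h1 := (hσ2 y (by omega)).tail (Link.ww x y z (σ y) hx hxy hxz hy hz hyz)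
    have h2 : σ z = !(σ y) := by
      apply hσ1 z _ (by omega)
      rw [← hr]
      exact h1
    rw [h2]
    cases σ y <;> simp
  · intro x y z hx hxy hxz hyz heq
    have hy : ∀ u, G.Adj x u → τ u = 1 := by
      intro u hu
      have h1 := si_not h hu
      rw [hx] at h1
      have hlt := h.lt u
      generalize τ u = b at *
      revert h1
      interval_cases b <;> decide
    have hcons : ∀ u, τ u = 1 → Cons G τ (α u) u := by
      intro u hu v huv hv hbad
      have h1 := hci v (by omega)
      rw [hα1 u hu, hn2' u v hu huv hv] at hbad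
      exact h1 (bad_trans (srel_symm (rep_rel v)) hbad)
    have h1 := hcons y (hy y hxy)
    have h2 := hcons z (hy z hxz)
    rw [← heq] at h2
    exact ha.2 x y z (α y) hx hxy hxz hyz ⟨h1, h2⟩

end Pool.Agent.PlCov
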