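import Pool.Agent.Lib.PlCov.Lift
import Pool.Agent.Lib.PlCov.Signs
import Pool.Agent.Lib.PlCov.Core
import Pool.Agent.Lib.PlCov.MacLane
import Pool.Agent.Lib.PlCov.AlgPT
import Pool.Agent.Lib.PlCov.AlgSpec
import Pool.Agent.Lib.PlCov.InNP
import Pool.Agent.Lib.PlCov.GadPT
import Pool.Agent.Lib.PlCov.Iso
import Pool.Agent.Lib.PlCov.PlanarH
import Pool.Agent.Lib.PlCov.PComp
import Pool.Agent.Lib.CookLevin.TMLocal
import Pool.Agent.Lib.PolyTime.Comp

/-!
# Assembly
-/

set_option autoImplicit false

namespace Pool.Agent.PlCov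

open Pool.Agent.PolyTime Pool.Agent.OOD Pool.Agent.TFP Pool.Agent.Lib.CookLevin Turing

/-- a finite graph accepted by the algorithm covers `H` -/
theorem covers_of_accept {V : Type} [Finite V] {G : SimpleGraph V} (h : Good G (typeOf G))
    (ha : Accept G (typeOf G)) : Covers G H := by
  obtain ⟨α, σ, hs⟩ := sec_of_accept h ha
  exact ⟨_, locBij_of h hs⟩

/-- a planar graph which covers `H` is accepted by the algorithm -/
theorem accept_of_covers {V : Type} [Fintype V] {G : SimpleGraph V} (hG : MPlanar G)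
    (hc : Covers G H) : Good G (typeOf G) ∧ Accept G (typeOf G) := by
  obtain ⟨f, hf⟩ := hc
  have h1 := good_of_locBij hf
  have h2 : typeOf G = fun x => ty (f x) := funext (typeOf_eq h1)
  have h3 := sec_of_locBij hf
  rw [h2]
  refine ⟨h1, fun x hx => ⟨_, cons_of_sec h1 h3 x hx⟩, ?_⟩
  rintro p x y i hp hx hy hxy ⟨hi, hj⟩
  have hnb : ∀ z, G.Adj p z → ty (f z) = 1 := by
    intro z hz
    by_contra hne
    have h4 := h1.card p (ty (f z)) (h1.lt z)
    have h5 : mat (ty (f p)) (ty (f z)) = 0 := by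
      have h6 := h1.lt z
      simp only at hp h6 hne
      rw [hp]
      generalize ty (f z) = t at h6 hne
      interval_cases t <;> first | rfl | exact absurd rfl hne
    rw [h5, Set.ncard_eq_zero] at h4
    exact (Set.eq_empty_iff_forall_notMem.1 h4 z) ⟨hz, rfl⟩
  have h6 := cons_unique hG h1 (hnb x hx) hi (cons_of_sec h1 h3 x (hnb x hx))
  have h7 := cons_unique hG h1 (hnb y hy) hj (cons_of_sec h1 h3 y (hnb y hy))
  exact h3.hub p x y hp hx hy hxy (h6.symm.trans h7)

/-- **The algorithm is correct on planar graphs.** -/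
theorem covAlg_iff (G : Σ n, SimpleGraph (Fin n)) (hG : IsPlanar G.2) :
    covAlg (encodeGraph G) = true ↔ Covers G.2 H := by
  rw [covAlg_encodeGraph]
  exact ⟨fun h => covers_of_accept h.1 h.2, accept_of_covers (mPlanar_of_isPlanar hG)⟩

/-- PLANARCOVER(H) is in P. -/
theorem inP_planarCoverLang : InP (PlanarCoverLang H) := by
  have hR : PT fun w : List Bool => isGraph w && (planarTest w && covAlg w) :=
    PT.and PT_isGraph (PT.and PT_planarTest PT_covAlg)
  refine ⟨fun w => isGraph w && (planarTest w && covAlg w), ?_, ?_⟩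
  · have h1 : PT fun w : List Bool =>
        Computability.encodeBool (isGraph w && (planarTest w && covAlg w)) :=
      PT.cons hR (PT.const [])
    exact tmStr h1
  · intro x
    constructor
    · rintro ⟨G, rfl, hp, hc⟩
      rw [Bool.and_eq_true, Bool.and_eq_true]
      exact ⟨isGraph_encodeGraph G, (planarTest_encodeGraph G).2 hp, (covAlg_iff G hp).2 hc⟩
    · intro h
      rw [Bool.and_eq_true, Bool.and_eq_true] at h
      obtain ⟨h1, h2, h3⟩ := h
      have h4 := encodeGraph_graphOf x h1
      rw [← h4] at h2 h3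
      have h5 := (planarTest_encodeGraph _).1 h2
      exact ⟨_, h4.symm, h5, (covAlg_iff _ h5).1 h3⟩

/-- COVER(H) is NP-hard. -/
theorem npHard_coverLang : NPHard (CoverLang H) := by
  refine npHard_of_cnfSat (fun f => encodeGraph (gG (tri (threeCol f))))
    (PT_gG.comp (PT_tri.comp PT_threeCol)) fun f => ?_
  rw [threeCol_iff, rainbow_tri, rainbow_iff]
  obtain ⟨e⟩ := gIso (tri (threeCol f))
  constructor
  · intro h
    exact ⟨_, rfl, covers_iso e h⟩
  · rintro ⟨G, hG, hc⟩
    rw [← encodeGraph_injective hG] at hc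
    exact covers_iso e.symm hc

/-- COVER(H) is NP-complete. -/
theorem npComplete_coverLang : NPComplete (CoverLang H) := ⟨inNP_coverLang H, npHard_coverLang⟩

/-- The graph `H` has a planar cover. -/
theorem hasPlanarCover_H : HasPlanarCover H := by
  let e : HV ≃ Fin (Fintype.card HV) := Fintype.equivFin HV
  let G : SimpleGraph (Fin (Fintype.card HV)) := H.comap e.symm
  have i : G ≃g H := SimpleGraph.Iso.comap e.symm H
  exact ⟨⟨Fintype.card HV, G⟩, Fintype.card_pos_iff.2 ⟨HV.P⟩, isPlanar_iso i.symm isPlanar_H,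
    covers_iso i (covers_self H)⟩

/-- If a language in P is NP-hard, then P = NP. -/
theorem peqNP_of_npHard {L : Word → Prop} (hL : InP L) (hh : NPHard L) : PeqNP := by
  intro L' hL'
  obtain ⟨f, hf, hf'⟩ := hh L' hL'
  obtain ⟨R, hR, hR'⟩ := hL
  refine ⟨fun x => R (f x), ?_, fun x => (hf' x).trans (hR' _)⟩
  exact tm_comp id id Computability.encodeBool f R hf hR

end Pool.Agent.PlCov
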