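import Mathlib

/-!
# Chunk NX: the next slot of the same variable

`L` = list of the variables of the slots. `nxt L s` = the first slot after `s`, in the cyclic order, with the same
variable. Let `d s` be the least `d ≥ 1` with `L[(s + d) % n] = L[s]`; then `nxt L s = (s + d s) % n`.
Injective: if `nxt s = nxt s'` and `d s < d s'`, then `s = s' + (d s' - d s)` mod `n`, contradicting the
minimality of `d s'`. Transitive: let `s' = s + k` mod `n`, `k < n`, same variable; strong induction on `k`:
`d s ≤ k` if `k > 0`, and `s' = nxt s + (k - d s)`.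
-/

set_option autoImplicit false

namespace Pool.Agent.PlCov

/-- the next slot of the same variable, cyclically -/
def nxt (L : List ℕ) (s : ℕ) : ℕ :=
  (((List.range L.length).drop (s + 1) ++ (List.range L.length).take (s + 1)).find? fun r =>
    decide (L.getD r 0 = L.getD s 0)).getD s

theorem nxt_spec {L : List ℕ} {s : ℕ} (h : s < L.length) :
    ∃ d, 1 ≤ d ∧ nxt L s = (s + d) % L.length ∧
      L.getD ((s + d) % L.length) 0 = L.getD s 0 ∧
      ∀ e, 1 ≤ e → e < d → L.getD ((s + e) % L.length) 0 ≠ L.getD s 0 := by
  have h1 : (List.range L.length).drop (s + 1) ++ (List.range L.length).take (s + 1) =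
      (List.range L.length).rotate (s + 1) := by
    rw [List.rotate_eq_drop_append_take]
    simpa using h
  obtain ⟨b, hb⟩ : ∃ b, ((List.range L.length).rotate (s + 1)).find? (fun r =>
      decide (L.getD r 0 = L.getD s 0)) = some b := by
    rw [← Option.isSome_iff_exists, List.find?_isSome]
    exact ⟨s, by simpa using h, by simp⟩
  have h2 := (List.find?_eq_some_iff_getElem).1 hb
  obtain ⟨h3, i, hi, h4, h5⟩ := h2
  have h6 : nxt L s = b := by
    rw [nxt, h1, hb]
    rfl
  rw [List.getElem_rotate, List.getElem_range] at h4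
  simp only [List.length_range] at h4
  have h7 : (s + (i + 1)) % L.length = b := by
    rw [← h4]
    congr 1
    omega
  refine ⟨i + 1, by omega, by rw [h6, h7], ?_, ?_⟩
  · rw [h7]
    simpa using h3
  · intro e he he'
    have h8 := h5 (e - 1) (by omega)
    rw [List.getElem_rotate, List.getElem_range] at h8
    simp only [List.length_range] at h8
    have h9 : e - 1 + (s + 1) = s + e := by omega
    rw [h9] at h8
    simpa using h8

theorem nxt_lt {L : List ℕ} {s : ℕ} (h : s < L.length) : nxt L s < L.length := by
  obtain ⟨d, -, h1, -⟩ := nxt_spec h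
  rw [h1]
  exact Nat.mod_lt _ (by omega)

theorem nxt_var {L : List ℕ} {s : ℕ} (h : s < L.length) : L.getD (nxt L s) 0 = L.getD s 0 := by
  obtain ⟨d, -, h1, h2, -⟩ := nxt_spec h
  rw [h1, h2]

theorem nxt_inj_aux {L : List ℕ} {s s' d d' : ℕ} (h : s < L.length)
    (he : (s + d) % L.length = (s' + d') % L.length)
    (hv : L.getD s 0 = L.getD s' 0) (hdd : d < d')
    (hm : ∀ e, 1 ≤ e → e < d' → L.getD ((s' + e) % L.length) 0 ≠ L.getD s' 0) (hd : 1 ≤ d) :
    False := by
  refine hm (d' - d) (by omega) (by omega) ?_
  have h1 : (s' + (d' - d)) % L.length = s := by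
    have h2 : s' + (d' - d) + d ≡ s + d [MOD L.length] := by
      have h3 : s' + (d' - d) + d = s' + d' := by omega
      rw [h3]
      exact he.symm
    have h4 := Nat.ModEq.add_right_cancel' d h2
    rw [Nat.ModEq, Nat.mod_eq_of_lt h] at h4
    exact h4
  rw [h1, hv]

theorem nxt_inj {L : List ℕ} {s s' : ℕ} (h : s < L.length) (h' : s' < L.length)
    (he : nxt L s = nxt L s') : s = s' := by
  have hv : L.getD s 0 = L.getD s' 0 := by rw [← nxt_var h, ← nxt_var h', he]
  obtain ⟨d, h0, h1, h2, h3⟩ := nxt_spec h
  obtain ⟨d', h0', h1', h2', h3'⟩ := nxt_spec h'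
  rw [h1, h1'] at he
  rcases lt_trichotomy d d' with hd | rfl | hd
  · exact (nxt_inj_aux h he hv hd h3' h0).elim
  · have h4 := Nat.ModEq.add_right_cancel' d (show s + d ≡ s' + d [MOD L.length] from he)
    rwa [Nat.ModEq, Nat.mod_eq_of_lt h, Nat.mod_eq_of_lt h'] at h4
  · exact (nxt_inj_aux h' he.symm hv.symm hd h3 h0').elim

/-- A function which is constant along `nxt` is constant on the slots of a variable. -/
theorem nxt_const {β : Type} {L : List ℕ} (c : ℕ → β) (hc : ∀ s, s < L.length → c (nxt L s) = c s)
    {s s' : ℕ} (h : s < L.length) (h' : s' < L.length) (he : L.getD s 0 = L.getD s' 0) :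
    c s = c s' := by
  have key : ∀ k, ∀ s s' : ℕ, s < L.length → s' = (s + k) % L.length →
      L.getD s 0 = L.getD s' 0 → c s = c s' := by
    intro k
    induction k using Nat.strong_induction_on with
    | _ k ih =>
      intro s s' h h1 h2
      rcases Nat.eq_zero_or_pos k with rfl | hk
      · rw [Nat.add_zero, Nat.mod_eq_of_lt h] at h1
        rw [h1]
      · obtain ⟨d, e0, e1, e2, e3⟩ := nxt_spec h
        have hd : d ≤ k := by
          by_contra hcon
          exact e3 k hk (by omega) (by rw [← h1, h2])
        rw [← hc s h]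
        refine ih (k - d) (by omega) _ _ (nxt_lt h) ?_ ?_
        · rw [e1, h1, Nat.mod_add_mod]
          congr 1
          omega
        · rw [nxt_var h, h2]
  refine key (s' + L.length - s) s s' h ?_ he
  have h1 : s + (s' + L.length - s) = s' + L.length := by omega
  rw [h1, Nat.add_mod_right, Nat.mod_eq_of_lt h']

/-- `nxt` as a permutation -/
noncomputable def nxtPerm (L : List ℕ) : Equiv.Perm (Fin L.length) :=
  Equiv.ofBijective (fun s => ⟨nxt L s.val, nxt_lt s.2⟩) (Finite.injective_iff_bijective.1
    fun s s' h => Fin.ext (nxt_inj s.2 s'.2 (congrArg Fin.val h)))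

theorem nxtPerm_val (L : List ℕ) (s : Fin L.length) : (nxtPerm L s).val = nxt L s.val := rfl

end Pool.Agent.PlCov
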