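import Pool.Agent.Lib.PFire.LrMain
import Pool.Agent.Lib.PFire.PTLr
import Pool.Agent.Lib.PFire.PTAlg
import Pool.Agent.Lib.PFire.PlanarLists
import Pool.Agent.Lib.OOD.GraphParse

/-!
# Chunk T1: the planarity test, as a program on words, runs in polynomial time

It uses helper14's embedding algorithm `PFire.embed`, in the form `PFire.embedC` (`PT_embedC`, `embedC_eq` in
`PFire.PTLr`), which is equal to it on valid adjacency lists.
-/

set_option autoImplicit false

namespace Pool.Agent.PlCov

open Pool.Agent.PolyTime Pool.Agent.OOD Pool.Agent.PFire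

/-- adjacency lists of the graph of a word -/
def gl (w : List Bool) : Rot :=
  (List.range (gn w)).map fun u => (List.range (gn w)).filter fun v => gadj w u v

/-- is the component of `s` without edges, or is the embedding computed by `embedC` plane? -/
def planeAt (g : Rot) (s : ℕ) : Bool :=
  decide (darts g s = []) || decide (2 * ((comp (embedC g s) s).length +
    (faces (embedC g s) s).length) = (darts (embedC g s) s).length + 4)

/-- the planarity test -/
def planarTest (w : List Bool) : Bool :=
  (List.range (gn w)).all fun s => planeAt (gl w) s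

lemma t1_PT_gl : PT gl := by
  unfold gl
  refine PT.map (f := fun (w : List Bool) (u : ℕ) => (List.range (gn w)).filter fun v => gadj w u v)
    ?_ (PT_grange PT.id)
  refine PT.filter (f := fun (p : List Bool × ℕ) (v : ℕ) => gadj p.1 p.2 v) ?_
    (PT_grange (by fun_prop))
  exact PT_gadj (by fun_prop) (by fun_prop) (by fun_prop)

lemma t1_PT_planeAt {α : Type} [Enc α] {g : α → Rot} {s : α → ℕ} (hg : PT g) (hs : PT s) :
    PT fun a => planeAt (g a) (s a) := by
  have he := PT_embedC hg hs
  unfold planeAt
  refine PT.or (PT.decide_eq (PTA_darts hg hs) (PT.const [])) (PT.decide_eq ?_ ?_)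
  · exact PT.mul (PT.const 2) (PT.add (PT.length (PTA_comp he hs)) (PT.length (PTA_faces he hs)))
  · exact PT.add (PT.length (PTA_darts he hs)) (PT.const 4)

theorem PT_planarTest : PT planarTest := by
  unfold planarTest
  refine PT.all (f := fun (w : List Bool) (s : ℕ) => planeAt (gl w) s) ?_ (PT_grange PT.id)
  exact t1_PT_planeAt (t1_PT_gl.comp (by fun_prop)) (by fun_prop)

end Pool.Agent.PlCov
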