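import Pool.Agent.Lib.PlCov.GadCover
import Pool.Agent.Lib.PlCov.Next
import Pool.Agent.Lib.CookLevin.ThreeCol

/-!
# Chunk RB: rainbow triples

* `rainbow_tri`: `c` a 3-colouring of the edges `E` gives a colouring of the variables `2 x` and (third colour) of the
  new variables `2 i + 1`; conversely restrict to `2 x`.
* `PT_tri`: polynomial time.
* `rainbow_iff`: `Rainbow T` iff the gadget graph of `T` covers `H`: slots = positions in `vars T` (length
  `3 * T.length`), the constraint of the slot `s` is `s / 3`. `→`: `c s = col (variable of s)`, `covers_GG`.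
  `←`: `colour_of_covers`, `nxt_const`: `col x = c (first slot with variable x)`.
-/

set_option autoImplicit false

namespace Pool.Agent.PlCov

open Pool.Agent.PolyTime Pool.Agent.Lib.CookLevin

/-- the variables can be coloured with three colours such that each triple has three different colours -/
def Rainbow (T : List (ℕ × ℕ × ℕ)) : Prop :=
  ∃ c : ℕ → Fin 3, ∀ t ∈ T, c t.1 ≠ c t.2.1 ∧ c t.1 ≠ c t.2.2 ∧ c t.2.1 ≠ c t.2.2

/-- the triples of a list of edges: a new variable for each edge -/
def tri (E : List (ℕ × ℕ)) : List (ℕ × ℕ × ℕ) :=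
  E.zipIdx.map fun p => (2 * p.1.1, 2 * p.1.2, 2 * p.2 + 1)

/-- a colour different from two colours -/
def thC (a b : Fin 3) : Fin 3 :=
  if 0 ≠ a ∧ 0 ≠ b then 0 else if 1 ≠ a ∧ 1 ≠ b then 1 else 2

theorem thC_ne : ∀ a b : Fin 3, a ≠ thC a b ∧ b ≠ thC a b := by decide

theorem rainbow_tri (E : List (ℕ × ℕ)) : ThreeColourable E ↔ Rainbow (tri E) := by
  constructor
  · rintro ⟨c, hc⟩
    refine ⟨fun x => if x % 2 = 0 then c (x / 2) else
      thC (c (E.getD (x / 2) (0, 0)).1) (c (E.getD (x / 2) (0, 0)).2), ?_⟩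
    intro t ht
    obtain ⟨⟨e, i⟩, hp, rfl⟩ := List.mem_map.1 ht
    have hget : E[i]? = some e := List.mk_mem_zipIdx_iff_getElem?.1 hp
    have he : e ∈ E := List.mem_of_getElem? hget
    have h1 : E.getD i (0, 0) = e := by
      rw [List.getD_eq_getElem?_getD, hget]
      rfl
    have e1 : (2 * e.1) % 2 = 0 := by omega
    have e2 : (2 * e.2) % 2 = 0 := by omega
    have e3 : ¬ (2 * i + 1) % 2 = 0 := by omega
    have e4 : (2 * e.1) / 2 = e.1 := by omega
    have e5 : (2 * e.2) / 2 = e.2 := by omega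
    have e6 : (2 * i + 1) / 2 = i := by omega
    simp only [e1, e2, e3, if_true, if_false, e4, e5, e6, h1]
    exact ⟨hc e he, (thC_ne _ _).1, (thC_ne _ _).2⟩
  · rintro ⟨c, hc⟩
    refine ⟨fun x => c (2 * x), fun e he => ?_⟩
    obtain ⟨i, hi, rfl⟩ := List.getElem_of_mem he
    have h1 : (2 * (E[i]).1, 2 * (E[i]).2, 2 * i + 1) ∈ tri E := by
      refine List.mem_map.2 ⟨(E[i], i), ?_, rfl⟩
      rw [List.mk_mem_zipIdx_iff_getElem?]
      exact List.getElem?_eq_getElem hi
    exact (hc _ h1).1

theorem PT_tri : PT tri :=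
  PT.map (f := fun (_ : List (ℕ × ℕ)) (p : (ℕ × ℕ) × ℕ) =>
    (2 * p.1.1, 2 * p.1.2, 2 * p.2 + 1)) (by fun_prop) (PT.zipIdx PT.id)

/-- the variables of the slots -/
def vars (T : List (ℕ × ℕ × ℕ)) : List ℕ := T.flatMap fun t => [t.1, t.2.1, t.2.2]

theorem length_vars (T : List (ℕ × ℕ × ℕ)) : (vars T).length = 3 * T.length := by
  induction T with
  | nil => rfl
  | cons t T ih =>
    have : vars (t :: T) = [t.1, t.2.1, t.2.2] ++ vars T := rfl
    rw [this, List.length_append, ih]
    simp
    ring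

/-- the constraint of a slot -/
def hbT (T : List (ℕ × ℕ × ℕ)) (s : Fin (vars T).length) : Fin T.length :=
  ⟨s.val / 3, by have := lt_of_lt_of_eq s.2 (length_vars T); omega⟩

theorem ncard_hbT (T : List (ℕ × ℕ × ℕ)) (t : Fin T.length) :
    Set.ncard {s | hbT T s = t} = 3 := by
  have hl := length_vars T
  have ht := t.2
  rw [Set.ncard_eq_three]
  refine ⟨⟨3 * t.val, by omega⟩, ⟨3 * t.val + 1, by omega⟩, ⟨3 * t.val + 2, by omega⟩, ?_, ?_, ?_, ?_⟩
  · intro h
    have := congrArg Fin.val h
    simp only at this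
    omega
  · intro h
    have := congrArg Fin.val h
    simp only at this
    omega
  · intro h
    have := congrArg Fin.val h
    simp only at this
    omega
  · ext s
    simp only [Set.mem_ofPred_eq, Set.mem_insert_iff, Set.mem_singleton_iff, hbT, Fin.ext_iff]
    omega

theorem vars_get (T : List (ℕ × ℕ × ℕ)) : ∀ (t : ℕ) (_ : t < T.length),
    (vars T).getD (3 * t) 0 = (T.getD t (0, 0, 0)).1 ∧
    (vars T).getD (3 * t + 1) 0 = (T.getD t (0, 0, 0)).2.1 ∧
    (vars T).getD (3 * t + 2) 0 = (T.getD t (0, 0, 0)).2.2 := by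
  induction T with
  | nil => intro t ht; exact absurd ht (by simp)
  | cons a T ih =>
    intro t ht
    have hv : vars (a :: T) = a.1 :: a.2.1 :: a.2.2 :: vars T := rfl
    cases t with
    | zero => rw [hv]; exact ⟨rfl, rfl, rfl⟩
    | succ t =>
      have h1 := ih t (by simpa using ht)
      have e1 : 3 * (t + 1) = 3 * t + 1 + 1 + 1 := by ring
      have e2 : 3 * (t + 1) + 1 = 3 * t + 1 + 1 + 1 + 1 := by ring
      have e3 : 3 * (t + 1) + 2 = 3 * t + 2 + 1 + 1 + 1 := by ring
      rw [hv, e2, e3, e1]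
      simp only [List.getD_cons_succ]
      exact h1

theorem rainbow_iff (T : List (ℕ × ℕ × ℕ)) :
    Rainbow T ↔ Covers (GG (nxtPerm (vars T)) (hbT T)) H := by
  have hl := length_vars T
  constructor
  · rintro ⟨col, hcol⟩
    refine covers_GG _ _ (ncard_hbT T) (fun s => col ((vars T).getD s.val 0)) ?_ ?_
    · intro s
      simp only [nxtPerm_val]
      rw [nxt_var s.2]
    · intro s s' hss hne
      have h1 : s.val / 3 = s'.val / 3 := congrArg Fin.val hss
      have h2 : s.val ≠ s'.val := fun h => hne (Fin.ext h)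
      have h3 := s.2
      have h4 := s'.2
      have h5 : s.val / 3 < T.length := by omega
      obtain ⟨g1, g2, g3⟩ := vars_get T (s.val / 3) h5
      obtain ⟨c1, c2, c3⟩ := hcol (T.getD (s.val / 3) (0, 0, 0)) (by
        rw [List.getD_eq_getElem _ _ h5]
        exact List.getElem_mem h5)
      rw [← g1, ← g2] at c1
      rw [← g1, ← g3] at c2
      rw [← g2, ← g3] at c3
      show col ((vars T).getD s.val 0) ≠ col ((vars T).getD s'.val 0)
      generalize hk : s.val / 3 = k at *
      have k1 : s.val = 3 * k ∨ s.val = 3 * k + 1 ∨ s.val = 3 * k + 2 := by omega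
      have k2 : s'.val = 3 * k ∨ s'.val = 3 * k + 1 ∨ s'.val = 3 * k + 2 := by omega
      rcases k1 with k1 | k1 | k1 <;> rcases k2 with k2 | k2 | k2 <;> rw [k1, k2]
      · omega
      · exact c1
      · exact c2
      · exact c1.symm
      · omega
      · exact c3
      · exact c2.symm
      · exact c3.symm
      · omega
  · intro h
    obtain ⟨c, hc, hr⟩ := colour_of_covers _ _ (ncard_hbT T) h
    let c' : ℕ → Fin 3 := fun s => if h : s < (vars T).length then c ⟨s, h⟩ else 0
    have hc' : ∀ s (h : s < (vars T).length), c' s = c ⟨s, h⟩ := fun s h => dif_pos h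
    have hc'' : ∀ s, s < (vars T).length → c' (nxt (vars T) s) = c' s := by
      intro s hs
      rw [hc' _ (nxt_lt hs), hc' _ hs, ← hc ⟨s, hs⟩]
      rfl
    have hcol : ∀ s, s < (vars T).length →
        c' ((vars T).idxOf ((vars T).getD s 0)) = c' s := by
      intro s hs
      have h1 : (vars T).getD s 0 ∈ vars T := by
        rw [List.getD_eq_getElem _ _ hs]
        exact List.getElem_mem hs
      have h2 := List.idxOf_lt_length_iff.2 h1
      refine nxt_const c' hc'' h2 hs ?_
      rw [List.getD_eq_getElem _ _ h2, List.getElem_idxOf]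
    refine ⟨fun x => c' ((vars T).idxOf x), fun t ht => ?_⟩
    obtain ⟨k, hk, rfl⟩ := List.getElem_of_mem ht
    obtain ⟨g1, g2, g3⟩ := vars_get T k hk
    rw [List.getD_eq_getElem _ _ hk] at g1 g2 g3
    simp only
    rw [← g1, ← g2, ← g3, hcol _ (by omega), hcol _ (by omega), hcol _ (by omega),
      hc' _ (by omega), hc' _ (by omega), hc' _ (by omega)]
    refine ⟨hr _ _ ?_ ?_, hr _ _ ?_ ?_, hr _ _ ?_ ?_⟩ <;>
      simp only [hbT, ne_eq, Fin.mk.injEq] <;> omega

end Pool.Agent.PlCov
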