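import Pool.Agent.Lib.PlCov.Base

/-!
# Chunk TY: types

* `good_ty_H`: the types of the vertices of `H` are a good type function (`decide`: `ncard` of a
  decidable set = `Fintype.card` / `Finset.card` of a filter).
* `good_of_locBij`: if `f : G → H` is locally bijective then `ty ∘ f` is good: `f` is a bijection from
  the neighbours of `x` of type `t` onto the neighbours of `f x` of type `t` (first show that `f` is a
  bijection between the open neighbourhoods: `f y ≠ f x` for a neighbour `y` since `H` has no loops).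
* `typeOf_eq`: a good type function is equal to `typeOf` (so there is at most one).
-/

set_option autoImplicit false
set_option maxRecDepth 100000

namespace Pool.Agent.PlCov

variable {V : Type}

theorem ty_lt : ∀ x : HV, ty x < 10 := by decide +kernel

theorem ty_card : ∀ x : HV, ∀ t < 10, (Finset.univ.filter fun y => H.Adj x y ∧ ty y = t).card =
    mat (ty x) t := by decide +kernel

theorem good_ty_H : Good H ty := by
  refine ⟨ty_lt, fun x t ht => ?_⟩
  rw [← ty_card x t ht, Set.ncard_eq_toFinset_card']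
  congr 1
  ext y
  simp

theorem good_of_locBij [Finite V] {G : SimpleGraph V} {f : V → HV} (h : LocBij G H f) :
    Good G fun x => ty (f x) := by
  obtain ⟨h1, h2⟩ := h
  refine ⟨fun x => ty_lt _, fun x t ht => ?_⟩
  rw [← good_ty_H.card (f x) t ht]
  have h3 : f '' {y | G.Adj x y ∧ ty (f y) = t} = {z | H.Adj (f x) z ∧ ty z = t} := by
    ext z
    constructor
    · rintro ⟨y, ⟨hy1, hy2⟩, rfl⟩
      exact ⟨h1 _ _ hy1, hy2⟩
    · rintro ⟨hz1, hz2⟩
      obtain ⟨y, hy, rfl⟩ := (h2 x).surjOn (Set.mem_insert_of_mem _ hz1)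
      rcases hy with rfl | hy
      · exact absurd hz1 (H.irrefl)
      · exact ⟨y, ⟨hy, hz2⟩, rfl⟩
  rw [← h3]
  refine (Set.InjOn.ncard_image ?_).symm
  intro y hy z hz hyz
  exact (h2 x).injOn (Set.mem_insert_of_mem _ hy.1) (Set.mem_insert_of_mem _ hz.1) hyz

/-- the degrees of the types -/
def rowT (t : ℕ) : ℕ := [3, 3, 5, 4, 2, 2, 2, 2, 2, 2].getD t 0

theorem rowT_eq : ∀ t < 10, ∑ b ∈ Finset.range 10, mat t b = rowT t := by decide

theorem Good.degree [Finite V] {G : SimpleGraph V} {τ : V → ℕ} (h : Good G τ) (x : V) :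
    (G.neighborSet x).ncard = rowT (τ x) := by
  classical
  have := Fintype.ofFinite V
  rw [← rowT_eq _ (h.lt x), Set.ncard_eq_toFinset_card']
  have h1 : ∀ y ∈ (G.neighborSet x).toFinset, τ y ∈ Finset.range 10 :=
    fun y _ => Finset.mem_range.2 (h.lt y)
  rw [Finset.card_eq_sum_card_fiberwise h1]
  refine Finset.sum_congr rfl fun b hb => ?_
  rw [← h.card x b (Finset.mem_range.1 hb), Set.ncard_eq_toFinset_card']
  congr 1
  ext y
  simp

theorem Good.exists_nb [Finite V] {G : SimpleGraph V} {τ : V → ℕ} (h : Good G τ) {x : V} {t : ℕ}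
    (ht : 0 < mat (τ x) t) : ∃ y, G.Adj x y ∧ τ y = t := by
  have h10 : t < 10 := by
    by_contra hcon
    have h1 := h.lt x
    have : ∀ a < 10, (matT.getD a []).length = 10 := by decide
    have h2 := this _ h1
    rw [mat, List.getD_eq_default _ _ (by omega)] at ht
    omega
  have h1 := h.card x t h10
  rw [← h1] at ht
  obtain ⟨y, hy⟩ := (Set.ncard_pos).1 ht
  exact ⟨y, hy⟩

theorem Good.mat_pos [Finite V] {G : SimpleGraph V} {τ : V → ℕ} (h : Good G τ) {x y : V}
    (hxy : G.Adj x y) : 0 < mat (τ x) (τ y) := by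
  rw [← h.card x (τ y) (h.lt y), Set.ncard_pos]
  exact ⟨y, hxy, rfl⟩

theorem typeOf_eq [Finite V] {G : SimpleGraph V} {τ : V → ℕ} (h : Good G τ) (x : V) :
    typeOf G x = τ x := by
  classical
  have hD := h.degree
  have h5 : ∀ x, (∃ z, G.Adj x z ∧ (G.neighborSet z).ncard = 5) ↔ 0 < mat (τ x) 2 := by
    intro x
    constructor
    · rintro ⟨z, hz, hz'⟩
      have h1 := h.mat_pos hz
      rw [hD] at hz'
      have h2 := h.lt z
      generalize τ z = t at h1 hz' h2
      interval_cases t <;> first | exact h1 | (simp [rowT] at hz')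
    · intro hx
      obtain ⟨z, hz, hz'⟩ := h.exists_nb hx
      exact ⟨z, hz, by rw [hD, hz']; rfl⟩
  have h4 : ∀ x, (∃ z, G.Adj x z ∧ (G.neighborSet z).ncard = 4) ↔ 0 < mat (τ x) 3 := by
    intro x
    constructor
    · rintro ⟨z, hz, hz'⟩
      have h1 := h.mat_pos hz
      rw [hD] at hz'
      have h2 := h.lt z
      generalize τ z = t at h1 hz' h2
      interval_cases t <;> first | exact h1 | (simp [rowT] at hz')
    · intro hx
      obtain ⟨z, hz, hz'⟩ := h.exists_nb hx
      exact ⟨z, hz, by rw [hD, hz']; rfl⟩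
  have near : ∀ (b : ℕ) (x : V), (∃ z, G.Adj x z ∧ rowT (τ z) = 2 ∧ 0 < mat (τ z) b) ↔
      ∃ t < 10, 0 < mat (τ x) t ∧ rowT t = 2 ∧ 0 < mat t b := by
    intro b x
    constructor
    · rintro ⟨z, hz, h1, h2⟩
      exact ⟨τ z, h.lt z, h.mat_pos hz, h1, h2⟩
    · rintro ⟨t, -, h1, h2, h3⟩
      obtain ⟨z, hz, rfl⟩ := h.exists_nb h1
      exact ⟨z, hz, h2, h3⟩
  unfold typeOf
  simp only [h5, h4]
  simp only [hD]
  simp only [near]
  have hx := h.lt x
  generalize τ x = t at hx
  revert t
  decide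

end Pool.Agent.PlCov
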